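import Pool.Agent.Hhelper88.MkTree

set_option autoImplicit false

/-! Normalized Markov triples versus nodes. -/

namespace Pool.Agent.Hhelper88

open Finset

/-- words of length `< k` -/
def PL : ℕ → Finset (List Bool)
  | 0 => ∅
  | k + 1 => insert [] ((PL k).image (List.cons false) ∪ (PL k).image (List.cons true))

lemma mem_PL (k : ℕ) : ∀ w : List Bool, w ∈ PL k ↔ w.length < k := by
  induction k with
  | zero => intro w; simp [PL]
  | succ k ih =>
    intro w
    simp only [PL, mem_insert, mem_union, mem_image]
    constructor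
    · rintro (rfl | ⟨v, hv, rfl⟩ | ⟨v, hv, rfl⟩)
      · simp
      · rw [ih] at hv; simp; omega
      · rw [ih] at hv; simp; omega
    · intro h
      cases w with
      | nil => left; rfl
      | cons b v =>
        right
        simp only [List.length_cons] at h
        cases b
        · left; exact ⟨v, (ih v).2 (by omega), rfl⟩
        · right; exact ⟨v, (ih v).2 (by omega), rfl⟩

open Classical in
lemma CC_eq_card (k : ℕ) : ∀ (s : Node) (T : ℝ),
    CC k s T = ((PL k).filter (fun w => (s.desc w).c ≤ T)).card := by
  induction k with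
  | zero => intro s T; simp [CC, PL]
  | succ k ih =>
    intro s T
    simp only [CC, PL]
    rw [ih, ih, filter_insert, filter_union]
    have h1 : ((PL k).image (List.cons false)).filter (fun w => (s.desc w).c ≤ T)
        = ((PL k).filter (fun w => (s.L.desc w).c ≤ T)).image (List.cons false) := by
      rw [filter_image]; rfl
    have h2 : ((PL k).image (List.cons true)).filter (fun w => (s.desc w).c ≤ T)
        = ((PL k).filter (fun w => (s.R.desc w).c ≤ T)).image (List.cons true) := by
      rw [filter_image]; rfl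
    rw [h1, h2]
    have hc1 : (((PL k).filter (fun w => (s.L.desc w).c ≤ T)).image (List.cons false)).card
        = ((PL k).filter (fun w => (s.L.desc w).c ≤ T)).card :=
      card_image_of_injective _ (List.cons_injective)
    have hc2 : (((PL k).filter (fun w => (s.R.desc w).c ≤ T)).image (List.cons true)).card
        = ((PL k).filter (fun w => (s.R.desc w).c ≤ T)).card :=
      card_image_of_injective _ (List.cons_injective)
    have hdis : Disjoint (((PL k).filter (fun w => (s.L.desc w).c ≤ T)).image (List.cons false))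
        (((PL k).filter (fun w => (s.R.desc w).c ≤ T)).image (List.cons true)) := by
      rw [Finset.disjoint_left]
      intro w h3 h4
      simp only [mem_image] at h3 h4
      obtain ⟨v, _, rfl⟩ := h3
      obtain ⟨v', _, h5⟩ := h4
      simp at h5
    by_cases h : s.c ≤ T
    · rw [if_pos h, if_pos (show (s.desc []).c ≤ T from h), card_insert_of_notMem,
        card_union_of_disjoint hdis, hc1, hc2]
      · ring
      · simp
    · rw [if_neg h, if_neg (show ¬ (s.desc []).c ≤ T from h), card_union_of_disjoint hdis, hc1, hc2]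
      ring

lemma lam_strictMono {m n : ℕ} (hm : 1 ≤ m) (h : m < n) : lam m < lam n := by
  have hm' : (1 : ℝ) ≤ m := by exact_mod_cast hm
  have h' : (m : ℝ) < n := by exact_mod_cast h
  unfold lam
  have : Real.sqrt (9 * m ^ 2 - 4) ≤ Real.sqrt (9 * n ^ 2 - 4) := by
    apply Real.sqrt_le_sqrt
    nlinarith
  linarith

lemma hh_le_iff {m n : ℕ} (hm : 1 ≤ m) (hn : 1 ≤ n) : hh m ≤ hh n ↔ m ≤ n := by
  constructor
  · intro h
    by_contra hlt
    push Not at hlt
    have := lam_strictMono hn hlt
    have h2 := Real.log_lt_log (lam_pos n hn) this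
    unfold hh at h
    linarith
  · exact hh_mono hm

namespace Node

lemma x_lt_z (s : Node) : s.x < s.z := by
  have h1 := s.big
  have hx := s.hx
  have hy := s.hy
  have : s.x ≤ s.x * s.y := Nat.le_mul_of_pos_right _ hy
  omega

lemma y_lt_z (s : Node) : s.y < s.z := by
  have h1 := s.big
  have hx := s.hx
  have hy := s.hy
  have : s.y ≤ s.x * s.y := Nat.le_mul_of_pos_left _ hx
  omega

lemma x_ne_y (s : Node) : s.x ≠ s.y := by
  intro h
  have he := s.eq
  have hb := s.big
  have hx := s.hx
  rw [← h] at he hb
  -- z (3x² - z) = 2 x²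
  have h1 : s.z * (3 * s.x ^ 2) = s.z ^ 2 + 2 * s.x ^ 2 := by nlinarith
  have h2 : s.z < 3 * s.x ^ 2 := by
    have : s.z * s.z < s.z * (3 * s.x ^ 2) := by
      rw [h1]; nlinarith
    exact lt_of_mul_lt_mul_left this (Nat.zero_le _)
  obtain ⟨k, hk⟩ := Nat.exists_eq_add_of_lt h2
  -- 3x² = z + k + 1
  have h3 : s.z * (k + 1) = 2 * s.x ^ 2 := by
    have : s.z * (s.z + k + 1) = s.z ^ 2 + 2 * s.x ^ 2 := by rw [← hk]; exact h1
    nlinarith
  nlinarith

/-- normalized triple -/
def nrm (s : Node) : ℕ × ℕ × ℕ := (min s.x s.y, max s.x s.y, s.z)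

lemma zL_eq (s : Node) : s.L.z + s.y = 3 * s.x * s.z := by
  have h := s.y_lt_xz
  show 3 * s.x * s.z - s.y + s.y = _
  apply Nat.sub_add_cancel
  nlinarith

lemma zR_eq (s : Node) : s.R.z + s.x = 3 * s.z * s.y := by
  have h := s.x_lt_zy
  show 3 * s.z * s.y - s.x + s.x = _
  apply Nat.sub_add_cancel
  nlinarith

lemma nrm_L (s : Node) : s.L.nrm = (s.x, s.z, s.L.z) := by
  unfold nrm
  have h := s.x_lt_z
  simp only [x_L, y_L]
  rw [min_eq_left h.le, max_eq_right h.le]

lemma nrm_R (s : Node) : s.R.nrm = (s.y, s.z, s.R.z) := by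
  unfold nrm
  have h := s.y_lt_z
  simp only [x_R, y_R]
  rw [min_eq_right h.le, max_eq_left h.le]

end Node

/-- parent of a normalized triple -/
def par (t : ℕ × ℕ × ℕ) : ℕ × ℕ × ℕ :=
  (min t.1 (3 * t.1 * t.2.1 - t.2.2), max t.1 (3 * t.1 * t.2.1 - t.2.2), t.2.1)

lemma par_L (s : Node) : par s.L.nrm = s.nrm := by
  rw [s.nrm_L]
  unfold par Node.nrm
  have h := s.zL_eq
  have : 3 * s.x * s.z - s.L.z = s.y := by omega
  simp only [this]

lemma par_R (s : Node) : par s.R.nrm = s.nrm := by
  rw [s.nrm_R]
  unfold par Node.nrm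
  have h := s.zR_eq
  have h2 : 3 * s.y * s.z = 3 * s.z * s.y := by ring
  have : 3 * s.y * s.z - s.R.z = s.x := by omega
  simp only [this]
  rw [min_comm, max_comm]

lemma nrm_L_ne_R (s : Node) : s.L.nrm ≠ s.R.nrm := by
  rw [s.nrm_L, s.nrm_R]
  intro h
  have := congrArg Prod.fst h
  exact s.x_ne_y this

lemma z_child_gt (s : Node) : s.z < s.L.z ∧ s.z < s.R.z := by
  have h1 := s.zL_eq
  have h2 := s.zR_eq
  have h3 := s.x_lt_z
  have h4 := s.y_lt_z
  have hx := s.hx
  have hy := s.hy
  have e1 : s.z ≤ s.x * s.z := Nat.le_mul_of_pos_left _ hx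
  have e2 : s.z ≤ s.z * s.y := Nat.le_mul_of_pos_right _ hy
  have e3 : 3 * s.x * s.z = 3 * (s.x * s.z) := by ring
  have e4 : 3 * s.z * s.y = 3 * (s.z * s.y) := by ring
  constructor <;> omega

lemma desc_snoc (s : Node) (w : List Bool) (b : Bool) :
    s.desc (w ++ [b]) = if b then (s.desc w).R else (s.desc w).L := by
  rw [Node.desc_append]
  cases b <;> rfl

lemma z_ge_root (w : List Bool) : 5 ≤ (Node.root.desc w).z := (Node.root.desc w).five_le_z

lemma z_snoc_gt (w : List Bool) (b : Bool) : 5 < (Node.root.desc (w ++ [b])).z := by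
  rw [desc_snoc]
  have h := z_child_gt (Node.root.desc w)
  have h2 := z_ge_root w
  cases b
  · simp; omega
  · simp; omega

lemma nrm_injective : Function.Injective (fun w : List Bool => (Node.root.desc w).nrm) := by
  intro w
  induction w using List.reverseRecOn with
  | nil =>
    intro w' h
    simp only at h
    rcases List.eq_nil_or_concat w' with h' | ⟨v, b, h'⟩
    · exact h'.symm
    · exfalso
      rw [List.concat_eq_append] at h'
      subst h'
      have h1 := z_snoc_gt v b
      have h2 : (Node.root.desc []).z = (Node.root.desc (v ++ [b])).z := congrArg (fun t => t.2.2) h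
      rw [← h2] at h1
      simp [Node.root] at h1
  | append_singleton v b ih =>
    intro w' h
    simp only at h
    rcases List.eq_nil_or_concat w' with h' | ⟨v', b', h'⟩
    · exfalso
      subst h'
      have h1 := z_snoc_gt v b
      have h2 : (Node.root.desc (v ++ [b])).z = (Node.root.desc []).z := congrArg (fun t => t.2.2) h
      rw [h2] at h1
      simp [Node.root] at h1
    · rw [List.concat_eq_append] at h'
      subst h'
      have hp : ∀ (u : List Bool) (c : Bool), par (Node.root.desc (u ++ [c])).nrm = (Node.root.desc u).nrm := by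
        intro u c
        rw [desc_snoc]
        cases c
        · simp only [Bool.false_eq_true, if_false]; exact par_L _
        · simp only [if_true]; exact par_R _
      have h1 : (Node.root.desc v).nrm = (Node.root.desc v').nrm := by
        rw [← hp v b, ← hp v' b', h]
      have h2 : v = v' := ih h1
      subst h2
      rw [desc_snoc, desc_snoc] at h
      cases b <;> cases b'
      · rfl
      · exfalso
        simp at h
        exact nrm_L_ne_R _ h
      · exfalso
        simp at h
        exact nrm_L_ne_R _ h.symm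
      · rfl

/-- every large normalized Markov triple satisfies the `big` inequality -/
lemma markov_big (a b c : ℕ) (ha : 1 ≤ a) (hab : a ≤ b) (hbc : b ≤ c) (hb : 2 ≤ b)
    (h : a ^ 2 + b ^ 2 + c ^ 2 = 3 * a * b * c) : 5 * (a * b) ≤ 2 * c := by
  by_contra hlt
  push Not at hlt
  have hA : (1 : ℤ) ≤ (a : ℤ) := by exact_mod_cast ha
  have hab : (a : ℤ) ≤ (b : ℤ) := by exact_mod_cast hab
  have hbc : (b : ℤ) ≤ (c : ℤ) := by exact_mod_cast hbc
  have hb : (2 : ℤ) ≤ (b : ℤ) := by exact_mod_cast hb
  have h : (a : ℤ) ^ 2 + (b : ℤ) ^ 2 + (c : ℤ) ^ 2 = 3 * a * b * c := by exact_mod_cast h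
  have hlt : 2 * (c : ℤ) < 5 * ((a : ℤ) * b) := by exact_mod_cast hlt
  generalize (a : ℤ) = A at *
  generalize (b : ℤ) = B at *
  generalize (c : ℤ) = C at *
  -- (5AB - 2C)(2C - AB) ≤ 0
  have h1 : 4 * (A ^ 2 + B ^ 2) ≤ 5 * (A * B) ^ 2 := by
    rcases eq_or_lt_of_le hA with h1 | h1
    · rw [← h1]; nlinarith
    · have h2 : 2 ≤ A := h1
      have h3 : A ^ 2 ≤ B ^ 2 := by nlinarith
      have h4 : 4 * B ^ 2 ≤ A ^ 2 * B ^ 2 := by nlinarith [sq_nonneg B]
      nlinarith [sq_nonneg (A * B)]
  have h2 : (5 * (A * B) - 2 * C) * (2 * C - A * B) ≤ 0 := by nlinarith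
  have h3 : 2 * C - A * B ≤ 0 := by
    by_contra h4
    push Not at h4
    have := mul_pos (show 0 < 5 * (A * B) - 2 * C by linarith) h4
    linarith
  -- AB ≤ C
  have hC : 0 < C := by linarith
  have h5 : A * B * C ≤ C * C := by nlinarith
  have h6 : A * B ≤ C := le_of_mul_le_mul_right h5 hC
  have h7 : 0 < A * B := by positivity
  linarith

lemma surj (c : ℕ) : ∀ a b : ℕ, 1 ≤ a → a ≤ b → b ≤ c → 2 ≤ b →
    a ^ 2 + b ^ 2 + c ^ 2 = 3 * a * b * c → ∃ w : List Bool, (Node.root.desc w).nrm = (a, b, c) := by
  induction c using Nat.strong_induction_on with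
  | _ c ih =>
    intro a b ha hab hbc hb h
    have hbig := markov_big a b c ha hab hbc hb h
    have hc0 : 0 < c := by omega
    have hb0 : 0 < b := by omega
    have hab1 : 1 ≤ a * b := Nat.mul_pos ha hb0
    have hcb : b < c := by
      have : b ≤ a * b := Nat.le_mul_of_pos_left _ ha
      omega
    -- c' = 3ab - c
    have hle : c ≤ 3 * a * b := by
      by_contra hlt
      push Not at hlt
      have : 3 * a * b * c < c * c := by nlinarith
      nlinarith
    obtain ⟨c', hc'⟩ := Nat.exists_eq_add_of_le hle
    -- 3ab = c + c'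
    have hcc' : c * c' = a ^ 2 + b ^ 2 := by
      have : (c + c') * c = a ^ 2 + b ^ 2 + c ^ 2 := by rw [← hc', h]
      nlinarith
    have hc'1 : 1 ≤ c' := by
      by_contra h0
      have : c' = 0 := by omega
      rw [this] at hcc'
      nlinarith
    have heq' : a ^ 2 + c' ^ 2 + b ^ 2 = 3 * a * c' * b := by
      have : 3 * a * c' * b = (3 * a * b) * c' := by ring
      rw [this, hc', add_mul, hcc']; ring
    have hc'b : c' < b := by
      by_contra hge
      push Not at hge
      -- c c' ≥ c b ≥ 2.5 a b² ≥ 2.5 b² > a²+b²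
      have h1 : c * b ≤ a ^ 2 + b ^ 2 := by rw [← hcc']; exact Nat.mul_le_mul_left _ hge
      have h2 : 5 * (a * b) * b ≤ 2 * c * b := Nat.mul_le_mul_right _ hbig
      have h3 : a ^ 2 ≤ b ^ 2 := Nat.pow_le_pow_left hab 2
      have h4 : b * b ≤ a * b * b := by nlinarith
      nlinarith
    by_cases hmax : 2 ≤ max a c'
    · -- use induction for (min a c', max a c', b)
      have hih := ih b hcb (min a c') (max a c') (by simp; omega) (by simp)
        (by simp; omega) hmax (by
          rcases le_total a c' with h1 | h1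
          · rw [min_eq_left h1, max_eq_right h1]; exact heq'
          · rw [min_eq_right h1, max_eq_left h1]
            have : 3 * c' * a * b = 3 * a * c' * b := by ring
            rw [this]
            have : c' ^ 2 + a ^ 2 + b ^ 2 = a ^ 2 + c' ^ 2 + b ^ 2 := by ring
            rw [this]; exact heq')
      obtain ⟨w, hw⟩ := hih
      set s := Node.root.desc w with hs
      have hz : s.z = b := congrArg (fun t => t.2.2) hw
      have hmin : min s.x s.y = min a c' := congrArg (fun t => t.1) hw
      have hmx : max s.x s.y = max a c' := congrArg (fun t => t.2.1) hw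
      have hxy : (s.x = a ∧ s.y = c') ∨ (s.x = c' ∧ s.y = a) := by
        rcases le_total s.x s.y with h1 | h1 <;> rcases le_total a c' with h2 | h2
        · rw [min_eq_left h1, min_eq_left h2] at hmin
          rw [max_eq_right h1, max_eq_right h2] at hmx
          exact Or.inl ⟨hmin, hmx⟩
        · rw [min_eq_left h1, min_eq_right h2] at hmin
          rw [max_eq_right h1, max_eq_left h2] at hmx
          exact Or.inr ⟨hmin, hmx⟩
        · rw [min_eq_right h1, min_eq_left h2] at hmin
          rw [max_eq_left h1, max_eq_right h2] at hmx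
          exact Or.inr ⟨hmx, hmin⟩
        · rw [min_eq_right h1, min_eq_right h2] at hmin
          rw [max_eq_left h1, max_eq_left h2] at hmx
          exact Or.inl ⟨hmx, hmin⟩
      rcases hxy with ⟨h1, h2⟩ | ⟨h1, h2⟩
      · refine ⟨w ++ [false], ?_⟩
        rw [desc_snoc]
        simp only [Bool.false_eq_true, if_false]
        rw [← hs, s.nrm_L, h1, hz]
        have := s.zL_eq
        rw [h1, h2, hz] at this
        have h3 : s.L.z = c := by omega
        rw [h3]
      · refine ⟨w ++ [true], ?_⟩
        rw [desc_snoc]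
        simp only [if_true]
        rw [← hs, s.nrm_R, h2, hz]
        have := s.zR_eq
        rw [h1, h2, hz] at this
        have h4 : 3 * b * a = 3 * a * b := by ring
        have h3 : s.R.z = c := by omega
        rw [h3]
    · -- a = c' = 1
      push Not at hmax
      have ha1 : a = 1 := by have := le_max_left a c'; omega
      have hc1 : c' = 1 := by have := le_max_right a c'; omega
      subst ha1
      subst hc1
      -- 1 + 1 + b² = 3 b → b = 2
      have hb2 : b = 2 := by
        have : b ≤ 2 := by
          by_contra h3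
          push Not at h3
          nlinarith
        omega
      subst hb2
      refine ⟨[], ?_⟩
      have : c = 5 := by omega
      subst this
      rfl

open Classical in
/-- The set of normalized Markov triples with entries at most `X`. -/
lemma markov_count (X k : ℕ) (hX : 2 ≤ X) (hk : hh X < 0.9 * k) :
    ((Finset.Icc 1 X ×ˢ (Finset.Icc 1 X ×ˢ Finset.Icc 1 X)).filter
          (fun t : ℕ × ℕ × ℕ => t.1 ≤ t.2.1 ∧ t.2.1 ≤ t.2.2 ∧
            t.1 ^ 2 + t.2.1 ^ 2 + t.2.2 ^ 2 = 3 * t.1 * t.2.1 * t.2.2)).card
      = 2 + CC k Node.root (hh X) := by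
  rw [CC_eq_card]
  have hset : (Finset.Icc 1 X ×ˢ (Finset.Icc 1 X ×ˢ Finset.Icc 1 X)).filter
          (fun t : ℕ × ℕ × ℕ => t.1 ≤ t.2.1 ∧ t.2.1 ≤ t.2.2 ∧
            t.1 ^ 2 + t.2.1 ^ 2 + t.2.2 ^ 2 = 3 * t.1 * t.2.1 * t.2.2)
      = ({(1, 1, 1), (1, 1, 2)} : Finset (ℕ × ℕ × ℕ)) ∪
        (((PL k).filter (fun w => (Node.root.desc w).c ≤ hh X)).image
          (fun w => (Node.root.desc w).nrm)) := by
    ext ⟨a, b, c⟩
    simp only [mem_filter, mem_product, mem_Icc, mem_union, mem_insert, mem_singleton, mem_image,
      Prod.mk.injEq]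
    constructor
    · rintro ⟨⟨⟨ha1, ha2⟩, ⟨hb1, hb2⟩, ⟨hc1, hc2⟩⟩, hab, hbc, h⟩
      by_cases hb : 2 ≤ b
      · right
        obtain ⟨w, hw⟩ := surj c a b ha1 hab hbc hb h
        have hz : (Node.root.desc w).z = c := congrArg (fun t => t.2.2) hw
        have hcX : (Node.root.desc w).c ≤ hh X := by
          unfold Node.c
          rw [hz]
          exact hh_mono hc1 hc2
        refine ⟨w, ⟨?_, hcX⟩, hw⟩
        rw [mem_PL]
        -- length bound
        have h1 := Node.ab_desc w Node.root
        have h2 := (Node.root.desc w).e_le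
        have h3 := (Node.root.desc w).c_eq
        have h4 := Node.root.ab_ge
        have h5 : (0.9 : ℝ) * w.length < 0.9 * k := by
          linarith
        have h6 : (w.length : ℝ) < k := by
          by_contra hge
          push Not at hge
          norm_num at h5
          linarith
        exact_mod_cast h6
      · left
        have hb' : b = 1 := by omega
        have ha' : a = 1 := by omega
        subst hb' ha'
        have : c ≤ 2 := by
          by_contra h3
          push Not at h3
          nlinarith
        interval_cases c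
        · left; simp
        · right; simp
    · rintro ((⟨rfl, rfl, rfl⟩ | ⟨rfl, rfl, rfl⟩) | ⟨w, ⟨_, hw⟩, h⟩)
      · norm_num; omega
      · norm_num; omega
      · set s := Node.root.desc w with hs
        have hz : s.z = c := congrArg (fun t => t.2.2) h
        have ha : min s.x s.y = a := congrArg (fun t => t.1) h
        have hb : max s.x s.y = b := congrArg (fun t => t.2.1) h
        have hzX : s.z ≤ X := by
          unfold Node.c at hw
          exact (hh_le_iff s.hz (by omega)).1 hw
        have hx := s.hx
        have hy := s.hy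
        have h1 := s.x_lt_z
        have h2 := s.y_lt_z
        have hmm : min s.x s.y ≤ max s.x s.y := min_le_max
        have hmz : max s.x s.y < s.z := max_lt h1 h2
        have hm1 : 1 ≤ min s.x s.y := le_min hx hy
        refine ⟨⟨⟨by omega, by omega⟩, ⟨by omega, by omega⟩, ⟨by omega, by omega⟩⟩, by omega, by omega, ?_⟩
        rw [← ha, ← hb, ← hz]
        have he := s.eq
        rcases le_total s.x s.y with h3 | h3
        · rw [min_eq_left h3, max_eq_right h3]; exact he
        · rw [min_eq_right h3, max_eq_left h3]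
          have : 3 * s.y * s.x * s.z = 3 * s.x * s.y * s.z := by ring
          rw [this, ← he]; ring
  rw [hset, card_union_of_disjoint, card_image_of_injective _ nrm_injective]
  · rfl
  · rw [Finset.disjoint_left]
    intro t h1 h2
    simp only [mem_image] at h2
    obtain ⟨w, _, hw⟩ := h2
    have h3 := z_ge_root w
    have hz : (Node.root.desc w).z = t.2.2 := congrArg (fun t => t.2.2) hw
    simp only [mem_insert, mem_singleton] at h1
    rcases h1 with rfl | rfl
    · simp at hz; omega
    · simp at hz; omega

end Pool.Agent.Hhelper88
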