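import Pool.Agent.Hhelper88.MkEps

set_option autoImplicit false

/-! Descents in the tree, the linear functional `g`, variation bound, pull-up. -/

namespace Pool.Agent.Hhelper88

namespace Node

@[simp] lemma a_L (s : Node) : s.L.a = s.a := rfl
@[simp] lemma b_L (s : Node) : s.L.b = s.c := rfl
@[simp] lemma a_R (s : Node) : s.R.a = s.c := rfl
@[simp] lemma b_R (s : Node) : s.R.b = s.b := rfl
@[simp] lemma x_L (s : Node) : s.L.x = s.x := rfl
@[simp] lemma y_L (s : Node) : s.L.y = s.z := rfl
@[simp] lemma x_R (s : Node) : s.R.x = s.z := rfl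
@[simp] lemma y_R (s : Node) : s.R.y = s.y := rfl
@[simp] lemma a_mir (s : Node) : s.mir.a = s.b := rfl
@[simp] lemma b_mir (s : Node) : s.mir.b = s.a := rfl
@[simp] lemma c_mir (s : Node) : s.mir.c = s.c := rfl
lemma e_mir (s : Node) : s.mir.e = s.e := by unfold e; simp; ring

lemma c_eq (s : Node) : s.c = s.a + s.b - s.e := by unfold e; ring

lemma a_pos (s : Node) : 0 < s.a := by have := s.a_ge; linarith
lemma b_pos (s : Node) : 0 < s.b := by have := s.b_ge; linarith
lemma c_pos (s : Node) : 0 < s.c := by have := s.c_ge; linarith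

lemma c_ge_b (s : Node) : s.b + 0.93 ≤ s.c := by
  have h1 := s.a_ge; have h2 := s.e_le; rw [s.c_eq]
  norm_num at h1 h2 ⊢; linarith

lemma c_ge_a (s : Node) : s.a + 0.93 ≤ s.c := by
  have h1 := s.b_ge; have h2 := s.e_le; rw [s.c_eq]
  norm_num at h1 h2 ⊢; linarith

lemma c_le (s : Node) : s.c ≤ s.a + s.b := by
  have := s.e_pos; rw [s.c_eq]; linarith

lemma e_L_aux (s : Node) (k : ℝ) (hk : 1.3661 * k ≤ lam s.x ^ 2) (hk0 : 0 < k) :
    k * s.L.e ≤ s.e := by
  have h1 := s.L.e_upper
  have h2 := s.e_lower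
  have h3 := s.lamz_ge'
  have hLp := s.Lm_pos
  have hxp := lam_pos s.x s.hx
  have hzp := lam_pos s.z s.hz
  have h4 : s.L.Lm = lam s.x * lam s.z := rfl
  have h5 : (0.978 * s.Lm) ^ 2 ≤ lam s.z ^ 2 := pow_le_pow_left₀ (by positivity) h3 2
  have h6 : k * s.L.e ≤ k * (5.2 / s.L.Lm ^ 2) := mul_le_mul_of_nonneg_left h1 hk0.le
  refine h6.trans (le_trans ?_ h2)
  rw [h4, mul_div_assoc', div_le_div_iff₀ (by positivity) (by positivity), mul_pow]
  have h7 : (k * 5.2) * s.Lm ^ 2 ≤ 3.98 * ((1.3661 * k) * (0.978 * s.Lm) ^ 2) := by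
    have : 3.98 * ((1.3661 * k) * (0.978 * s.Lm) ^ 2) - (k * 5.2) * s.Lm ^ 2
      = (3.98 * 1.3661 * 0.978 ^ 2 - 5.2) * (k * s.Lm ^ 2) := by ring
    have h8 : 0 ≤ (3.98 * 1.3661 * 0.978 ^ 2 - 5.2) * (k * s.Lm ^ 2) := by
      apply mul_nonneg (by norm_num) (by positivity)
    linarith
  refine h7.trans ?_
  apply mul_le_mul_of_nonneg_left _ (by norm_num)
  exact mul_le_mul hk h5 (by positivity) (by positivity)

lemma e_L_le (s : Node) : 5 * s.L.e ≤ s.e := by
  apply s.e_L_aux 5 _ (by norm_num)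
  have h := lam_one.trans (lam_mono le_rfl s.hx)
  norm_num at h ⊢
  nlinarith

lemma e_L_le' (s : Node) (hx : 2 ≤ s.x) : 24 * s.L.e ≤ s.e := by
  apply s.e_L_aux 24 _ (by norm_num)
  have h := lam_two.trans (lam_mono (by norm_num) hx)
  norm_num at h ⊢
  nlinarith

lemma mir_R (s : Node) : s.R = s.mir.L.mir := by
  apply ext' <;> simp [L, R, mir]
  have : 3 * s.z * s.y = 3 * s.y * s.z := by ring
  rw [this]

lemma e_R_le (s : Node) : 5 * s.R.e ≤ s.e := by
  rw [s.mir_R, e_mir, ← s.e_mir]; exact s.mir.e_L_le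

lemma e_R_le' (s : Node) (hy : 2 ≤ s.y) : 24 * s.R.e ≤ s.e := by
  rw [s.mir_R, e_mir, ← s.e_mir]; exact s.mir.e_L_le' hy

lemma e_sum_le (s : Node) : s.L.e + s.R.e ≤ 29 / 120 * s.e := by
  have h1 := s.e_L_le
  have h2 := s.e_R_le
  have h := s.xy_ge_two
  rcases Nat.lt_or_ge s.x 2 with hx2 | hx2
  · have hx1 : s.x = 1 := by have := s.hx; omega
    rw [hx1] at h
    have := s.e_R_le' (by omega)
    linarith
  · have := s.e_L_le' hx2
    linarith

/-- descend along a word: `false` is the left child, `true` the right child. -/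
def desc : Node → List Bool → Node
  | s, [] => s
  | s, false :: w => desc s.L w
  | s, true :: w => desc s.R w

@[simp] lemma desc_nil (s : Node) : s.desc [] = s := rfl
@[simp] lemma desc_false (s : Node) (w : List Bool) : s.desc (false :: w) = s.L.desc w := rfl
@[simp] lemma desc_true (s : Node) (w : List Bool) : s.desc (true :: w) = s.R.desc w := rfl

lemma desc_append (s : Node) (v w : List Bool) : s.desc (v ++ w) = (s.desc v).desc w := by
  induction v generalizing s with
  | nil => rfl
  | cons b v ih => cases b <;> simp [ih]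

/-- The value of the functional with `u ↦ a`, `v ↦ b` at `q u - p v`. -/
noncomputable def g (s : Node) (z : ℤ × ℤ) : ℝ := z.1 * s.a - z.2 * s.b

end Node

/-- transformation of coordinates when descending -/
def push : ℤ × ℤ → List Bool → ℤ × ℤ
  | z, [] => z
  | z, false :: w => push (z.1 + z.2, z.2) w
  | z, true :: w => push (z.1, z.1 + z.2) w

@[simp] lemma push_nil (z : ℤ × ℤ) : push z [] = z := rfl
@[simp] lemma push_false (z : ℤ × ℤ) (w : List Bool) :
    push z (false :: w) = push (z.1 + z.2, z.2) w := rfl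
@[simp] lemma push_true (z : ℤ × ℤ) (w : List Bool) :
    push z (true :: w) = push (z.1, z.1 + z.2) w := rfl

lemma push_append (z : ℤ × ℤ) (v w : List Bool) : push z (v ++ w) = push (push z v) w := by
  induction v generalizing z with
  | nil => rfl
  | cons b v ih => cases b <;> simp [ih]

lemma push_pos (w : List Bool) : ∀ z : ℤ × ℤ, 1 ≤ z.1 → 1 ≤ z.2 →
    1 ≤ (push z w).1 ∧ 1 ≤ (push z w).2 := by
  induction w with
  | nil => intro z h1 h2; exact ⟨h1, h2⟩
  | cons b w ih =>
    intro z h1 h2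
    cases b
    · exact ih _ (by simp; omega) (by simpa using h2)
    · exact ih _ (by simpa using h1) (by simp; omega)

lemma coprime_of_push (w : List Bool) : ∀ z : ℤ × ℤ, IsCoprime (push z w).1 (push z w).2 →
    IsCoprime z.1 z.2 := by
  induction w with
  | nil => intro z h; exact h
  | cons b w ih =>
    intro z h
    cases b
    · have := ih _ h
      simp only at this
      exact IsCoprime.of_add_mul_right_left (z := 1) (by simpa using this)
    · have := ih _ h
      simp only at this
      exact IsCoprime.of_add_mul_left_right (z := 1) (by rw [mul_one]; rwa [add_comm] at this)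

lemma push_inj (w : List Bool) : ∀ z z' : ℤ × ℤ, push z w = push z' w → z = z' := by
  induction w with
  | nil => intro z z' h; exact h
  | cons b w ih =>
    intro z z' h
    cases b
    · have := ih _ _ h
      simp only [Prod.mk.injEq] at this
      ext <;> omega
    · have := ih _ _ h
      simp only [Prod.mk.injEq] at this
      ext <;> omega

namespace Node

lemma g_L (s : Node) (z : ℤ × ℤ) : s.L.g (z.1 + z.2, z.2) = s.g z + z.2 * s.e := by
  unfold g; simp; rw [s.c_eq]; ring

lemma g_R (s : Node) (z : ℤ × ℤ) : s.R.g (z.1, z.1 + z.2) = s.g z - z.1 * s.e := by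
  unfold g; simp; rw [s.c_eq]; ring

/-- total variation bound -/
lemma var_bound (w : List Bool) : ∀ (s : Node) (z : ℤ × ℤ), 0 ≤ z.1 → 0 ≤ z.2 →
    |(s.desc w).g (push z w) - s.g z| ≤ 5 / 3 * s.e * (z.1 + z.2) := by
  induction w with
  | nil =>
    intro s z h1 h2
    have h1' : (0 : ℝ) ≤ z.1 := by exact_mod_cast h1
    have h2' : (0 : ℝ) ≤ z.2 := by exact_mod_cast h2
    have := s.e_pos
    simp
    positivity
  | cons b w ih =>
    intro s z h1 h2
    have h1' : (0 : ℝ) ≤ z.1 := by exact_mod_cast h1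
    have h2' : (0 : ℝ) ≤ z.2 := by exact_mod_cast h2
    have he := s.e_pos
    cases b
    · have h3 := ih s.L (z.1 + z.2, z.2) (by simp; omega) (by simpa using h2)
      have h4 := s.g_L z
      have h5 := s.e_L_le
      have h6 := s.L.e_pos
      simp only [desc_false, push_false]
      have h7 : (s.L.desc w).g (push (z.1 + z.2, z.2) w) - s.g z
        = ((s.L.desc w).g (push (z.1 + z.2, z.2) w) - s.L.g (z.1 + z.2, z.2)) + z.2 * s.e := by
        rw [h4]; ring
      rw [h7]
      refine (abs_add_le _ _).trans ?_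
      rw [abs_of_nonneg (mul_nonneg h2' he.le)]
      simp only [Int.cast_add] at h3
      have h8 : 5 / 3 * s.L.e * ((z.1 : ℝ) + z.2 + z.2) ≤ 5 / 3 * (s.e / 5) * ((z.1 : ℝ) + z.2 + z.2) := by
        apply mul_le_mul_of_nonneg_right _ (by linarith)
        linarith
      have h9 : 5 / 3 * (s.e / 5) * ((z.1 : ℝ) + z.2 + z.2) + z.2 * s.e
        = 5 / 3 * s.e * (z.1 + z.2) - 4 / 3 * s.e * z.1 := by ring
      have h10 : 0 ≤ 4 / 3 * s.e * z.1 := by positivity
      linarith
    · have h3 := ih s.R (z.1, z.1 + z.2) (by simpa using h1) (by simp; omega)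
      have h4 := s.g_R z
      have h5 := s.e_R_le
      have h6 := s.R.e_pos
      simp only [desc_true, push_true]
      have h7 : (s.R.desc w).g (push (z.1, z.1 + z.2) w) - s.g z
        = ((s.R.desc w).g (push (z.1, z.1 + z.2) w) - s.R.g (z.1, z.1 + z.2)) - z.1 * s.e := by
        rw [h4]; ring
      rw [h7]
      refine (abs_sub _ _).trans ?_
      rw [abs_of_nonneg (mul_nonneg h1' he.le)]
      simp only [Int.cast_add] at h3
      have h8 : 5 / 3 * s.R.e * ((z.1 : ℝ) + (z.1 + z.2)) ≤ 5 / 3 * (s.e / 5) * ((z.1 : ℝ) + (z.1 + z.2)) := by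
        apply mul_le_mul_of_nonneg_right _ (by linarith)
        linarith
      have h9 : 5 / 3 * (s.e / 5) * ((z.1 : ℝ) + (z.1 + z.2)) + z.1 * s.e
        = 5 / 3 * s.e * (z.1 + z.2) - 4 / 3 * s.e * z.2 := by ring
      have h10 : 0 ≤ 4 / 3 * s.e * z.2 := by positivity
      linarith

/-- pull-up of a resonance. -/
lemma pull_up (w : List Bool) : ∀ (s : Node) (zt : ℤ × ℤ), 1 ≤ zt.1 → 1 ≤ zt.2 →
    |(s.desc w).g zt| ≤ 1 / 2 → ∃ z : ℤ × ℤ, 1 ≤ z.1 ∧ 1 ≤ z.2 ∧ push z w = zt := by
  induction w with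
  | nil => intro s zt h1 h2 _; exact ⟨zt, h1, h2, rfl⟩
  | cons b w ih =>
    intro s zt h1 h2 hg
    cases b
    · obtain ⟨z, hz1, hz2, hzt⟩ := ih s.L zt h1 h2 hg
      have hz1' : (1 : ℝ) ≤ z.1 := by exact_mod_cast hz1
      have hz2' : (1 : ℝ) ≤ z.2 := by exact_mod_cast hz2
      have hv := var_bound w s.L z (by omega) (by omega)
      rw [hzt] at hv
      simp only [desc_false] at hg
      have hlt : z.2 < z.1 := by
        by_contra hle
        push Not at hle
        have hle' : (z.1 : ℝ) ≤ z.2 := by exact_mod_cast hle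
        have h5 := s.e_L_le
        have h6 := s.L.e_pos
        have h7 := s.e_le
        -- |g_L| ≤ 1/2 + 5/3 * e_L * 2 z2
        have h8 : |s.L.g z| ≤ 1 / 2 + 5 / 3 * s.L.e * (z.1 + z.2) := by
          have : s.L.g z = (s.L.desc w).g zt - ((s.L.desc w).g zt - s.L.g z) := by ring
          rw [this]
          refine (abs_sub _ _).trans ?_
          linarith
        have h9 : s.L.g z = z.1 * s.a - z.2 * s.c := by unfold g; simp
        have h10 := s.c_ge_a
        have h11 : s.L.g z ≤ -(0.93 * z.2) := by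
          rw [h9]
          have ha := s.a_pos
          have : z.1 * s.a ≤ z.2 * s.a := mul_le_mul_of_nonneg_right hle' ha.le
          have h12 : (z.2 : ℝ) * (s.a + 0.93) ≤ z.2 * s.c := mul_le_mul_of_nonneg_left h10 (by linarith)
          linarith
        have h13 : 0.93 * (z.2 : ℝ) ≤ |s.L.g z| := by
          have := neg_abs_le (s.L.g z)
          linarith
        have h14 : 5 / 3 * s.L.e * ((z.1 : ℝ) + z.2) ≤ 5 / 3 * (0.0045) * (2 * z.2) := by
          apply mul_le_mul _ (by linarith) (by linarith) (by norm_num)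
          norm_num at h7 ⊢
          linarith
        norm_num at h13 h14 h8
        linarith
      refine ⟨(z.1 - z.2, z.2), by simp; omega, by simpa using hz2, ?_⟩
      simp [hzt]
    · obtain ⟨z, hz1, hz2, hzt⟩ := ih s.R zt h1 h2 hg
      have hz1' : (1 : ℝ) ≤ z.1 := by exact_mod_cast hz1
      have hz2' : (1 : ℝ) ≤ z.2 := by exact_mod_cast hz2
      have hv := var_bound w s.R z (by omega) (by omega)
      rw [hzt] at hv
      simp only [desc_true] at hg
      have hlt : z.1 < z.2 := by
        by_contra hle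
        push Not at hle
        have hle' : (z.2 : ℝ) ≤ z.1 := by exact_mod_cast hle
        have h5 := s.e_R_le
        have h6 := s.R.e_pos
        have h7 := s.e_le
        have h8 : |s.R.g z| ≤ 1 / 2 + 5 / 3 * s.R.e * (z.1 + z.2) := by
          have : s.R.g z = (s.R.desc w).g zt - ((s.R.desc w).g zt - s.R.g z) := by ring
          rw [this]
          refine (abs_sub _ _).trans ?_
          linarith
        have h9 : s.R.g z = z.1 * s.c - z.2 * s.b := by unfold g; simp
        have h10 := s.c_ge_b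
        have h11 : 0.93 * z.1 ≤ s.R.g z := by
          rw [h9]
          have hb := s.b_pos
          have : z.2 * s.b ≤ z.1 * s.b := mul_le_mul_of_nonneg_right hle' hb.le
          have h12 : (z.1 : ℝ) * (s.b + 0.93) ≤ z.1 * s.c := mul_le_mul_of_nonneg_left h10 (by linarith)
          linarith
        have h13 : 0.93 * (z.1 : ℝ) ≤ |s.R.g z| := h11.trans (le_abs_self _)
        have h14 : 5 / 3 * s.R.e * ((z.1 : ℝ) + z.2) ≤ 5 / 3 * (0.0045) * (2 * z.1) := by
          apply mul_le_mul _ (by linarith) (by linarith) (by norm_num)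
          norm_num at h7 ⊢
          linarith
        norm_num at h13 h14 h8
        linarith
      refine ⟨(z.1, z.2 - z.1), by simpa using hz1, by simp; omega, ?_⟩
      simp [hzt]

/-- propagation of size lower bounds -/
lemma size_desc (w : List Bool) : ∀ (s : Node) (z : ℤ × ℤ) (c0 : ℝ), 0 ≤ c0 →
    c0 * s.a ≤ z.2 → c0 * s.b ≤ z.1 →
    c0 * (s.desc w).a ≤ (push z w).2 ∧ c0 * (s.desc w).b ≤ (push z w).1 := by
  induction w with
  | nil => intro s z c0 _ h1 h2; exact ⟨h1, h2⟩
  | cons b w ih =>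
    intro s z c0 hc h1 h2
    have hle : c0 * s.c ≤ c0 * (s.a + s.b) := mul_le_mul_of_nonneg_left s.c_le hc
    cases b
    · apply ih s.L (z.1 + z.2, z.2) c0 hc
      · simpa using h1
      · simp; linarith
    · apply ih s.R (z.1, z.1 + z.2) c0 hc
      · simp; linarith
      · simpa using h2

lemma hh_two_le : hh 2 ≤ 2 := by
  unfold hh
  have h2 : lam 2 ≤ 6 := by
    unfold lam
    have : Real.sqrt (9 * ((2 : ℕ) : ℝ) ^ 2 - 4) ≤ 6 := by
      rw [Real.sqrt_le_left (by norm_num)]
      norm_num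
    calc (3 * ((2 : ℕ) : ℝ) + Real.sqrt (9 * ((2 : ℕ) : ℝ) ^ 2 - 4)) / 2
        ≤ (3 * ((2 : ℕ) : ℝ) + 6) / 2 := by gcongr
      _ = 6 := by norm_num
  rw [Real.log_le_iff_le_exp (lam_pos 2 (by norm_num))]
  have h3 := Real.exp_one_gt_d9
  have h4 : Real.exp 2 = Real.exp 1 * Real.exp 1 := by rw [← Real.exp_add]; norm_num
  rw [h4]
  nlinarith

lemma root_a_le : root.a ≤ 2 := (hh_mono le_rfl (by norm_num : 1 ≤ 2)).trans hh_two_le

lemma root_b_le : root.b ≤ 2 := hh_two_le

end Node

end Pool.Agent.Hhelper88
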