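import Pool.Agent.Hhelper88.MkNode

set_option autoImplicit false

/-! Two-sided bounds for `ε = h(x)+h(y)-h(z)`. -/

namespace Pool.Agent.Hhelper88

lemma hh_ge (n : ℕ) (hn : 1 ≤ n) : (0.96 : ℝ) ≤ hh n := by
  unfold hh
  rw [Real.le_log_iff_exp_le (lam_pos n hn)]
  have h1 : Real.exp 1 < 2.7182818286 := Real.exp_one_lt_d9
  have h2 : (1.04 : ℝ) ≤ Real.exp 0.04 := by
    have := Real.add_one_le_exp (0.04 : ℝ)
    linarith
  have h3 : Real.exp 0.96 * Real.exp 0.04 = Real.exp 1 := by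
    rw [← Real.exp_add]; norm_num
  have h4 : Real.exp 0.96 ≤ 2.618 := by
    have h5 := Real.exp_pos (0.96 : ℝ)
    nlinarith
  exact h4.trans (lam_one.trans (lam_mono le_rfl hn))

lemma exp_27 : Real.exp 2.7 ≤ 15.2 := by
  have h1 : Real.exp 1 < 2.7182818286 := Real.exp_one_lt_d9
  have h0 := Real.exp_pos (1 : ℝ)
  have h3 : Real.exp 2.7 * Real.exp 0.3 = Real.exp 1 ^ 3 := by
    rw [← Real.exp_add, ← Real.exp_nat_mul]; norm_num
  have h2 : (1.345 : ℝ) ≤ Real.exp 0.3 := by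
    have := Real.quadratic_le_exp_of_nonneg (show (0 : ℝ) ≤ 0.3 by norm_num)
    linarith
  have h5 : Real.exp 1 ^ 3 ≤ 20.09 := by
    refine (pow_le_pow_left₀ h0.le h1.le 3).trans ?_
    norm_num
  have h6 := Real.exp_pos (2.7 : ℝ)
  by_contra hneg
  push Not at hneg
  have h7 : (15.2 : ℝ) * 1.345 ≤ Real.exp 2.7 * Real.exp 0.3 :=
    mul_le_mul hneg.le h2 (by norm_num) h6.le
  rw [h3] at h7
  have h8 : (20.09 : ℝ) < 15.2 * 1.345 := by norm_num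
  linarith

namespace Node

/-- `α = h(x)` -/
noncomputable def a (s : Node) : ℝ := hh s.x
/-- `β = h(y)` -/
noncomputable def b (s : Node) : ℝ := hh s.y
/-- `γ = h(z)` -/
noncomputable def c (s : Node) : ℝ := hh s.z
/-- `ε = α + β - γ` -/
noncomputable def e (s : Node) : ℝ := s.a + s.b - s.c
/-- `Λ = λ_x λ_y` -/
noncomputable def Lm (s : Node) : ℝ := lam s.x * lam s.y

lemma a_ge (s : Node) : (0.96 : ℝ) ≤ s.a := hh_ge _ s.hx
lemma b_ge (s : Node) : (0.96 : ℝ) ≤ s.b := hh_ge _ s.hy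
lemma c_ge (s : Node) : (0.96 : ℝ) ≤ s.c := hh_ge _ s.hz

lemma Lm_ge (s : Node) : (15.257 : ℝ) ≤ s.Lm := by
  unfold Lm
  have h := s.xy_ge_two
  have hx := s.hx
  have hy := s.hy
  have h1 := lam_one
  have h2 := lam_two
  have hmx := lam_mono (le_refl 1) hx
  have hmy := lam_mono (le_refl 1) hy
  rcases Nat.lt_or_ge s.x 2 with hx2 | hx2
  · have hx1 : s.x = 1 := by omega
    rw [hx1] at h
    have hy2 : 2 ≤ s.y := by omega
    have := lam_mono (by norm_num) hy2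
    nlinarith
  · have := lam_mono (by norm_num) hx2
    nlinarith

lemma Lm_pos (s : Node) : 0 < s.Lm := by have := s.Lm_ge; linarith

lemma exp_ab (s : Node) : Real.exp (s.a + s.b) = s.Lm := by
  rw [Real.exp_add]
  unfold a b Lm
  rw [exp_hh _ s.hx, exp_hh _ s.hy]

lemma ab_ge (s : Node) : (2.7 : ℝ) ≤ s.a + s.b := by
  have h := s.exp_ab
  have h1 := s.Lm_ge
  have h2 := exp_27
  rw [← Real.exp_le_exp, h]
  linarith

/-- `(Z₀ - Z)(Z₀ - Z') = 4`. -/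
lemma quad (s : Node) :
    (s.Lm + s.Lm⁻¹ - 3 * s.z) * (s.Lm + s.Lm⁻¹ - (9 * s.x * s.y - 3 * s.z)) = 4 := by
  have hx := lam_add_inv s.x s.hx
  have hy := lam_add_inv s.y s.hy
  have px := lam_pos s.x s.hx
  have py := lam_pos s.y s.hy
  have he : (s.x : ℝ) ^ 2 + (s.y : ℝ) ^ 2 + (s.z : ℝ) ^ 2 = 3 * s.x * s.y * s.z := by
    exact_mod_cast s.eq
  set X : ℝ := lam s.x
  set Y : ℝ := lam s.y
  have hL : s.Lm = X * Y := rfl
  have e1 : (s.Lm + s.Lm⁻¹ - 3 * s.z) * (s.Lm + s.Lm⁻¹ - (9 * s.x * s.y - 3 * s.z))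
      = (s.Lm + s.Lm⁻¹) ^ 2 - (3 * s.x) * (3 * s.y) * (s.Lm + s.Lm⁻¹)
        + 9 * (3 * s.x * s.y * s.z - (s.z : ℝ) ^ 2) := by ring
  have e2 : 9 * (3 * s.x * s.y * s.z - (s.z : ℝ) ^ 2) = (3 * (s.x : ℝ)) ^ 2 + (3 * (s.y : ℝ)) ^ 2 := by
    linarith
  rw [e1, e2, ← hx, ← hy, hL]
  field_simp
  ring

lemma Zp_bounds (s : Node) : (0 : ℝ) ≤ 9 * s.x * s.y - 3 * s.z ∧
    (9 * s.x * s.y - 3 * s.z : ℝ) ≤ (3 * s.z) / 5 := by
  have hb : (5 : ℝ) * (s.x * s.y) ≤ 2 * s.z := by exact_mod_cast s.big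
  have he : (s.x : ℝ) ^ 2 + (s.y : ℝ) ^ 2 + (s.z : ℝ) ^ 2 = 3 * s.x * s.y * s.z := by
    exact_mod_cast s.eq
  have hz : (0 : ℝ) < s.z := by exact_mod_cast s.hz
  constructor
  · by_contra hneg
    push Not at hneg
    have : (s.z : ℝ) * (9 * s.x * s.y - 3 * s.z) < 0 := mul_neg_of_pos_of_neg hz hneg
    nlinarith [sq_nonneg (s.x : ℝ), sq_nonneg (s.y : ℝ)]
  · linarith

lemma Z0_gt (s : Node) : (3 * s.z : ℝ) < s.Lm + s.Lm⁻¹ ∧
    4 ≤ (s.Lm + s.Lm⁻¹ - 3 * s.z) * (s.Lm + s.Lm⁻¹) ∧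
    (s.Lm + s.Lm⁻¹ - 3 * s.z) * (s.Lm + s.Lm⁻¹) ≤ 5 := by
  have hq := s.quad
  obtain ⟨h0, h1⟩ := s.Zp_bounds
  have hb : (5 : ℝ) * (s.x * s.y) ≤ 2 * s.z := by exact_mod_cast s.big
  have hLp := s.Lm_pos
  have hinv : 0 < s.Lm⁻¹ := inv_pos.2 hLp
  have hx' : (1 : ℝ) ≤ s.x := by exact_mod_cast s.hx
  have hy' : (1 : ℝ) ≤ s.y := by exact_mod_cast s.hy
  have hgt : (9 / 4 : ℝ) * (s.x * s.y) < s.Lm := by
    have g1 := lam_gt s.x s.hx
    have g2 := lam_gt s.y s.hy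
    unfold Lm
    calc (9 / 4 : ℝ) * (s.x * s.y) = (3 / 2 * s.x) * (3 / 2 * s.y) := by ring
      _ < lam s.x * lam s.y := by
        apply mul_lt_mul'' g1 g2 (by positivity) (by positivity)
  have hxy : (1 : ℝ) ≤ s.x * s.y := by nlinarith
  set Z0 := s.Lm + s.Lm⁻¹
  have hpos2 : 0 < Z0 - (9 * s.x * s.y - 3 * s.z) := by
    have : Z0 = s.Lm + s.Lm⁻¹ := rfl
    nlinarith
  have hpos1 : 0 < Z0 - 3 * s.z := by
    by_contra hneg
    push Not at hneg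
    have := mul_nonpos_of_nonpos_of_nonneg hneg hpos2.le
    linarith
  refine ⟨by linarith, ?_, ?_⟩
  · nlinarith
  · nlinarith

lemma lamz_add_inv (s : Node) : lam s.z + (lam s.z)⁻¹ = 3 * s.z := lam_add_inv _ s.hz

lemma lamz_ge (s : Node) : (14.93 : ℝ) ≤ lam s.z := lam_five.trans (lam_mono (by norm_num) s.five_le_z)

/-- `u = Λ - λ_z` satisfies `3.999.../Λ ≤ ... ≤ u ≤ 5.03/Λ`. -/
lemma u_bounds (s : Node) : 4 * s.Lm ≤ (s.Lm - lam s.z) * (s.Lm ^ 2 + 1) ∧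
    (s.Lm - lam s.z) * s.Lm ≤ 5.03 := by
  obtain ⟨h1, h2, h3⟩ := s.Z0_gt
  have hL := s.Lm_ge
  have hLp := s.Lm_pos
  have hz := s.lamz_ge
  have hzp : 0 < lam s.z := by linarith
  have hfac : s.Lm + s.Lm⁻¹ - 3 * s.z = (s.Lm - lam s.z) * (1 - (s.Lm * lam s.z)⁻¹) := by
    rw [← s.lamz_add_inv]
    field_simp
    ring
  have hP : (227 : ℝ) ≤ s.Lm * lam s.z := by nlinarith
  have hPi : (s.Lm * lam s.z)⁻¹ ≤ 1 / 227 := by
    rw [inv_eq_one_div]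
    exact one_div_le_one_div_of_le (by norm_num) hP
  have hPi0 : 0 < (s.Lm * lam s.z)⁻¹ := by positivity
  have hinv : 0 < s.Lm⁻¹ := inv_pos.2 hLp
  have hu : 0 < s.Lm - lam s.z := by
    by_contra hneg
    push Not at hneg
    have : (s.Lm - lam s.z) * (1 - (s.Lm * lam s.z)⁻¹) ≤ 0 :=
      mul_nonpos_of_nonpos_of_nonneg hneg (by linarith)
    linarith
  set u := s.Lm - lam s.z
  set v := (s.Lm * lam s.z)⁻¹
  rw [hfac] at h2 h3
  constructor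
  · have e1 : (s.Lm + s.Lm⁻¹) * s.Lm = s.Lm ^ 2 + 1 := by field_simp
    have : 4 * s.Lm ≤ u * (1 - v) * (s.Lm + s.Lm⁻¹) * s.Lm := mul_le_mul_of_nonneg_right h2 hLp.le
    have h5 : u * (1 - v) * (s.Lm + s.Lm⁻¹) * s.Lm = u * (1 - v) * (s.Lm ^ 2 + 1) := by
      rw [mul_assoc (u * (1 - v)), e1]
    rw [h5] at this
    have h6 : u * (1 - v) * (s.Lm ^ 2 + 1) ≤ u * (s.Lm ^ 2 + 1) := by
      apply mul_le_mul_of_nonneg_right _ (by positivity)
      nlinarith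
    linarith
  · have h7 : u * (1 - v) * s.Lm ≤ 5 := by
      have : u * (1 - v) * s.Lm ≤ u * (1 - v) * (s.Lm + s.Lm⁻¹) := by
        apply mul_le_mul_of_nonneg_left _ (mul_nonneg hu.le (by linarith))
        linarith
      linarith
    have h8 : u * s.Lm * (226 / 227) ≤ u * (1 - v) * s.Lm := by
      have : u * s.Lm * (226 / 227) ≤ u * s.Lm * (1 - v) :=
        mul_le_mul_of_nonneg_left (by linarith) (by positivity)
      linarith [show u * s.Lm * (1 - v) = u * (1 - v) * s.Lm by ring]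
    norm_num at h8 ⊢
    linarith

lemma exp_neg_e (s : Node) : Real.exp (-s.e) = lam s.z / s.Lm := by
  have h1 := s.exp_ab
  have h2 : Real.exp s.c = lam s.z := exp_hh _ s.hz
  have h3 : -s.e = s.c - (s.a + s.b) := by unfold e; ring
  rw [h3, Real.exp_sub, h1, h2]

lemma exp_e (s : Node) : Real.exp (s.e) = s.Lm / lam s.z := by
  have h1 := s.exp_ab
  have h2 : Real.exp s.c = lam s.z := exp_hh _ s.hz
  have h3 : s.e = (s.a + s.b) - s.c := by unfold e; ring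
  rw [h3, Real.exp_sub, h1, h2]

lemma e_lower (s : Node) : 3.98 / s.Lm ^ 2 ≤ s.e := by
  obtain ⟨h1, _⟩ := s.u_bounds
  have hL := s.Lm_ge
  have hLp := s.Lm_pos
  have h2 := Real.add_one_le_exp (-s.e)
  rw [s.exp_neg_e] at h2
  have h3 : 1 - lam s.z / s.Lm ≤ s.e := by linarith
  refine le_trans ?_ h3
  rw [div_le_iff₀ (by positivity)]
  have h4 : (1 - lam s.z / s.Lm) * s.Lm ^ 2 = (s.Lm - lam s.z) * s.Lm := by
    field_simp
  rw [h4]
  have h5 : (232 : ℝ) ≤ s.Lm ^ 2 := by nlinarith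
  -- (Λ-λz) Λ (Λ²+1) ≥ 4 Λ²
  have h6 : 4 * s.Lm ^ 2 ≤ (s.Lm - lam s.z) * s.Lm * (s.Lm ^ 2 + 1) := by nlinarith
  by_contra hneg
  push Not at hneg
  have h7 : (s.Lm - lam s.z) * s.Lm * (s.Lm ^ 2 + 1) < 3.98 * (s.Lm ^ 2 + 1) :=
    mul_lt_mul_of_pos_right hneg (by positivity)
  norm_num at h7
  linarith

lemma e_upper (s : Node) : s.e ≤ 5.2 / s.Lm ^ 2 := by
  obtain ⟨_, h1⟩ := s.u_bounds
  have hL := s.Lm_ge
  have hLp := s.Lm_pos
  have hz := s.lamz_ge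
  have hzp : 0 < lam s.z := by linarith
  have h2 := Real.add_one_le_exp (s.e)
  rw [s.exp_e] at h2
  have h3 : s.e ≤ s.Lm / lam s.z - 1 := by linarith
  refine le_trans h3 ?_
  have h4 : s.Lm / lam s.z - 1 = (s.Lm - lam s.z) / lam s.z := by
    field_simp
  rw [h4, div_le_div_iff₀ hzp (by positivity)]
  have h5 : (232 : ℝ) ≤ s.Lm ^ 2 := by nlinarith
  -- (Λ-λz) Λ² ≤ 5.2 λz ; λz ≥ Λ - 5.03/Λ
  have h6 : (s.Lm - lam s.z) * s.Lm ^ 2 ≤ 5.03 * s.Lm := by nlinarith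
  have h7 : 5.03 * s.Lm ≤ 5.2 * lam s.z := by
    have h8 : s.Lm * (5.2 * lam s.z - 5.03 * s.Lm) ≥ 0 := by
      have : s.Lm * (5.2 * lam s.z - 5.03 * s.Lm)
        = 0.17 * s.Lm ^ 2 - 5.2 * ((s.Lm - lam s.z) * s.Lm) := by ring
      rw [this]
      norm_num at h1 ⊢
      linarith
    by_contra hneg
    push Not at hneg
    have := mul_neg_of_pos_of_neg hLp (show 5.2 * lam s.z - 5.03 * s.Lm < 0 by linarith)
    linarith
  linarith

lemma e_pos (s : Node) : 0 < s.e :=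
  lt_of_lt_of_le (div_pos (by norm_num) (pow_pos s.Lm_pos 2)) s.e_lower

lemma e_le (s : Node) : s.e ≤ 0.0225 := by
  refine s.e_upper.trans ?_
  have hL := s.Lm_ge
  rw [div_le_iff₀ (by nlinarith)]
  norm_num at hL ⊢
  nlinarith

lemma lamz_ge' (s : Node) : 0.978 * s.Lm ≤ lam s.z := by
  obtain ⟨_, h1⟩ := s.u_bounds
  have hL := s.Lm_ge
  have hLp := s.Lm_pos
  have h8 : s.Lm * (lam s.z - 0.978 * s.Lm) ≥ 0 := by
    have : s.Lm * (lam s.z - 0.978 * s.Lm)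
      = 0.022 * s.Lm ^ 2 - ((s.Lm - lam s.z) * s.Lm) := by ring
    rw [this]
    norm_num at h1 hL ⊢
    nlinarith
  by_contra hneg
  push Not at hneg
  have := mul_neg_of_pos_of_neg hLp (show lam s.z - 0.978 * s.Lm < 0 by linarith)
  linarith

end Node

end Pool.Agent.Hhelper88
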