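import Pool.Agent.Hhelper88.MkDesc

set_option autoImplicit false

/-! Liouville type lower bound. -/

namespace Pool.Agent.Hhelper88

open Filter

/-- pairs of conjugates `u + v l`, `u + v l'` -/
def CJ (l l' : ℝ) (t t' : ℝ) : Prop := ∃ u v : ℤ, t = u + v * l ∧ t' = u + v * l'

lemma CJ_mul {X : ℤ} {l l' : ℝ} (hl : l * l = X * l - 1) (hl' : l' * l' = X * l' - 1)
    {t t' w w' : ℝ} (h1 : CJ l l' t t') (h2 : CJ l l' w w') : CJ l l' (t * w) (t' * w') := by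
  obtain ⟨u, v, rfl, rfl⟩ := h1
  obtain ⟨u2, v2, rfl, rfl⟩ := h2
  refine ⟨u * u2 - v * v2, u * v2 + u2 * v + X * (v * v2), ?_, ?_⟩
  · push_cast
    have : ((u : ℝ) + v * l) * (u2 + v2 * l) = u * u2 + (u * v2 + u2 * v) * l + v * v2 * (l * l) := by ring
    rw [this, hl]; ring
  · push_cast
    have : ((u : ℝ) + v * l') * (u2 + v2 * l') = u * u2 + (u * v2 + u2 * v) * l' + v * v2 * (l' * l') := by ring
    rw [this, hl']; ring

lemma CJ_pow {X : ℤ} {l l' : ℝ} (hl : l * l = X * l - 1) (hl' : l' * l' = X * l' - 1)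
    {t t' : ℝ} (h1 : CJ l l' t t') (n : ℕ) : CJ l l' (t ^ n) (t' ^ n) := by
  induction n with
  | zero => exact ⟨1, 0, by simp, by simp⟩
  | succ n ih => rw [pow_succ, pow_succ]; exact CJ_mul hl hl' ih h1

lemma CJ_sub_int {l l' t t' : ℝ} (h1 : CJ l l' t t') (d : ℤ) : CJ l l' (t - d) (t' - d) := by
  obtain ⟨u, v, rfl, rfl⟩ := h1
  exact ⟨u - d, v, by push_cast; ring, by push_cast; ring⟩

lemma form_zero {X u v : ℤ} (hX : 3 ≤ X) (h : u ^ 2 + u * v * X + v ^ 2 = 0) : u = 0 ∧ v = 0 := by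
  by_cases hv : v = 0
  · subst hv
    simp at h
    exact ⟨h, rfl⟩
  · exfalso
    have h1 : (2 * u + v * X) ^ 2 = v ^ 2 * (X ^ 2 - 4) := by linear_combination 4 * h
    have h2 : v ^ 2 ∣ (2 * u + v * X) ^ 2 := ⟨_, h1⟩
    have h3 : v ∣ 2 * u + v * X := (Int.pow_dvd_pow_iff (by norm_num)).1 h2
    obtain ⟨k, hk⟩ := h3
    rw [hk] at h1
    have h4 : v ^ 2 * k ^ 2 = v ^ 2 * (X ^ 2 - 4) := by rw [← h1]; ring
    have h5 : k ^ 2 = X ^ 2 - 4 := mul_left_cancel₀ (pow_ne_zero 2 hv) h4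
    have h6 : |k| < X := by
      apply lt_of_pow_lt_pow_left₀ 2 (by omega)
      rw [sq_abs]; linarith
    have h7 : |k| ^ 2 = X ^ 2 - 4 := by rw [sq_abs]; exact h5
    have h8 : 0 ≤ |k| := abs_nonneg k
    nlinarith

/-- The norm is at least one. -/
lemma CJ_norm {X : ℤ} (hX : 3 ≤ X) {l l' : ℝ} (hl : l * l' = 1) (hs : l + l' = X)
    {t t' : ℝ} (h : CJ l l' t t') (hne : ¬ (t = 0 ∧ t' = 0)) : 1 ≤ |t * t'| := by
  obtain ⟨u, v, rfl, rfl⟩ := h
  have h1 : ((u : ℝ) + v * l) * (u + v * l') = ((u ^ 2 + u * v * X + v ^ 2 : ℤ) : ℝ) := by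
    push_cast
    rw [← hs]
    have : ((u : ℝ) + v * l) * (u + v * l') = u ^ 2 + u * v * (l + l') + v ^ 2 * (l * l') := by ring
    rw [this, hl]; ring
  rw [h1]
  have h2 : (u ^ 2 + u * v * X + v ^ 2 : ℤ) ≠ 0 := by
    intro h0
    obtain ⟨hu, hv⟩ := form_zero hX h0
    apply hne
    subst hu hv
    simp
  have h3 := Int.one_le_abs h2
  exact_mod_cast h3

namespace Node

/-- `k`-fold left child -/
noncomputable def Lk (s : Node) (k : ℕ) : Node := s.desc (List.replicate k false)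

lemma Lk_zero (s : Node) : s.Lk 0 = s := rfl

lemma Lk_succ (s : Node) (k : ℕ) : s.Lk (k + 1) = (s.Lk k).L := by
  unfold Lk
  rw [List.replicate_succ', desc_append]
  rfl

lemma Lk_x (s : Node) (k : ℕ) : (s.Lk k).x = s.x := by
  induction k with
  | zero => rfl
  | succ k ih => rw [Lk_succ, x_L, ih]

lemma z_L (s : Node) : (s.L.z : ℝ) = 3 * s.x * s.z - s.y := by
  have h := s.y_lt_xz
  have h2 : s.y ≤ 3 * s.x * s.z := by nlinarith
  show ((3 * s.x * s.z - s.y : ℕ) : ℝ) = _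
  rw [Nat.cast_sub h2]; push_cast; ring

/-- `λ - λ⁻¹` -/
noncomputable def sD (s : Node) : ℝ := lam s.x - (lam s.x)⁻¹

lemma sD_pos (s : Node) : 0 < s.sD := by
  unfold sD
  have h := one_lt_lam s.x s.hx
  have : (lam s.x)⁻¹ < 1 := inv_lt_one_of_one_lt₀ h
  linarith

lemma sD_sq (s : Node) : s.sD ^ 2 = (9 * s.x ^ 2 - 4 : ℝ) := by
  unfold sD
  have h := lam_add_inv s.x s.hx
  have hp := lam_pos s.x s.hx
  have h2 : (lam s.x - (lam s.x)⁻¹) ^ 2 = (lam s.x + (lam s.x)⁻¹) ^ 2 - 4 := by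
    field_simp; ring
  rw [h2, h]; ring

noncomputable def cA (s : Node) : ℝ := (3 * s.z - (lam s.x)⁻¹ * (3 * s.y)) / s.sD
noncomputable def cB (s : Node) : ℝ := (lam s.x * (3 * s.y) - 3 * s.z) / s.sD

lemma Lk_formula (s : Node) (k : ℕ) :
    3 * ((s.Lk k).y : ℝ) = s.cA * lam s.x ^ k + s.cB * (lam s.x)⁻¹ ^ k ∧
    3 * ((s.Lk k).z : ℝ) = s.cA * lam s.x ^ (k + 1) + s.cB * (lam s.x)⁻¹ ^ (k + 1) := by
  have hp := lam_pos s.x s.hx
  have hD := s.sD_pos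
  have hDne : s.sD ≠ 0 := hD.ne'
  induction k with
  | zero =>
    rw [Lk_zero]
    unfold cA cB
    constructor
    · simp only [pow_zero, mul_one]
      rw [← add_div, eq_div_iff hDne]
      unfold sD; ring
    · simp only [zero_add, pow_one]
      rw [div_mul_eq_mul_div, div_mul_eq_mul_div, ← add_div, eq_div_iff hDne]
      unfold sD
      field_simp
      ring
  | succ k ih =>
    obtain ⟨h1, h2⟩ := ih
    rw [Lk_succ]
    constructor
    · rw [y_L]; exact h2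
    · rw [z_L, Lk_x]
      have h3 := lam_add_inv s.x s.hx
      have e1 : (3 : ℝ) * (3 * s.x * (s.Lk k).z - (s.Lk k).y)
        = (3 * s.x) * (3 * (s.Lk k).z) - 3 * (s.Lk k).y := by ring
      rw [e1, h1, h2, ← h3]
      have h4 : lam s.x * (lam s.x)⁻¹ = 1 := mul_inv_cancel₀ hp.ne'
      generalize (lam s.x)⁻¹ = m at h4 ⊢
      generalize lam s.x = l at h4 ⊢
      linear_combination (s.cA * l ^ k + s.cB * m ^ k) * h4

lemma cA_pos (s : Node) : 0 < s.cA := by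
  unfold cA
  apply div_pos _ s.sD_pos
  have h := one_lt_lam s.x s.hx
  have h1 : (lam s.x)⁻¹ < 1 := inv_lt_one_of_one_lt₀ h
  have h2 := s.big
  have h3 : s.y < s.z := by
    have := s.hx; have := s.hy
    have : s.y ≤ s.x * s.y := Nat.le_mul_of_pos_left _ s.hx
    omega
  have h4 : (s.y : ℝ) < s.z := by exact_mod_cast h3
  have h5 : (0 : ℝ) < s.y := by exact_mod_cast s.hy
  have h6 : (lam s.x)⁻¹ * (3 * s.y) ≤ 1 * (3 * s.y) := mul_le_mul_of_nonneg_right h1.le (by positivity)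
  linarith

lemma cAB (s : Node) : s.cA * s.cB = 9 * s.x ^ 2 / (9 * s.x ^ 2 - 4) := by
  have hp := lam_pos s.x s.hx
  have hD := s.sD_pos
  have hDD := s.sD_sq
  have h := lam_add_inv s.x s.hx
  have he : (s.x : ℝ) ^ 2 + (s.y : ℝ) ^ 2 + (s.z : ℝ) ^ 2 = 3 * s.x * s.y * s.z := by
    exact_mod_cast s.eq
  unfold cA cB
  rw [div_mul_div_comm, ← pow_two, hDD]
  congr 1
  have : (3 * (s.z : ℝ) - (lam s.x)⁻¹ * (3 * s.y)) * (lam s.x * (3 * s.y) - 3 * s.z)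
    = 9 * ((lam s.x + (lam s.x)⁻¹) * s.y * s.z - s.z ^ 2 - ((lam s.x)⁻¹ * lam s.x) * s.y ^ 2) := by ring
  rw [this, h, inv_mul_cancel₀ hp.ne']
  linarith

lemma Lk_limit (s : Node) :
    Tendsto (fun k : ℕ => (s.Lk k).b - k * s.a) atTop (nhds (Real.log s.cA)) := by
  have hp := lam_pos s.x s.hx
  have h1l := one_lt_lam s.x s.hx
  have hinv0 : 0 < (lam s.x)⁻¹ := inv_pos.2 hp
  have hinv : (lam s.x)⁻¹ < 1 := inv_lt_one_of_one_lt₀ h1l
  have key : ∀ k : ℕ, (s.Lk k).b - k * s.a = Real.log (lam (s.Lk k).y * (lam s.x)⁻¹ ^ k) := by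
    intro k
    have hy := lam_pos (s.Lk k).y (s.Lk k).hy
    rw [Real.log_mul hy.ne' (by positivity), Real.log_pow, Real.log_inv]
    unfold b a hh
    ring
  simp_rw [key]
  apply Tendsto.log _ s.cA_pos.ne'
  have e1 : ∀ k : ℕ, lam (s.Lk k).y * (lam s.x)⁻¹ ^ k
      = s.cA + s.cB * ((lam s.x)⁻¹ ^ k * (lam s.x)⁻¹ ^ k) - (lam (s.Lk k).y)⁻¹ * (lam s.x)⁻¹ ^ k := by
    intro k
    have h1 := (s.Lk_formula k).1
    have h2 := lam_add_inv (s.Lk k).y (s.Lk k).hy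
    have h3 : lam (s.Lk k).y = s.cA * lam s.x ^ k + s.cB * (lam s.x)⁻¹ ^ k - (lam (s.Lk k).y)⁻¹ := by
      linarith
    have h4 : lam s.x ^ k * (lam s.x)⁻¹ ^ k = 1 := by
      rw [← mul_pow, mul_inv_cancel₀ hp.ne', one_pow]
    calc lam (s.Lk k).y * (lam s.x)⁻¹ ^ k
        = (s.cA * lam s.x ^ k + s.cB * (lam s.x)⁻¹ ^ k - (lam (s.Lk k).y)⁻¹) * (lam s.x)⁻¹ ^ k := by
          rw [← h3]
      _ = s.cA * (lam s.x ^ k * (lam s.x)⁻¹ ^ k) + s.cB * ((lam s.x)⁻¹ ^ k * (lam s.x)⁻¹ ^ k)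
          - (lam (s.Lk k).y)⁻¹ * (lam s.x)⁻¹ ^ k := by ring
      _ = _ := by rw [h4]; ring
  simp_rw [e1]
  have t1 : Tendsto (fun k : ℕ => (lam s.x)⁻¹ ^ k) atTop (nhds 0) :=
    tendsto_pow_atTop_nhds_zero_of_lt_one hinv0.le hinv
  have t2 : Tendsto (fun k : ℕ => s.cB * ((lam s.x)⁻¹ ^ k * (lam s.x)⁻¹ ^ k)) atTop (nhds 0) := by
    have := (t1.mul t1).const_mul s.cB
    simpa using this
  have t3 : Tendsto (fun k : ℕ => (lam (s.Lk k).y)⁻¹ * (lam s.x)⁻¹ ^ k) atTop (nhds 0) := by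
    apply squeeze_zero _ _ t1
    · intro k
      have hy := lam_pos (s.Lk k).y (s.Lk k).hy
      positivity
    · intro k
      have hy := one_lt_lam (s.Lk k).y (s.Lk k).hy
      have : (lam (s.Lk k).y)⁻¹ ≤ 1 := inv_le_one_of_one_le₀ hy.le
      have h0 : 0 ≤ (lam s.x)⁻¹ ^ k := by positivity
      nlinarith
  have := (tendsto_const_nhds (x := s.cA)).add t2 |>.sub t3
  simpa using this

lemma push_replicate (z : ℤ × ℤ) (k : ℕ) : push z (List.replicate k false) = (z.1 + k * z.2, z.2) := by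
  induction k generalizing z with
  | zero => simp
  | succ k ih =>
    rw [List.replicate_succ, push_false, ih]
    simp only [Prod.mk.injEq, and_true]
    push_cast
    ring

/-- `|Q a - P log A| ≤ |Q a - P b| + (5/3) ε (P+Q)`. -/
lemma limit_functional (s : Node) (z : ℤ × ℤ) (h1 : 0 ≤ z.1) (h2 : 0 ≤ z.2) :
    |z.1 * s.a - z.2 * Real.log s.cA| ≤ |s.g z| + 5 / 3 * s.e * (z.1 + z.2) := by
  have hk : ∀ k : ℕ, |z.1 * s.a - z.2 * ((s.Lk k).b - k * s.a)| ≤ |s.g z| + 5 / 3 * s.e * (z.1 + z.2) := by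
    intro k
    have hv := var_bound (List.replicate k false) s z h1 h2
    rw [push_replicate] at hv
    have e1 : (s.desc (List.replicate k false)).g (z.1 + k * z.2, z.2)
        = z.1 * s.a - z.2 * ((s.Lk k).b - k * s.a) := by
      have hx : (s.desc (List.replicate k false)).a = s.a := by
        have := s.Lk_x k
        unfold a
        unfold Lk at this
        rw [this]
      unfold g
      rw [hx]
      push_cast
      show _ - _ * (s.Lk k).b = _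
      ring
    rw [e1] at hv
    have : z.1 * s.a - z.2 * ((s.Lk k).b - k * s.a)
      = (z.1 * s.a - z.2 * ((s.Lk k).b - k * s.a) - s.g z) + s.g z := by ring
    rw [this]
    refine (abs_add_le _ _).trans ?_
    linarith
  have ht : Tendsto (fun k : ℕ => |(z.1 : ℝ) * s.a - z.2 * ((s.Lk k).b - k * s.a)|) atTop
      (nhds |z.1 * s.a - z.2 * Real.log s.cA|) :=
    ((tendsto_const_nhds).sub (s.Lk_limit.const_mul _)).abs
  exact le_of_tendsto' ht hk

/-- The Liouville bound. -/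
lemma liouville (s : Node) (z : ℤ × ℤ) (h1 : 1 ≤ z.1) (h2 : 1 ≤ z.2)
    (hδ : |s.g z| + 5 / 3 * s.e * (z.1 + z.2) ≤ 1 / 4) :
    1 / 8 * Real.exp (-6 * (z.2 * s.a)) ≤ |s.g z| + 5 / 3 * s.e * (z.1 + z.2) := by
  set δ := |s.g z| + 5 / 3 * s.e * (z.1 + z.2) with hδdef
  have hlim := s.limit_functional z (by omega) (by omega)
  rw [← hδdef] at hlim
  set Lg := z.1 * s.a - z.2 * Real.log s.cA with hLg
  obtain ⟨q, hq⟩ := Int.eq_ofNat_of_zero_le (show 0 ≤ z.1 by omega)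
  obtain ⟨p, hp⟩ := Int.eq_ofNat_of_zero_le (show 0 ≤ z.2 by omega)
  have hp1 : 1 ≤ p := by omega
  have hlp := lam_pos s.x s.hx
  have hl1 := one_lt_lam s.x s.hx
  have hlge : (2.618 : ℝ) ≤ lam s.x := lam_one.trans (lam_mono le_rfl s.hx)
  set l := lam s.x with hl
  have hApos := s.cA_pos
  have hDpos := s.sD_pos
  have hDsq := s.sD_sq
  have hx1 : (1 : ℝ) ≤ s.x := by exact_mod_cast s.hx
  have hsum : l + l⁻¹ = ((3 * s.x : ℤ) : ℝ) := by
    push_cast; exact lam_add_inv s.x s.hx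
  have hll : l * l = ((3 * s.x : ℤ) : ℝ) * l - 1 := by
    rw [← hsum]; field_simp; ring
  have hll' : l⁻¹ * l⁻¹ = ((3 * s.x : ℤ) : ℝ) * l⁻¹ - 1 := by
    rw [← hsum]; field_simp; ring
  -- conjugate pairs
  have c1 : CJ l l⁻¹ l⁻¹ l := by
    refine ⟨3 * s.x, -1, ?_, ?_⟩
    · push_cast at hsum ⊢; linarith
    · push_cast at hsum ⊢; linarith
  have c2 : CJ l l⁻¹ (3 * s.z - l⁻¹ * (3 * s.y)) (3 * s.z - l * (3 * s.y)) := by
    refine ⟨3 * s.z - 3 * s.x * (3 * s.y), 3 * s.y, ?_, ?_⟩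
    · push_cast at hsum ⊢
      have : l⁻¹ = 3 * s.x - l := by linarith
      rw [this]; ring
    · push_cast at hsum ⊢
      have : l⁻¹ = 3 * s.x - l := by linarith
      rw [this]; ring
  have c3 := CJ_mul hll hll' (CJ_pow hll hll' c1 (2 * q)) (CJ_pow hll hll' c2 (2 * p))
  set Dz : ℤ := (9 * s.x ^ 2 - 4) ^ p with hDz
  have c4 := CJ_sub_int c3 Dz
  -- values
  have hDR : ((Dz : ℤ) : ℝ) = s.sD ^ (2 * p) := by
    rw [hDz, pow_mul, hDsq]; push_cast; ring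
  have v1 : l⁻¹ ^ (2 * q) * (3 * s.z - l⁻¹ * (3 * s.y)) ^ (2 * p)
      = s.sD ^ (2 * p) * (l⁻¹ ^ (2 * q) * s.cA ^ (2 * p)) := by
    have : (3 * (s.z : ℝ) - l⁻¹ * (3 * s.y)) = s.sD * s.cA := by
      have h3 : s.cA * s.sD = 3 * s.z - l⁻¹ * (3 * s.y) := div_mul_cancel₀ _ hDpos.ne'
      linarith
    rw [this, mul_pow]; ring
  have v2 : l ^ (2 * q) * (3 * s.z - l * (3 * s.y)) ^ (2 * p)
      = s.sD ^ (2 * p) * (l ^ (2 * q) * s.cB ^ (2 * p)) := by
    have : (3 * (s.z : ℝ) - l * (3 * s.y)) = -(s.sD * s.cB) := by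
      have h3 : s.cB * s.sD = l * (3 * s.y) - 3 * s.z := div_mul_cancel₀ _ hDpos.ne'
      linarith
    rw [this, Even.neg_pow ⟨p, by ring⟩, mul_pow]; ring
  rw [v1, v2, hDR] at c4
  set t := l⁻¹ ^ (2 * q) * s.cA ^ (2 * p) with ht
  set t' := l ^ (2 * q) * s.cB ^ (2 * p) with ht'
  have htpos : 0 < t := by positivity
  -- t = exp (-2 Lg)
  have htexp : t = Real.exp (-2 * Lg) := by
    have e1 : Real.exp (-2 * Lg) = (Real.exp s.a)⁻¹ ^ (2 * q) * (Real.exp (Real.log s.cA)) ^ (2 * p) := by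
      rw [← Real.exp_neg, ← Real.exp_nat_mul, ← Real.exp_nat_mul, ← Real.exp_add]
      congr 1
      rw [hLg, hq, hp]; push_cast; ring
    rw [e1, Real.exp_log hApos, ht]
    have : Real.exp s.a = l := exp_hh _ s.hx
    rw [this]
  have hAB : s.cA * s.cB = 9 * s.x ^ 2 / (9 * s.x ^ 2 - 4) := s.cAB
  have hden : (0 : ℝ) < 9 * s.x ^ 2 - 4 := by nlinarith
  have hAB1 : 1 < s.cA * s.cB := by rw [hAB, lt_div_iff₀ hden]; linarith
  have hAB2 : s.cA * s.cB ≤ 9 / 5 := by rw [hAB, div_le_iff₀ hden]; nlinarith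
  have htt : t * t' = (s.cA * s.cB) ^ (2 * p) := by
    rw [ht, ht']
    have : l⁻¹ ^ (2 * q) * l ^ (2 * q) = 1 := by rw [← mul_pow, inv_mul_cancel₀ hlp.ne', one_pow]
    calc l⁻¹ ^ (2 * q) * s.cA ^ (2 * p) * (l ^ (2 * q) * s.cB ^ (2 * p))
        = (l⁻¹ ^ (2 * q) * l ^ (2 * q)) * (s.cA ^ (2 * p) * s.cB ^ (2 * p)) := by ring
      _ = _ := by rw [this, one_mul, mul_pow]
  have hpow1 : 1 < (s.cA * s.cB) ^ (2 * p) := one_lt_pow₀ hAB1 (by omega)
  have hpow2 : (s.cA * s.cB) ^ (2 * p) ≤ (9 / 5) ^ (2 * p) := pow_le_pow_left₀ (by linarith) hAB2 _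
  have hne : ¬ (s.sD ^ (2 * p) * t - s.sD ^ (2 * p) = 0 ∧ s.sD ^ (2 * p) * t' - s.sD ^ (2 * p) = 0) := by
    rintro ⟨h3, h4⟩
    have hD0 : s.sD ^ (2 * p) ≠ 0 := pow_ne_zero _ hDpos.ne'
    have h5 : t = 1 := by
      have : s.sD ^ (2 * p) * (t - 1) = 0 := by linarith
      rcases mul_eq_zero.1 this with h | h
      · exact absurd h hD0
      · linarith
    have h6 : t' = 1 := by
      have : s.sD ^ (2 * p) * (t' - 1) = 0 := by linarith
      rcases mul_eq_zero.1 this with h | h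
      · exact absurd h hD0
      · linarith
    rw [h5, h6] at htt
    linarith
  have hX3 : (3 : ℤ) ≤ 3 * s.x := by have := s.hx; omega
  have hnorm := CJ_norm hX3 (mul_inv_cancel₀ hlp.ne') hsum c4 hne
  -- estimates
  have hLabs : |Lg| ≤ 1 / 4 := hlim.trans hδ
  have hLa := abs_le.1 hLabs
  have ht1 : |t - 1| ≤ 4 * |Lg| := by
    rw [htexp]
    have h3 : |(-2 * Lg)| ≤ 1 := by rw [abs_mul]; norm_num; linarith
    have h4 := Real.abs_exp_sub_one_le h3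
    refine h4.trans ?_
    rw [abs_mul]; norm_num; linarith
  have htlow : 1 / 2 ≤ t := by
    rw [htexp]
    have := Real.add_one_le_exp (-2 * Lg)
    linarith
  have ht'pos : 0 < t' := by
    by_contra hneg
    push Not at hneg
    have := mul_nonpos_of_nonneg_of_nonpos htpos.le hneg
    linarith
  have ht'le : t' ≤ 2 * (9 / 5) ^ (2 * p) := by
    have : 1 / 2 * t' ≤ t * t' := mul_le_mul_of_nonneg_right htlow ht'pos.le
    linarith
  have ht'abs : |t' - 1| ≤ 2 * (9 / 5) ^ (2 * p) := by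
    have : (1 : ℝ) ≤ (9 / 5) ^ (2 * p) := one_le_pow₀ (by norm_num)
    rw [abs_le]; constructor <;> linarith
  have e5 : (s.sD ^ (2 * p) * t - s.sD ^ (2 * p)) * (s.sD ^ (2 * p) * t' - s.sD ^ (2 * p))
      = s.sD ^ (4 * p) * ((t - 1) * (t' - 1)) := by ring
  rw [e5, abs_mul, abs_mul, abs_of_pos (pow_pos hDpos _)] at hnorm
  have h6 : s.sD ^ (4 * p) * (|t - 1| * |t' - 1|) ≤ s.sD ^ (4 * p) * (4 * |Lg| * (2 * (9 / 5) ^ (2 * p))) := by
    apply mul_le_mul_of_nonneg_left _ (pow_pos hDpos _).le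
    exact mul_le_mul ht1 ht'abs (abs_nonneg _) (by positivity)
  have h7 : s.sD ^ (4 * p) * (9 / 5) ^ (2 * p) ≤ l ^ (6 * p) := by
    have hD' : s.sD ≤ l := by unfold sD; have := inv_pos.2 hlp; linarith
    have h8 : s.sD ^ (4 * p) ≤ l ^ (4 * p) := pow_le_pow_left₀ hDpos.le hD' _
    have h9 : (9 / 5 : ℝ) ^ (2 * p) ≤ l ^ (2 * p) := pow_le_pow_left₀ (by norm_num) (by norm_num at hlge ⊢; linarith) _
    calc s.sD ^ (4 * p) * (9 / 5) ^ (2 * p) ≤ l ^ (4 * p) * l ^ (2 * p) :=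
          mul_le_mul h8 h9 (by positivity) (by positivity)
      _ = l ^ (6 * p) := by rw [← pow_add]; congr 1; ring
  have h10 : 1 ≤ 8 * |Lg| * l ^ (6 * p) := by
    calc (1 : ℝ) ≤ s.sD ^ (4 * p) * (|t - 1| * |t' - 1|) := hnorm
      _ ≤ s.sD ^ (4 * p) * (4 * |Lg| * (2 * (9 / 5) ^ (2 * p))) := h6
      _ = 8 * |Lg| * (s.sD ^ (4 * p) * (9 / 5) ^ (2 * p)) := by ring
      _ ≤ 8 * |Lg| * l ^ (6 * p) := mul_le_mul_of_nonneg_left h7 (by positivity)
  have h11 : Real.exp (-6 * (z.2 * s.a)) = (l ^ (6 * p))⁻¹ := by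
    have : l = Real.exp s.a := (exp_hh _ s.hx).symm
    rw [this, ← Real.exp_nat_mul, ← Real.exp_neg]
    congr 1
    rw [hp]; push_cast; ring
  rw [h11]
  have h12 : (0 : ℝ) < l ^ (6 * p) := by positivity
  have h13 : 1 / 8 * (l ^ (6 * p))⁻¹ ≤ |Lg| := by
    rw [mul_inv_le_iff₀ h12]
    linarith
  exact h13.trans hlim

end Node

end Pool.Agent.Hhelper88
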