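import Pool.Agent.Hhelper88.MkRes

set_option autoImplicit false

/-! Main estimate with free parameters. -/

namespace Pool.Agent.Hhelper88

open Finset

lemma leaf_est {Q : ℝ} (hQ : 0 < Q) (t : Node) (m : ℕ) (r : ℝ) (hr : 0 ≤ r)
    (hm : r < t.a + t.b + 0.9 * m) :
    |(NN m t r : ℝ) - mainT t.a t.b r| ≤
      3 * r ^ 2 * (t.e * AD t) + 4 * r * (1 / (t.a * (rt Q t).den)) + (rt Q t).den / 2 + t.a / t.b + 1 := by
  have ha := t.a_pos
  have hb := t.b_pos
  have he := t.one_sub_e_pos
  have hep := t.e_pos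
  have hel := t.e_le
  have hcop : IsCoprime (rt Q t).num (((rt Q t).den : ℕ) : ℤ) := Rat.isCoprime_num_den _
  have hden : 0 < (rt Q t).den := (rt Q t).den_pos
  have hdR : (0 : ℝ) < (rt Q t).den := by exact_mod_cast hden
  have hup : (NN m t r : ℝ) ≤ TT t.a t.b (r / (1 - t.e)) := by exact_mod_cast NN_upper m t r hr
  have hlo : (TT t.a t.b r : ℝ) ≤ NN m t r := by exact_mod_cast NN_lower m t r hr hm
  have hr' : 0 ≤ r / (1 - t.e) := div_nonneg hr he.le
  have h1 := abs_le.1 (TT_approx ha hb hr' _ _ hden hcop (rt_theta hQ t))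
  have h2 := abs_le.1 (TT_approx ha hb hr _ _ hden hcop (rt_theta hQ t))
  have hrr : r ≤ r / (1 - t.e) := by
    rw [le_div_iff₀ he]; nlinarith
  have hrr2 : r / (1 - t.e) ≤ 1.05 * r := by
    rw [div_le_iff₀ he]; norm_num at hel ⊢; nlinarith
  have hrr3 : r / (1 - t.e) - r ≤ 1.05 * r * t.e := by
    have : r / (1 - t.e) - r = (r / (1 - t.e)) * t.e := by field_simp; ring
    rw [this]
    exact mul_le_mul_of_nonneg_right hrr2 hep.le
  have hmain : mainT t.a t.b (r / (1 - t.e)) - mainT t.a t.b r ≤ 3 * r ^ 2 * (t.e * AD t) := by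
    unfold mainT AD
    set r' := r / (1 - t.e) with hr'def
    have e1 : r' ^ 2 / (2 * (t.a * t.b)) - r' / 2 * (1 / t.a + 1 / t.b)
        - (r ^ 2 / (2 * (t.a * t.b)) - r / 2 * (1 / t.a + 1 / t.b))
        = ((r' - r) * (r' + r)) / 2 * (1 / (t.a * t.b)) - (r' - r) / 2 * (1 / t.a + 1 / t.b) := by
      field_simp; ring
    rw [e1]
    have h3 : 0 ≤ (r' - r) / 2 * (1 / t.a + 1 / t.b) := by
      apply mul_nonneg
      · linarith
      · positivity
    have h4 : (r' - r) * (r' + r) ≤ (1.05 * r * t.e) * (2.05 * r) := by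
      apply mul_le_mul hrr3 (by linarith) (by linarith) (by positivity)
    have h5 : ((r' - r) * (r' + r)) / 2 * (1 / (t.a * t.b)) ≤ 3 * r ^ 2 * (t.e * (1 / (t.a * t.b))) := by
      have : 3 * r ^ 2 * (t.e * (1 / (t.a * t.b))) = (3 * r ^ 2 * t.e) * (1 / (t.a * t.b)) := by ring
      rw [this]
      apply mul_le_mul_of_nonneg_right _ (by positivity)
      norm_num at h4
      have : 0 ≤ r ^ 2 * t.e := by positivity
      linarith
    linarith
  have hq1 : 2 * (r / (1 - t.e) / (t.a * (rt Q t).den)) ≤ 4 * r * (1 / (t.a * (rt Q t).den)) := by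
    have : r / (1 - t.e) ≤ 2 * r := by norm_num at hrr2; linarith
    rw [div_eq_mul_one_div (r / (1 - t.e))]
    have h6 : 0 < 1 / (t.a * ((rt Q t).den : ℝ)) := by positivity
    nlinarith
  have hq2 : 2 * (r / (t.a * (rt Q t).den)) ≤ 4 * r * (1 / (t.a * (rt Q t).den)) := by
    rw [div_eq_mul_one_div r]
    have h6 : 0 < 1 / (t.a * ((rt Q t).den : ℝ)) := by positivity
    nlinarith
  have hnn : 0 ≤ 3 * r ^ 2 * (t.e * AD t) := by have := AD_pos t; positivity
  rw [abs_le]
  constructor
  · linarith [h2.1]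
  · linarith [h1.2]

/-- total area constant (twice the area) -/
noncomputable def Ar : ℝ := ⨆ k : ℕ, ls k Node.root AD

lemma ls_AD_bdd : BddAbove (Set.range fun k : ℕ => ls k Node.root AD) :=
  ⟨(1 + 2 * Node.root.e) * AD Node.root, by rintro _ ⟨k, rfl⟩; exact ls_AD_le k _⟩

lemma Ar_ge (k : ℕ) : ls k Node.root AD ≤ Ar := le_ciSup ls_AD_bdd k

lemma Ar_le (k : ℕ) : Ar ≤ ls k Node.root AD + 2 * ls k Node.root (fun t => t.e * AD t) := by
  apply ciSup_le
  intro j
  rcases le_total k j with h | h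
  · obtain ⟨m, rfl⟩ := Nat.exists_eq_add_of_le h
    rw [ls_comp]
    have h1 : ls k Node.root (fun t => ls m t AD) ≤ ls k Node.root (fun t => AD t + 2 * (t.e * AD t)) := by
      apply ls_mono
      intro w _
      have := ls_AD_le m (Node.root.desc w)
      linarith
    rw [ls_add, ls_mul] at h1
    exact h1
  · obtain ⟨m, rfl⟩ := Nat.exists_eq_add_of_le h
    have h1 : ls j Node.root AD ≤ ls (j + m) Node.root AD := by
      rw [ls_comp]
      apply ls_mono
      intro w _
      exact ls_AD_ge m _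
    have h2 : 0 ≤ ls (j + m) Node.root (fun t => t.e * AD t) := by
      apply ls_nonneg
      intro w _
      exact mul_nonneg (Node.e_pos _).le (AD_pos _).le
    linarith

lemma AD_root_le : AD Node.root ≤ 1.1 := by
  unfold AD
  have ha := Node.root.a_ge
  have hb := Node.root.b_ge
  rw [div_le_iff₀ (by have := Node.root.a_pos; have := Node.root.b_pos; positivity)]
  norm_num at ha hb ⊢
  nlinarith

lemma Ar_pos : 0 < Ar := lt_of_lt_of_le (AD_pos Node.root) (Ar_ge 0)

lemma ls_eAD (K : ℕ) : ls K Node.root (fun t => t.e * AD t) ≤ 1 / 2 * Real.exp (-1.8 * K) := by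
  have h1 : ls K Node.root (fun t => t.e * AD t) ≤
      ls K Node.root (fun t => (0.03 * Real.exp (-1.8 * K)) * AD t) := by
    apply ls_mono
    intro w hw
    apply mul_le_mul_of_nonneg_right _ (AD_pos _).le
    have h2 := (Node.root.desc w).e_le_exp
    have h3 := Node.ab_desc w Node.root
    have h4 := Node.root.ab_ge
    rw [hw] at h3
    refine h2.trans ?_
    have h5 : Real.exp (-2 * ((Node.root.desc w).a + (Node.root.desc w).b)) ≤
        Real.exp (-5.4) * Real.exp (-1.8 * K) := by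
      rw [← Real.exp_add, Real.exp_le_exp]
      norm_num at h3 h4 ⊢
      linarith
    have h6 : Real.exp (-5.4) ≤ 1 / 200 := by
      rw [Real.exp_neg]
      rw [inv_eq_one_div]
      apply one_div_le_one_div_of_le (by norm_num)
      have h7 : Real.exp 5.4 = Real.exp 2.7 * Real.exp 2.7 := by rw [← Real.exp_add]; norm_num
      have h8 : (14.3 : ℝ) ≤ Real.exp 2.7 := by
        have h9 : Real.exp 2.7 = Real.exp 1 * Real.exp 1 * Real.exp 0.7 := by
          rw [← Real.exp_add, ← Real.exp_add]; norm_num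
        have h10 := Real.exp_one_gt_d9
        have h11 := Real.quadratic_le_exp_of_nonneg (show (0 : ℝ) ≤ 0.7 by norm_num)
        have h12 : (1.945 : ℝ) ≤ Real.exp 0.7 := by norm_num at h11 ⊢; linarith
        rw [h9]
        have h13 : (7.38 : ℝ) ≤ Real.exp 1 * Real.exp 1 := by nlinarith
        calc (14.3 : ℝ) ≤ 7.38 * 1.945 := by norm_num
          _ ≤ Real.exp 1 * Real.exp 1 * Real.exp 0.7 :=
            mul_le_mul h13 h12 (by norm_num) (by positivity)
      rw [h7]; nlinarith
    have h14 : 0 < Real.exp (-1.8 * (K : ℝ)) := Real.exp_pos _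
    calc 5.2 * Real.exp (-2 * ((Node.root.desc w).a + (Node.root.desc w).b))
        ≤ 5.2 * (Real.exp (-5.4) * Real.exp (-1.8 * K)) := by linarith
      _ ≤ 5.2 * (1 / 200 * Real.exp (-1.8 * K)) := by
        apply mul_le_mul_of_nonneg_left _ (by norm_num)
        exact mul_le_mul_of_nonneg_right h6 h14.le
      _ ≤ 0.03 * Real.exp (-1.8 * K) := by norm_num at h14 ⊢; linarith
  refine h1.trans ?_
  rw [ls_mul]
  have h2 := ls_AD_le K Node.root
  have h3 := AD_root_le
  have h4 := Node.root.e_le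
  have h5 := Node.root.e_pos
  have h6 := AD_pos Node.root
  have h7 : ls K Node.root AD ≤ 1.2 := by
    refine h2.trans ?_
    norm_num at h3 h4 ⊢
    nlinarith
  have h14 : 0 < Real.exp (-1.8 * (K : ℝ)) := Real.exp_pos _
  calc 0.03 * Real.exp (-1.8 * K) * ls K Node.root AD ≤ 0.03 * Real.exp (-1.8 * K) * 1.2 :=
        mul_le_mul_of_nonneg_left h7 (by positivity)
    _ ≤ 1 / 2 * Real.exp (-1.8 * K) := by norm_num at h14 ⊢; linarith

lemma ls_AD_le12 (K : ℕ) : ls K Node.root AD ≤ 1.2 := by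
  have h2 := ls_AD_le K Node.root
  have h3 := AD_root_le
  have h4 := Node.root.e_le
  have h5 := Node.root.e_pos
  have h6 := AD_pos Node.root
  refine h2.trans ?_
  norm_num at h3 h4 ⊢
  nlinarith

/-- linear coefficient -/
noncomputable def c1 : ℝ := 1 / 2 * (1 / Node.root.a + 1 / Node.root.b)

/-- Main estimate -/
theorem main_est {Q B n1 n2 ℓ : ℝ} (hp : Params Q B n1 n2 ℓ) (hn2 : 0 ≤ n2) (K m : ℕ)
    (hK : n1 ≤ Node.root.a + Node.root.b + 0.9 * K) (r : ℝ) (hr : 0 ≤ r) (hm : r < 0.9 * m) :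
    |(NN (K + m) Node.root r : ℝ) - (Ar / 2 * r ^ 2 - c1 * r)| ≤
      3 * r ^ 2 * Real.exp (-1.8 * K) + 4 * Q * 3 ^ K
        + 12 * r * (1 + 2 * n2 ^ 2) / (n1 * Real.sqrt (ℓ / 2)) + 5 * r / B := by
  have hQ8 := hp.hQ
  have hQ0 : 0 < Q := by linarith
  have hB1 := hp.hB
  have hB0 : 0 < B := by linarith
  rw [NN_add]
  -- leaf sum
  have hleaf : |ls K Node.root (fun t => (NN m t r : ℝ)) - ls K Node.root (fun t => mainT t.a t.b r)|
      ≤ 3 * r ^ 2 * ls K Node.root (fun t => t.e * AD t)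
        + 4 * r * ls K Node.root (fun t => 1 / (t.a * (rt Q t).den))
        + ls K Node.root (fun t => (rt Q t).den / 2 + t.a / t.b + 1) := by
    rw [← ls_sub]
    refine (abs_ls_le _ _ _).trans ?_
    rw [← ls_mul, ← ls_mul, ← ls_add, ← ls_add]
    apply ls_mono
    intro w _
    have h1 := leaf_est hQ0 (Node.root.desc w) m r hr (by
      have := (Node.root.desc w).a_pos
      have := (Node.root.desc w).b_pos
      linarith)
    refine h1.trans ?_
    linarith
  have hmainsum : ls K Node.root (fun t => mainT t.a t.b r)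
      = r ^ 2 / 2 * ls K Node.root AD - r / 2 * ls K Node.root (fun t => 1 / t.a + 1 / t.b) := by
    rw [← ls_mul, ← ls_mul, ← ls_sub]
    apply ls_congr
    intro w _
    unfold mainT AD
    have ha := (Node.root.desc w).a_pos
    have hb := (Node.root.desc w).b_pos
    field_simp
  have hIS := IS_identity K Node.root
  obtain ⟨hN1, hN2⟩ := NN_IS K Node.root r hr
  -- q-part
  have hq : ls K Node.root (fun t => ((rt Q t).den : ℝ) / 2 + t.a / t.b + 1) ≤ 3 * Q * 3 ^ K := by
    have h1 : ls K Node.root (fun t => ((rt Q t).den : ℝ) / 2 + t.a / t.b + 1) ≤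
        ls K Node.root (fun t => (Q / 2 + 1.05) * (t.a + t.b) + 1.5) := by
      apply ls_mono
      intro w _
      set t := Node.root.desc w with ht
      have ha := t.a_ge
      have hb := t.b_ge
      have hap := t.a_pos
      have hbp := t.b_pos
      have hd : ((rt Q t).den : ℝ) ≤ t.b * Q + 1 := by
        have h2 : ((rt Q t).den : ℝ) ≤ (⌈t.b * Q⌉₊ : ℝ) := by exact_mod_cast (rt_spec hQ0 t).2
        have h3 := Nat.ceil_lt_add_one (mul_pos hbp hQ0).le
        linarith
      have h4 : t.a / t.b ≤ 1.05 * t.a := by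
        rw [div_le_iff₀ hbp]; norm_num at hb ⊢; nlinarith
      have h5 : 0 < Q * t.a := by positivity
      norm_num at h4 ⊢
      nlinarith
    refine h1.trans ?_
    rw [ls_add, ls_mul, ls_const]
    have h2 := ls_ab_le K Node.root
    have h3 := Node.root_a_le
    have h4 := Node.root_b_le
    have h5 : (0 : ℝ) < 3 ^ K := by positivity
    have h6 : (2 : ℝ) ^ K ≤ 3 ^ K := pow_le_pow_left₀ (by norm_num) (by norm_num) K
    have h7 : ls K Node.root (fun t => t.a + t.b) ≤ 3 ^ K * 4 := by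
      refine h2.trans (mul_le_mul_of_nonneg_left (by linarith) h5.le)
    have h8 : (Q / 2 + 1.05) * ls K Node.root (fun t => t.a + t.b) ≤ (Q / 2 + 1.05) * (3 ^ K * 4) :=
      mul_le_mul_of_nonneg_left h7 (by positivity)
    norm_num at h8 ⊢
    nlinarith
  -- 1/(a q) part
  have hres : ls K Node.root (fun t => 1 / (t.a * (rt Q t).den)) ≤
      (1 + 2 * n2 ^ 2) * (3 / (n1 * Real.sqrt (ℓ / 2))) + 1.2 / B := by
    have h1 : ls K Node.root (fun t => 1 / (t.a * (rt Q t).den)) ≤
        ls K Node.root (fun t => ww Q B t + (1 / B) * AD t) := by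
      apply ls_mono
      intro w _
      set t := Node.root.desc w with ht
      have hap := t.a_pos
      have hbp := t.b_pos
      have hdp : (0 : ℝ) < (rt Q t).den := by exact_mod_cast (rt Q t).den_pos
      have hAD := AD_pos t
      by_cases h : ((rt Q t).den : ℝ) ≤ B * t.b
      · have : ww Q B t = 1 / (t.a * (rt Q t).den) := by unfold ww; rw [if_pos h]
        rw [this]
        have : 0 ≤ (1 / B) * AD t := by positivity
        linarith
      · have h2 := ww_nonneg Q B t
        push Not at h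
        have h3 : 1 / (t.a * (rt Q t).den) ≤ (1 / B) * AD t := by
          unfold AD
          rw [one_div_mul_one_div]
          apply one_div_le_one_div_of_le (by positivity)
          nlinarith
        linarith
    refine h1.trans ?_
    rw [ls_add, ls_mul]
    have h2 := claimC hp K [] (by simpa using hK)
    simp only [Node.desc_nil] at h2
    have h3 := CC_le K Node.root n2 hn2
    have h4 := ls_AD_le12 K
    have hn1 := hp.hn1
    have hℓ := hp.hℓ
    have hsq : 0 < Real.sqrt (ℓ / 2) := Real.sqrt_pos.2 (by linarith)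
    have hE : 0 < 3 / (n1 * Real.sqrt (ℓ / 2)) := by positivity
    have h5 : (1 + (CC K Node.root n2 : ℝ)) * (3 / (n1 * Real.sqrt (ℓ / 2))) ≤
        (1 + 2 * n2 ^ 2) * (3 / (n1 * Real.sqrt (ℓ / 2))) :=
      mul_le_mul_of_nonneg_right (by linarith) hE.le
    have h6 : 1 / B * ls K Node.root AD ≤ 1.2 / B := by
      have := mul_le_mul_of_nonneg_left h4 (show 0 ≤ 1 / B by positivity)
      refine this.trans (le_of_eq ?_)
      ring
    linarith
  have heAD := ls_eAD K
  have hAr1 := Ar_ge K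
  have hAr2 := Ar_le K
  have hr2 : 0 ≤ r ^ 2 := sq_nonneg r
  have hkey : |(NN K Node.root r : ℝ) + ls K Node.root (fun t => (NN m t r : ℝ)) - (Ar / 2 * r ^ 2 - c1 * r)|
      ≤ 4 * r ^ 2 * ls K Node.root (fun t => t.e * AD t)
        + 4 * r * ls K Node.root (fun t => 1 / (t.a * (rt Q t).den))
        + ls K Node.root (fun t => (rt Q t).den / 2 + t.a / t.b + 1) + 2 ^ K := by
    have hl := abs_le.1 hleaf
    rw [hmainsum] at hl
    have hc1 : c1 * r = r * (1 / 2 * ls K Node.root (fun t => 1 / t.a + 1 / t.b) - IS K Node.root) := by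
      unfold c1
      have : 1 / 2 * (1 / Node.root.a + 1 / Node.root.b)
        = 1 / 2 * ls K Node.root (fun t => 1 / t.a + 1 / t.b) - IS K Node.root := by linarith
      rw [this]; ring
    rw [hc1]
    have k1 : 0 ≤ r ^ 2 * (Ar - ls K Node.root AD) := mul_nonneg hr2 (by linarith)
    have k2 : r ^ 2 * (Ar - ls K Node.root AD) ≤ r ^ 2 * (2 * ls K Node.root (fun t => t.e * AD t)) :=
      mul_le_mul_of_nonneg_left (by linarith) hr2
    have h2k : (1 : ℝ) ≤ 2 ^ K := one_le_pow₀ (by norm_num)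
    rw [abs_le]
    constructor
    · linarith [hl.1]
    · linarith [hl.2]
  refine hkey.trans ?_
  have t1 : 4 * r ^ 2 * ls K Node.root (fun t => t.e * AD t) ≤ 3 * r ^ 2 * Real.exp (-1.8 * K) := by
    have := mul_le_mul_of_nonneg_left heAD (show 0 ≤ 4 * r ^ 2 by positivity)
    have h14 : 0 < Real.exp (-1.8 * (K : ℝ)) := Real.exp_pos _
    have : 0 ≤ r ^ 2 * Real.exp (-1.8 * (K : ℝ)) := by positivity
    linarith
  have t2 : 4 * r * ls K Node.root (fun t => 1 / (t.a * (rt Q t).den)) ≤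
      12 * r * (1 + 2 * n2 ^ 2) / (n1 * Real.sqrt (ℓ / 2)) + 5 * r / B := by
    have := mul_le_mul_of_nonneg_left hres (show 0 ≤ 4 * r by positivity)
    have e1 : 4 * r * ((1 + 2 * n2 ^ 2) * (3 / (n1 * Real.sqrt (ℓ / 2))) + 1.2 / B)
      = 12 * r * (1 + 2 * n2 ^ 2) / (n1 * Real.sqrt (ℓ / 2)) + 4.8 * r / B := by ring
    rw [e1] at this
    have e2 : 4.8 * r / B ≤ 5 * r / B := by
      apply div_le_div_of_nonneg_right _ hB0.le
      norm_num; linarith
    linarith
  have t3 : (2 : ℝ) ^ K ≤ Q * 3 ^ K := by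
    have h6 : (2 : ℝ) ^ K ≤ 3 ^ K := pow_le_pow_left₀ (by norm_num) (by norm_num) K
    have h5 : (0 : ℝ) < 3 ^ K := by positivity
    nlinarith
  linarith

end Pool.Agent.Hhelper88
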