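import Pool.Agent.Hhelper88.MkParams
import Pool.Agent.Lib.MobiusSum

set_option autoImplicit false

/-! Moebius inversion and Axer type arguments. -/

namespace Pool.Agent.Hhelper88

open Finset Filter Topology

/-- Moebius function as a real number -/
noncomputable def mu (n : ℕ) : ℝ := ((ArithmeticFunction.moebius n : ℤ) : ℝ)

/-- summatory function -/
noncomputable def Me (n : ℕ) : ℝ := ∑ k ∈ Ioc 0 n, mu k

lemma abs_mu_le (n : ℕ) : |mu n| ≤ 1 := by
  unfold mu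
  have h := ArithmeticFunction.abs_moebius_le_one (n := n)
  exact_mod_cast h

lemma Me_succ (n : ℕ) : Me (n + 1) = Me n + mu (n + 1) := by
  unfold Me
  rw [Finset.sum_Ioc_succ_top (by omega)]

lemma Me_small (δ : ℝ) (hδ : 0 < δ) : ∃ a0 : ℕ, ∀ d : ℕ, a0 ≤ d → |Me d| ≤ δ * d := by
  have h := Pool.Agent.Lib.MobiusSum.mertens_isLittleO
  have h2 := (Metric.tendsto_atTop.1 h) δ hδ
  obtain ⟨N, hN⟩ := h2
  refine ⟨N, fun d hd => ?_⟩
  have h3 := hN d hd
  have h4 : ∑ k ∈ Icc 1 d, ((ArithmeticFunction.moebius k : ℤ) : ℝ) = Me d := by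
    unfold Me mu
    rfl
  rw [h4, Real.dist_eq, sub_zero] at h3
  rcases Nat.eq_zero_or_pos d with h0 | h0
  · subst h0; simp [Me]
  · have hdR : (0 : ℝ) < d := by exact_mod_cast h0
    rw [abs_div, abs_of_pos hdR, div_lt_iff₀ hdR] at h3
    exact h3.le

lemma sum_mu_floor (N : ℕ) (hN : 1 ≤ N) : ∑ d ∈ Ioc 0 N, mu d * ((N / d : ℕ) : ℝ) = 1 := by
  have h := ArithmeticFunction.sum_Ioc_mul_zeta_eq_sum ArithmeticFunction.moebius N
  rw [ArithmeticFunction.moebius_mul_coe_zeta] at h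
  have h1 : ∑ n ∈ Ioc 0 N, (1 : ArithmeticFunction ℤ) n = 1 := by
    rw [Finset.sum_eq_single 1]
    · simp
    · intro b _ hb; exact ArithmeticFunction.one_apply_ne hb
    · intro h; exfalso; apply h; simp; omega
  rw [h1] at h
  have h2 : ((∑ n ∈ Ioc 0 N, ArithmeticFunction.moebius n * ((N / n : ℕ) : ℤ) : ℤ) : ℝ) = 1 := by
    rw [← h]; simp
  push_cast at h2
  exact h2

lemma sum_mu_floor' (N n : ℕ) (hn : N ≤ n) :
    ∑ d ∈ Ioc 0 n, mu d * ((N / d : ℕ) : ℝ) = if 1 ≤ N then 1 else 0 := by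
  have h1 : ∑ d ∈ Ioc 0 n, mu d * ((N / d : ℕ) : ℝ) = ∑ d ∈ Ioc 0 N, mu d * ((N / d : ℕ) : ℝ) := by
    symm
    apply Finset.sum_subset (Ioc_subset_Ioc_right hn)
    intro d hd hd2
    have : N < d := by
      simp only [mem_Ioc, not_and, not_le] at hd hd2
      exact hd2 hd.1
    rw [Nat.div_eq_of_lt this]; simp
  rw [h1]
  split_ifs with h
  · exact sum_mu_floor N h
  · have : N = 0 := by omega
    subst this; simp

/-- Moebius inversion for the tree counts -/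
lemma CC_inversion (k : ℕ) : ∀ (s : Node) (T : ℝ) (n : ℕ), 0 ≤ T → ⌊T⌋₊ ≤ n →
    (CC k s T : ℝ) = ∑ d ∈ Ioc 0 n, mu d * (NN k s (T / d) : ℝ) := by
  induction k with
  | zero => intro s T n _ _; simp [CC, NN]
  | succ k ih =>
    intro s T n hT hn
    simp only [CC, NN]
    push_cast
    rw [ih s.L T n hT hn, ih s.R T n hT hn]
    simp_rw [mul_add]
    rw [sum_add_distrib, sum_add_distrib]
    congr 2
    have hc := s.c_pos
    have hc1 : 1 ≤ s.c := by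
      have := s.c_ge_a; have := s.a_ge; norm_num at *; linarith
    have h1 : ∀ d ∈ Ioc 0 n, mu d * ((⌊T / d / s.c⌋₊ : ℕ) : ℝ) = mu d * ((⌊T / s.c⌋₊ / d : ℕ) : ℝ) := by
      intro d _
      have : T / d / s.c = T / s.c / d := by rw [div_div, div_div, mul_comm]
      rw [this, Nat.floor_div_natCast]
    rw [sum_congr rfl h1, sum_mu_floor' ⌊T / s.c⌋₊ n]
    · have : (1 ≤ ⌊T / s.c⌋₊) ↔ s.c ≤ T := by
        rw [Nat.one_le_floor_iff, one_le_div hc]
      simp only [this]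
    · refine le_trans (Nat.floor_le_floor ?_) hn
      exact div_le_self hT hc1

/-- discrete Abel summation -/
lemma abel_id (f : ℕ → ℝ) (a : ℕ) : ∀ b : ℕ, a ≤ b →
    ∑ d ∈ Ioc a b, mu d * f d = Me b * f (b + 1) - Me a * f (a + 1)
      + ∑ d ∈ Ioc a b, Me d * (f d - f (d + 1)) := by
  intro b hb
  induction b, hb using Nat.le_induction with
  | base => simp
  | succ b hb ih =>
    rw [Finset.sum_Ioc_succ_top (by omega), Finset.sum_Ioc_succ_top (by omega), ih, Me_succ]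
    ring

lemma abel_id2 (f : ℕ → ℝ) (a : ℕ) : ∀ b : ℕ, a ≤ b →
    ∑ d ∈ Ioc a b, (d : ℝ) * (f d - f (d + 1)) = ∑ d ∈ Ioc a b, f d + a * f (a + 1) - b * f (b + 1) := by
  intro b hb
  induction b, hb using Nat.le_induction with
  | base => simp
  | succ b hb ih =>
    rw [Finset.sum_Ioc_succ_top (by omega), Finset.sum_Ioc_succ_top (by omega), ih]
    push_cast
    ring

lemma abel_bound (f : ℕ → ℝ) (a b : ℕ) (hab : a ≤ b) (hf0 : ∀ d, a < d → 0 ≤ f d)
    (hf : ∀ d, a < d → f (d + 1) ≤ f d) (δ : ℝ) (hM : ∀ d, a ≤ d → |Me d| ≤ δ * d) :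
    |∑ d ∈ Ioc a b, mu d * f d| ≤ δ * (2 * a * f (a + 1) + ∑ d ∈ Ioc a b, f d) := by
  rw [abel_id f a b hab]
  have h1 : |∑ d ∈ Ioc a b, Me d * (f d - f (d + 1))| ≤ δ * ∑ d ∈ Ioc a b, (d : ℝ) * (f d - f (d + 1)) := by
    refine (abs_sum_le_sum_abs _ _).trans ?_
    rw [mul_sum]
    apply sum_le_sum
    intro d hd
    rw [mem_Ioc] at hd
    rw [abs_mul, abs_of_nonneg (sub_nonneg.2 (hf d hd.1)), ← mul_assoc]
    exact mul_le_mul_of_nonneg_right (hM d hd.1.le) (sub_nonneg.2 (hf d hd.1))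
  rw [abel_id2 f a b hab] at h1
  have h2 : |Me b * f (b + 1)| ≤ δ * b * f (b + 1) := by
    rw [abs_mul, abs_of_nonneg (hf0 (b + 1) (by omega))]
    exact mul_le_mul_of_nonneg_right (hM b hab) (hf0 (b + 1) (by omega))
  have h3 : |Me a * f (a + 1)| ≤ δ * a * f (a + 1) := by
    rw [abs_mul, abs_of_nonneg (hf0 (a + 1) (by omega))]
    exact mul_le_mul_of_nonneg_right (hM a le_rfl) (hf0 (a + 1) (by omega))
  calc |Me b * f (b + 1) - Me a * f (a + 1) + ∑ d ∈ Ioc a b, Me d * (f d - f (d + 1))|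
      ≤ |Me b * f (b + 1)| + |Me a * f (a + 1)| + |∑ d ∈ Ioc a b, Me d * (f d - f (d + 1))| := by
        refine (abs_add_le _ _).trans ?_
        linarith [abs_sub (Me b * f (b + 1)) (Me a * f (a + 1))]
    _ ≤ _ := by linarith

/-- bounded version -/
lemma abel_bound' (f : ℕ → ℝ) (a b : ℕ) (hab : a ≤ b) (hf0 : ∀ d, a < d → 0 ≤ f d)
    (hf : ∀ d, a < d → f (d + 1) ≤ f d) (δ : ℝ) (hδ : 0 ≤ δ) (hM : ∀ d, a ≤ d → |Me d| ≤ δ * d)
    (F : ℝ) (hF : f (a + 1) ≤ F) :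
    |∑ d ∈ Ioc a b, mu d * f d| ≤ 2 * δ * b * F := by
  refine (abel_bound f a b hab hf0 hf δ hM).trans ?_
  have h1 : ∀ d ∈ Ioc a b, f d ≤ F := by
    intro d hd
    rw [mem_Ioc] at hd
    refine le_trans ?_ hF
    obtain ⟨hd1, _⟩ := hd
    induction d, hd1 using Nat.le_induction with
    | base => exact le_rfl
    | succ d hd ih => exact (hf d hd).trans (ih (by omega))
  have h2 : ∑ d ∈ Ioc a b, f d ≤ (b - a) * F := by
    refine (sum_le_sum h1).trans ?_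
    rw [sum_const, nsmul_eq_mul, Nat.card_Ioc, Nat.cast_sub hab]
  have hF0 : 0 ≤ F := (hf0 (a + 1) (by omega)).trans hF
  have h3 : 2 * (a : ℝ) * f (a + 1) ≤ 2 * a * F := mul_le_mul_of_nonneg_left hF (by positivity)
  have h4 : (a : ℝ) ≤ b := by exact_mod_cast hab
  calc δ * (2 * a * f (a + 1) + ∑ d ∈ Ioc a b, f d) ≤ δ * (2 * a * F + (b - a) * F) :=
        mul_le_mul_of_nonneg_left (by linarith) hδ
    _ ≤ δ * (2 * b * F) := by
        apply mul_le_mul_of_nonneg_left _ hδ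
        nlinarith
    _ = 2 * δ * b * F := by ring

/-- `m(a) = ∑_{d ≤ a} μ(d)/d` -/
noncomputable def mm (n : ℕ) : ℝ := ∑ d ∈ Ioc 0 n, mu d / d

lemma mm_small (ε : ℝ) (hε : 0 < ε) : ∃ a0 : ℕ, ∀ n : ℕ, a0 ≤ n → |mm n| ≤ ε := by
  obtain ⟨σ, hσ⟩ := exists_nat_ge (max 1 (4 / ε))
  have hσ1 : (1 : ℝ) ≤ σ := (le_max_left _ _).trans hσ
  have hσ2 : 4 / ε ≤ σ := (le_max_right _ _).trans hσ
  have hσ0 : 0 < σ := by
    have : (0 : ℝ) < σ := by linarith
    exact_mod_cast this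
  set δ := ε / (8 * (σ + 1)) with hδ
  have hδ0 : 0 < δ := by positivity
  obtain ⟨a0, ha0⟩ := Me_small δ hδ0
  refine ⟨σ * (a0 + 1) + ⌈4 / ε⌉₊, fun n hn => ?_⟩
  have hnpos : 0 < n := by
    have : 0 < σ * (a0 + 1) := Nat.mul_pos hσ0 (by omega)
    omega
  have hnR : (0 : ℝ) < n := by exact_mod_cast hnpos
  set a := n / σ with ha
  have haa0 : a0 ≤ a := by
    rw [ha, Nat.le_div_iff_mul_le hσ0]
    have : a0 * σ ≤ σ * (a0 + 1) := by nlinarith
    omega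
  have han : a ≤ n := Nat.div_le_self _ _
  have haR : (a : ℝ) ≤ n / σ := Nat.cast_div_le
  have hna : (n : ℝ) < (a + 1) * σ := by
    have : n < (a + 1) * σ := by
      rw [ha, mul_comm]; exact Nat.lt_mul_div_succ n hσ0
    exact_mod_cast this
  have hsplit : ∀ f : ℕ → ℝ, ∑ d ∈ Ioc 0 n, f d = ∑ d ∈ Ioc 0 a, f d + ∑ d ∈ Ioc a n, f d := by
    intro f; rw [Finset.sum_Ioc_consecutive _ (Nat.zero_le _) han]
  -- n * m(n) = 1 + ∑ μ(d) {n/d}
  have h1 : (n : ℝ) * mm n = 1 + ∑ d ∈ Ioc 0 n, mu d * ((n : ℝ) / d - ((n / d : ℕ) : ℝ)) := by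
    have h2 := sum_mu_floor n hnpos
    rw [← h2, ← sum_add_distrib]
    unfold mm
    rw [mul_sum]
    apply sum_congr rfl
    intro d _
    ring
  have h3 : |∑ d ∈ Ioc 0 a, mu d * ((n : ℝ) / d - ((n / d : ℕ) : ℝ))| ≤ a := by
    refine (abs_sum_le_sum_abs _ _).trans ?_
    have : ∀ d ∈ Ioc 0 a, |mu d * ((n : ℝ) / d - ((n / d : ℕ) : ℝ))| ≤ 1 := by
      intro d hd
      rw [mem_Ioc] at hd
      have hdR : (0 : ℝ) < d := by exact_mod_cast hd.1
      rw [abs_mul]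
      have h5 : ((n / d : ℕ) : ℝ) ≤ (n : ℝ) / d := Nat.cast_div_le
      have h6 : (n : ℝ) / d < ((n / d : ℕ) : ℝ) + 1 := by
        rw [div_lt_iff₀ hdR]
        have : n < (n / d + 1) * d := by rw [mul_comm]; exact Nat.lt_mul_div_succ n hd.1
        exact_mod_cast this
      have h7 : |(n : ℝ) / d - ((n / d : ℕ) : ℝ)| ≤ 1 := by
        rw [abs_of_nonneg (by linarith)]; linarith
      calc |mu d| * |(n : ℝ) / d - ((n / d : ℕ) : ℝ)| ≤ 1 * 1 :=
            mul_le_mul (abs_mu_le d) h7 (abs_nonneg _) (by norm_num)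
        _ = 1 := by norm_num
    refine (sum_le_sum this).trans ?_
    simp
  have h4 : |∑ d ∈ Ioc a n, mu d * ((n : ℝ) / d)| ≤ 2 * δ * n * σ := by
    apply abel_bound' (fun d => (n : ℝ) / d) a n han _ _ δ hδ0.le (fun d hd => ha0 d (haa0.trans hd))
    · have : ((a + 1 : ℕ) : ℝ) = a + 1 := by push_cast; ring
      simp only [this]
      rw [div_le_iff₀ (by positivity)]
      linarith
    · intro d _; positivity
    · intro d hd
      have hdR : (0 : ℝ) < d := by exact_mod_cast (by omega : 0 < d)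
      apply div_le_div_of_nonneg_left hnR.le hdR
      push_cast; linarith
  have h5 : |∑ d ∈ Ioc a n, mu d * ((n / d : ℕ) : ℝ)| ≤ 2 * δ * n * σ := by
    apply abel_bound' (fun d => ((n / d : ℕ) : ℝ)) a n han _ _ δ hδ0.le (fun d hd => ha0 d (haa0.trans hd))
    · have h6 : ((n / (a + 1) : ℕ) : ℝ) ≤ (n : ℝ) / ((a + 1 : ℕ) : ℝ) := Nat.cast_div_le
      refine h6.trans ?_
      rw [div_le_iff₀ (by positivity)]
      push_cast
      linarith
    · intro d _; positivity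
    · intro d hd
      exact_mod_cast Nat.div_le_div_left (by omega) (by omega)
  have h6 : |(n : ℝ) * mm n| ≤ 1 + a + 4 * δ * n * σ := by
    rw [h1, hsplit]
    have h7 : ∑ d ∈ Ioc a n, mu d * ((n : ℝ) / d - ((n / d : ℕ) : ℝ))
      = ∑ d ∈ Ioc a n, mu d * ((n : ℝ) / d) - ∑ d ∈ Ioc a n, mu d * ((n / d : ℕ) : ℝ) := by
      rw [← sum_sub_distrib]
      apply sum_congr rfl
      intro d _; ring
    rw [h7]
    rw [abs_le] at h3 h4 h5 ⊢
    constructor <;> linarith [h3.1, h3.2, h4.1, h4.2, h5.1, h5.2]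
  rw [abs_mul, abs_of_pos hnR] at h6
  have h8 : (1 : ℝ) ≤ ε / 4 * n := by
    have h9 : 4 / ε ≤ n := by
      have : (⌈4 / ε⌉₊ : ℝ) ≤ n := by
        have : ⌈4 / ε⌉₊ ≤ n := by omega
        exact_mod_cast this
      exact (Nat.le_ceil _).trans this
    rw [div_le_iff₀ hε] at h9
    linarith
  have h9 : (a : ℝ) ≤ ε / 4 * n := by
    refine haR.trans ?_
    rw [div_le_iff₀ (by exact_mod_cast hσ0)]
    have : 4 ≤ ε * σ := by
      rw [div_le_iff₀ hε] at hσ2; linarith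
    nlinarith
  have h10 : 4 * δ * n * σ ≤ ε / 2 * n := by
    have : δ * σ ≤ ε / 8 := by
      rw [hδ, div_mul_eq_mul_div, div_le_div_iff₀ (by positivity) (by norm_num)]
      nlinarith
    nlinarith
  have h11 : (n : ℝ) * |mm n| ≤ n * ε := by linarith
  exact le_of_mul_le_mul_left h11 hnR

/-- `∑ μ(d)/d²` -/
noncomputable def Cmu : ℝ := ∑' d : ℕ, mu d / (d : ℝ) ^ 2

lemma summable_mu_sq : Summable (fun d : ℕ => mu d / (d : ℝ) ^ 2) := by
  apply Summable.of_norm_bounded (g := fun d : ℕ => 1 / (d : ℝ) ^ 2)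
    (Real.summable_one_div_nat_pow.2 (by norm_num))
  intro d
  rw [Real.norm_eq_abs, abs_div, abs_of_nonneg (by positivity : (0 : ℝ) ≤ (d : ℝ) ^ 2)]
  exact div_le_div_of_nonneg_right (abs_mu_le d) (by positivity)

lemma sum_inv_sq (a : ℕ) (ha : 1 ≤ a) : ∀ b : ℕ, a ≤ b →
    ∑ d ∈ Ioc a b, 1 / (d : ℝ) ^ 2 ≤ 1 / (a : ℝ) - 1 / (b : ℝ) := by
  intro b hb
  induction b, hb using Nat.le_induction with
  | base => simp
  | succ b hb ih =>
    rw [Finset.sum_Ioc_succ_top (by omega)]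
    have hbR : (1 : ℝ) ≤ b := by exact_mod_cast (ha.trans hb)
    have h1 : 1 / ((b + 1 : ℕ) : ℝ) ^ 2 ≤ 1 / b - 1 / ((b + 1 : ℕ) : ℝ) := by
      push_cast
      rw [div_sub_div _ _ (by positivity) (by positivity), div_le_div_iff₀ (by positivity) (by positivity)]
      nlinarith
    linarith

lemma Cmu_tail (δ : ℝ) (hδ : 0 < δ) : ∃ a0 : ℕ, 1 ≤ a0 ∧ ∀ a : ℕ, a0 ≤ a →
    |∑ d ∈ Ioc 0 a, mu d / (d : ℝ) ^ 2 - Cmu| ≤ 3 * δ / a := by
  obtain ⟨a0, ha0⟩ := Me_small δ hδ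
  refine ⟨a0 + 1, by omega, fun a ha => ?_⟩
  have haR : (1 : ℝ) ≤ a := by exact_mod_cast (by omega : 1 ≤ a)
  have hb : ∀ b : ℕ, a ≤ b → |∑ d ∈ Ioc 0 a, mu d / (d : ℝ) ^ 2 - ∑ d ∈ Ioc 0 b, mu d / (d : ℝ) ^ 2| ≤ 3 * δ / a := by
    intro b hb
    rw [abs_sub_comm, ← Finset.sum_Ioc_consecutive _ (Nat.zero_le _) hb, add_sub_cancel_left]
    have h1 := abel_bound (fun d => 1 / (d : ℝ) ^ 2) a b hb (fun d _ => by positivity) (fun d hd => by
      have hdR : (0 : ℝ) < d := by exact_mod_cast (by omega : 0 < d)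
      apply one_div_le_one_div_of_le (by positivity)
      push_cast
      nlinarith) δ (fun d hd => ha0 d (by omega))
    simp_rw [mul_one_div] at h1
    refine h1.trans ?_
    have h2 := sum_inv_sq a (by omega) b hb
    have h3 : 2 * (a : ℝ) / ((a + 1 : ℕ) : ℝ) ^ 2 ≤ 2 / a := by
      push_cast
      rw [div_le_div_iff₀ (by positivity) (by positivity)]
      nlinarith
    have h4 : (0 : ℝ) ≤ 1 / b := by positivity
    calc δ * (2 * (a : ℝ) / ((a + 1 : ℕ) : ℝ) ^ 2 + ∑ d ∈ Ioc a b, 1 / (d : ℝ) ^ 2)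
        ≤ δ * (2 / a + 1 / a) := mul_le_mul_of_nonneg_left (by linarith) hδ.le
      _ = 3 * δ / a := by ring
  have ht : Tendsto (fun b : ℕ => ∑ d ∈ Ioc 0 b, mu d / (d : ℝ) ^ 2) atTop (𝓝 Cmu) := by
    have h1 := summable_mu_sq.hasSum.tendsto_sum_nat
    have h2 := h1.comp (tendsto_add_atTop_nat 1)
    refine h2.congr (fun b => ?_)
    simp only [Function.comp]
    rw [Finset.range_eq_Ico, Finset.sum_eq_sum_Ico_succ_bot (by omega)]
    simp only [CharP.cast_eq_zero, ne_eq, OfNat.ofNat_ne_zero, not_false_eq_true, zero_pow, div_zero, zero_add]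
    rfl
  have ht2 := (tendsto_const_nhds (x := ∑ d ∈ Ioc 0 a, mu d / (d : ℝ) ^ 2)).sub ht |>.abs
  refine le_of_tendsto ht2 ?_
  filter_upwards [eventually_ge_atTop a] with b hb'
  exact hb b hb'

end Pool.Agent.Hhelper88
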