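import Mathlib

set_option autoImplicit false

/-! Markov nodes: triples `(x,y,z)` with `x²+y²+z²=3xyz`, `5xy ≤ 2z`. -/

namespace Pool.Agent.Hhelper88

/-- A node of the Markov tree. -/
structure Node where
  x : ℕ
  y : ℕ
  z : ℕ
  hx : 1 ≤ x
  hy : 1 ≤ y
  eq : x ^ 2 + y ^ 2 + z ^ 2 = 3 * x * y * z
  big : 5 * (x * y) ≤ 2 * z

namespace Node

lemma ext' {s t : Node} (h1 : s.x = t.x) (h2 : s.y = t.y) (h3 : s.z = t.z) : s = t := by
  cases s; cases t; simp at h1 h2 h3; subst h1 h2 h3; rfl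

lemma hz (s : Node) : 1 ≤ s.z := by
  have h := s.big
  have h1 : 1 ≤ s.x * s.y := Nat.mul_pos s.hx s.hy
  omega

lemma xy_ge_two (s : Node) : 2 ≤ s.x * s.y := by
  by_contra hlt
  have h1 : 1 ≤ s.x * s.y := Nat.mul_pos s.hx s.hy
  have h2 : s.x * s.y = 1 := by omega
  have hx1 : s.x = 1 := Nat.eq_one_of_mul_eq_one_right h2
  have hy1 : s.y = 1 := Nat.eq_one_of_mul_eq_one_left h2
  have he := s.eq
  have hb := s.big
  rw [hx1, hy1] at he hb
  have : 3 ≤ s.z := by omega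
  nlinarith

lemma five_le_z (s : Node) : 5 ≤ s.z := by
  have h := s.big
  have h1 := s.xy_ge_two
  omega

lemma y_lt_xz (s : Node) : 2 * s.y ≤ s.x * s.z := by
  have h := s.big
  have hx := s.hx
  have h1 : s.y ≤ s.x * s.y := Nat.le_mul_of_pos_left _ hx
  have h2 : s.z ≤ s.x * s.z := Nat.le_mul_of_pos_left _ hx
  omega

lemma x_lt_zy (s : Node) : 2 * s.x ≤ s.z * s.y := by
  have h := s.big
  have hy := s.hy
  have h1 : s.x ≤ s.x * s.y := Nat.le_mul_of_pos_right _ hy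
  have h2 : s.z ≤ s.z * s.y := Nat.le_mul_of_pos_right _ hy
  omega

/-- left child -/
def L (s : Node) : Node where
  x := s.x
  y := s.z
  z := 3 * s.x * s.z - s.y
  hx := s.hx
  hy := s.hz
  eq := by
    have h := s.y_lt_xz
    have he := s.eq
    obtain ⟨w, hw⟩ : ∃ w, 3 * s.x * s.z = w + s.y := ⟨3 * s.x * s.z - s.y, by nlinarith [Nat.sub_add_cancel (show s.y ≤ 3 * s.x * s.z by nlinarith)]⟩
    rw [hw, Nat.add_sub_cancel]
    nlinarith
  big := by
    have h := s.y_lt_xz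
    have : 3 * s.x * s.z = 3 * (s.x * s.z) := by ring
    omega

/-- right child -/
def R (s : Node) : Node where
  x := s.z
  y := s.y
  z := 3 * s.z * s.y - s.x
  hx := s.hz
  hy := s.hy
  eq := by
    have h := s.x_lt_zy
    have he := s.eq
    obtain ⟨w, hw⟩ : ∃ w, 3 * s.z * s.y = w + s.x := ⟨3 * s.z * s.y - s.x, by nlinarith [Nat.sub_add_cancel (show s.x ≤ 3 * s.z * s.y by nlinarith)]⟩
    rw [hw, Nat.add_sub_cancel]
    nlinarith
  big := by
    have h := s.x_lt_zy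
    have : 3 * s.z * s.y = 3 * (s.z * s.y) := by ring
    omega

/-- mirror image -/
def mir (s : Node) : Node where
  x := s.y
  y := s.x
  z := s.z
  hx := s.hy
  hy := s.hx
  eq := by have := s.eq; nlinarith
  big := by have := s.big; nlinarith

/-- the root `(1,2,5)` -/
def root : Node where
  x := 1
  y := 2
  z := 5
  hx := by norm_num
  hy := by norm_num
  eq := by norm_num
  big := by norm_num

end Node

/-- `lam n = (3n + √(9n²-4))/2`, so that `lam n + 1/lam n = 3n`. -/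
noncomputable def lam (n : ℕ) : ℝ := (3 * n + Real.sqrt (9 * n ^ 2 - 4)) / 2

lemma lam_sq (n : ℕ) (hn : 1 ≤ n) : lam n ^ 2 + 1 = 3 * n * lam n := by
  have hn' : (1 : ℝ) ≤ n := by exact_mod_cast hn
  have h : (0 : ℝ) ≤ 9 * n ^ 2 - 4 := by nlinarith
  have hs := Real.mul_self_sqrt h
  unfold lam
  nlinarith

lemma lam_gt (n : ℕ) (hn : 1 ≤ n) : (3 / 2 : ℝ) * n < lam n := by
  have hn' : (1 : ℝ) ≤ n := by exact_mod_cast hn
  have h : (0 : ℝ) < 9 * n ^ 2 - 4 := by nlinarith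
  have hs := Real.sqrt_pos.2 h
  unfold lam
  linarith

lemma lam_pos (n : ℕ) (hn : 1 ≤ n) : 0 < lam n := by
  have hn' : (1 : ℝ) ≤ n := by exact_mod_cast hn
  have := lam_gt n hn
  linarith

lemma lam_add_inv (n : ℕ) (hn : 1 ≤ n) : lam n + (lam n)⁻¹ = 3 * n := by
  have h1 := lam_pos n hn
  have h2 := lam_sq n hn
  field_simp
  linarith

lemma lam_mono {m n : ℕ} (hm : 1 ≤ m) (h : m ≤ n) : lam m ≤ lam n := by
  have hm' : (1 : ℝ) ≤ m := by exact_mod_cast hm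
  have h' : (m : ℝ) ≤ n := by exact_mod_cast h
  unfold lam
  have : Real.sqrt (9 * m ^ 2 - 4) ≤ Real.sqrt (9 * n ^ 2 - 4) := by
    apply Real.sqrt_le_sqrt
    nlinarith
  linarith

lemma lam_one : (2.618 : ℝ) ≤ lam 1 := by
  unfold lam
  have : (2.236 : ℝ) ≤ Real.sqrt (9 * ((1 : ℕ) : ℝ) ^ 2 - 4) := by
    apply Real.le_sqrt_of_sq_le
    norm_num
  linarith [show ((1 : ℕ) : ℝ) = 1 by norm_num]

lemma lam_two : (5.828 : ℝ) ≤ lam 2 := by
  unfold lam
  have : (5.656 : ℝ) ≤ Real.sqrt (9 * ((2 : ℕ) : ℝ) ^ 2 - 4) := by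
    apply Real.le_sqrt_of_sq_le
    norm_num
  linarith [show ((2 : ℕ) : ℝ) = 2 by norm_num]

lemma lam_five : (14.93 : ℝ) ≤ lam 5 := by
  unfold lam
  have : (14.86 : ℝ) ≤ Real.sqrt (9 * ((5 : ℕ) : ℝ) ^ 2 - 4) := by
    apply Real.le_sqrt_of_sq_le
    norm_num
  linarith [show ((5 : ℕ) : ℝ) = 5 by norm_num]

lemma one_lt_lam (n : ℕ) (hn : 1 ≤ n) : 1 < lam n := by
  have := lam_mono (le_refl 1) hn
  have := lam_one
  linarith

/-- `hh n = log (lam n)`, so `3 n = 2 cosh (hh n)`. -/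
noncomputable def hh (n : ℕ) : ℝ := Real.log (lam n)

lemma exp_hh (n : ℕ) (hn : 1 ≤ n) : Real.exp (hh n) = lam n := Real.exp_log (lam_pos n hn)

lemma hh_mono {m n : ℕ} (hm : 1 ≤ m) (h : m ≤ n) : hh m ≤ hh n :=
  Real.log_le_log (lam_pos m hm) (lam_mono hm h)

end Pool.Agent.Hhelper88
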