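import Pool.Agent.Hhelper88.MkMain

set_option autoImplicit false

/-! Choice of parameters. -/

namespace Pool.Agent.Hhelper88

open Filter Topology

lemma tend_pow_exp (n : ℕ) (c : ℝ) (hc : 0 < c) :
    Tendsto (fun R : ℝ => R ^ n * Real.exp (-c * R)) atTop (𝓝 0) := by
  have h := (Real.tendsto_pow_mul_exp_neg_atTop_nhds_zero n).comp
    (tendsto_id.const_mul_atTop hc)
  have h2 := h.const_mul ((1 / c) ^ n)
  rw [mul_zero] at h2
  refine h2.congr (fun R => ?_)
  simp only [Function.comp, id]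
  rw [mul_pow, ← mul_assoc, ← mul_assoc, ← mul_pow]
  have : 1 / c * c = 1 := by field_simp
  rw [this, one_pow, one_mul]
  congr 2; ring

lemma sq_le_exp (S : ℝ) (hS : 0 ≤ S) : S ^ 2 ≤ Real.exp S := by
  have h1 : S / 2 ≤ Real.exp (S / 2) / Real.exp 1 := by
    have h2 := Real.add_one_le_exp (S / 2 - 1)
    rw [Real.exp_sub] at h2
    linarith
  have h3 : (2 : ℝ) < Real.exp 1 := by have := Real.exp_one_gt_d9; linarith
  have h4 : S ≤ Real.exp (S / 2) := by
    have h5 : S / 2 * Real.exp 1 ≤ Real.exp (S / 2) := by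
      rwa [le_div_iff₀ (Real.exp_pos 1)] at h1
    nlinarith
  calc S ^ 2 ≤ Real.exp (S / 2) ^ 2 := pow_le_pow_left₀ hS h4 2
    _ = Real.exp S := by rw [← Real.exp_nat_mul]; congr 1; push_cast; ring

lemma params_eventually : ∀ᶠ R : ℝ in atTop,
    Params (Real.exp (R / 8)) (R ^ 2) (R / 16 - 1) (4 * Real.log R + 5) (R / 200) := by
  -- elementary asymptotics
  have f1 : ∀ᶠ R : ℝ in atTop, (32 : ℝ) ≤ R := eventually_ge_atTop _
  have f2 : ∀ᶠ R : ℝ in atTop, R ^ 3 * Real.exp (-(1 / 8) * R) < 0.4 :=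
    (tend_pow_exp 3 (1 / 8) (by norm_num)).eventually (gt_mem_nhds (by norm_num))
  have f3 : ∀ᶠ R : ℝ in atTop, R ^ 2 * Real.exp (-(1 / 40) * R) < 1 / 2000 :=
    (tend_pow_exp 2 (1 / 40) (by norm_num)).eventually (gt_mem_nhds (by norm_num))
  have f4 : ∀ᶠ R : ℝ in atTop, 4 * Real.log R + 5 ≤ R / 16 - 1 := by
    have h := Real.isLittleO_log_id_atTop.def (show (0 : ℝ) < 1 / 128 by norm_num)
    filter_upwards [h, eventually_ge_atTop (192 : ℝ)] with R h1 h2
    rw [Real.norm_eq_abs, Real.norm_eq_abs, id, abs_of_nonneg (by linarith : (0 : ℝ) ≤ R)] at h1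
    have := le_abs_self (Real.log R)
    linarith
  filter_upwards [f1, f2, f3, f4] with R h1 h2 h3 h4
  have hR0 : 0 < R := by linarith
  have hlogR : 0 ≤ Real.log R := Real.log_nonneg (by linarith)
  have hQinv : 1 / Real.exp (R / 8) = Real.exp (-(1 / 8) * R) := by
    rw [one_div, ← Real.exp_neg]; congr 1; ring
  have hSb : ∀ s : Node, 0 ≤ s.a + s.b := fun s => by
    have := s.a_pos; have := s.b_pos; linarith
  refine ⟨?_, ?_, ?_, by positivity, h4, ?_, ?_, ?_⟩
  · have h5 : (4 : ℝ) ≤ R / 8 := by linarith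
    have h6 := Real.quadratic_le_exp_of_nonneg (show (0 : ℝ) ≤ R / 8 by linarith)
    nlinarith
  · nlinarith
  · linarith
  · intro s hs
    rw [hQinv]
    have he := s.e_le_exp
    have hep := s.e_pos
    set S := s.a + s.b with hS
    have hS0 : 0 ≤ S := hSb s
    have hSS : S * Real.exp (-2 * S) ≤ Real.exp (-S) := by
      have h5 : S ≤ Real.exp S := by have := Real.add_one_le_exp S; linarith
      have h6 : Real.exp (-2 * S) = Real.exp (-S) * Real.exp (-S) := by
        rw [← Real.exp_add]; congr 1; ring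
      rw [h6, ← mul_assoc]
      have h7 : S * Real.exp (-S) ≤ 1 := by
        calc S * Real.exp (-S) ≤ Real.exp S * Real.exp (-S) :=
              mul_le_mul_of_nonneg_right h5 (Real.exp_pos _).le
          _ = 1 := by rw [← Real.exp_add]; simp
      exact mul_le_of_le_one_left (Real.exp_pos _).le h7
    have hexpS : Real.exp (-S) ≤ Real.exp 1 * Real.exp (-(1 / 16) * R) := by
      rw [← Real.exp_add, Real.exp_le_exp]; linarith
    have heS : s.e * S ≤ 5.2 * (Real.exp 1 * Real.exp (-(1 / 16) * R)) := by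
      calc s.e * S ≤ (5.2 * Real.exp (-2 * S)) * S := mul_le_mul_of_nonneg_right he hS0
        _ = 5.2 * (S * Real.exp (-2 * S)) := by ring
        _ ≤ 5.2 * Real.exp (-S) := by linarith
        _ ≤ _ := by linarith
    have hR2 : 0 < R ^ 2 := by positivity
    have e1 : 20 / 3 * s.e * R ^ 2 * S ≤ 20 / 3 * R ^ 2 * (5.2 * (Real.exp 1 * Real.exp (-(1 / 16) * R))) := by
      calc 20 / 3 * s.e * R ^ 2 * S = 20 / 3 * R ^ 2 * (s.e * S) := by ring
        _ ≤ _ := mul_le_mul_of_nonneg_left heS (by positivity)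
    have hexp1 : Real.exp 1 < 2.7182818286 := Real.exp_one_lt_d9
    -- R² e^{-R/16} = (R² e^{-R/40}) e^{-0.0375 R}
    have e2 : Real.exp (-(1 / 16) * R) = Real.exp (-(1 / 40) * R) * Real.exp (-(3 / 80) * R) := by
      rw [← Real.exp_add]; congr 1; ring
    have e3 : Real.exp (-(3 / 80) * R) ≤ Real.exp (-6 * (R / 200)) := by
      rw [Real.exp_le_exp]; linarith
    have e4 : Real.exp (-(1 / 8) * R) ≤ 1 / 40 * Real.exp (-6 * (R / 200)) := by
      have : Real.exp (-(1 / 8) * R) = Real.exp (-(19 / 200) * R) * Real.exp (-6 * (R / 200)) := by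
        rw [← Real.exp_add]; congr 1; ring
      rw [this]
      apply mul_le_mul_of_nonneg_right _ (Real.exp_pos _).le
      have h8 : Real.exp (-(19 / 200) * R) ≤ R ^ 2 * Real.exp (-(1 / 40) * R) := by
        have h9 : Real.exp (-(19 / 200) * R) ≤ Real.exp (-(1 / 40) * R) := by
          rw [Real.exp_le_exp]; linarith
        have h10 : (1 : ℝ) ≤ R ^ 2 := by nlinarith
        have := Real.exp_pos (-(1 / 40) * R)
        nlinarith
      linarith
    have e5 : 20 / 3 * R ^ 2 * (5.2 * (Real.exp 1 * Real.exp (-(1 / 16) * R))) ≤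
        1 / 10 * Real.exp (-6 * (R / 200)) := by
      rw [e2]
      have h11 : 20 / 3 * R ^ 2 * (5.2 * (Real.exp 1 * (Real.exp (-(1 / 40) * R) * Real.exp (-(3 / 80) * R))))
        = (20 / 3 * 5.2 * Real.exp 1) * (R ^ 2 * Real.exp (-(1 / 40) * R)) * Real.exp (-(3 / 80) * R) := by ring
      rw [h11]
      have h12 : (20 / 3 * 5.2 * Real.exp 1) ≤ 100 := by norm_num at hexp1 ⊢; linarith
      have h13 : 0 ≤ R ^ 2 * Real.exp (-(1 / 40) * R) := by positivity
      have h14 : (20 / 3 * 5.2 * Real.exp 1) * (R ^ 2 * Real.exp (-(1 / 40) * R)) ≤ 1 / 10 := by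
        calc (20 / 3 * 5.2 * Real.exp 1) * (R ^ 2 * Real.exp (-(1 / 40) * R))
            ≤ 100 * (R ^ 2 * Real.exp (-(1 / 40) * R)) := mul_le_mul_of_nonneg_right h12 h13
          _ ≤ 1 / 10 := by linarith
      exact mul_le_mul h14 e3 (Real.exp_pos _).le (by norm_num)
    linarith
  · intro s hs1 hs2
    rw [hQinv]
    have he := s.e_le_exp
    have hep := s.e_pos
    set S := s.a + s.b with hS
    have hS0 : 0 ≤ S := hSb s
    have p1 : 4 * R ^ 2 * S * Real.exp (-(1 / 8) * R) < 0.4 := by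
      have : 4 * R ^ 2 * S ≤ R ^ 3 := by
        have : S ≤ R / 16 := by linarith
        have h5 : 0 < R ^ 2 := by positivity
        nlinarith
      have h6 := mul_le_mul_of_nonneg_right this (Real.exp_pos (-(1 / 8) * R)).le
      linarith
    have p2 : S ^ 2 * Real.exp (-2 * S) ≤ Real.exp (-S) := by
      have h5 := sq_le_exp S hS0
      have h6 : Real.exp (-2 * S) = Real.exp (-S) * Real.exp (-S) := by
        rw [← Real.exp_add]; congr 1; ring
      rw [h6, ← mul_assoc]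
      have h7 : S ^ 2 * Real.exp (-S) ≤ 1 := by
        calc S ^ 2 * Real.exp (-S) ≤ Real.exp S * Real.exp (-S) :=
              mul_le_mul_of_nonneg_right h5 (Real.exp_pos _).le
          _ = 1 := by rw [← Real.exp_add]; simp
      exact mul_le_of_le_one_left (Real.exp_pos _).le h7
    have p3 : Real.exp (-S) ≤ Real.exp (-5) * (1 / R ^ 4) := by
      have h5 : Real.exp (-(4 * Real.log R + 5)) = Real.exp (-5) * (1 / R ^ 4) := by
        have : -(4 * Real.log R + 5) = -5 + -(((4 : ℕ) : ℝ) * Real.log R) := by push_cast; ring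
        rw [this, Real.exp_add, Real.exp_neg (((4 : ℕ) : ℝ) * Real.log R), Real.exp_nat_mul, Real.exp_log hR0,
          one_div]
      rw [← h5, Real.exp_le_exp]; linarith
    have p4 : Real.exp (-5) ≤ 1 / 140 := by
      rw [Real.exp_neg, inv_eq_one_div]
      apply one_div_le_one_div_of_le (by norm_num)
      have h5 : Real.exp 5 = Real.exp 1 ^ 5 := by rw [← Real.exp_nat_mul]; norm_num
      rw [h5]
      have h6 := Real.exp_one_gt_d9
      calc (140 : ℝ) ≤ 2.7 ^ 5 := by norm_num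
        _ ≤ Real.exp 1 ^ 5 := pow_le_pow_left₀ (by norm_num) (by linarith) 5
    have p5 : 4 * R ^ 2 * S * (10 / 3 * s.e * R ^ 2 * S) ≤ 0.5 := by
      have h5 : s.e * S ^ 2 ≤ 5.2 * (1 / 140 * (1 / R ^ 4)) := by
        calc s.e * S ^ 2 ≤ (5.2 * Real.exp (-2 * S)) * S ^ 2 := mul_le_mul_of_nonneg_right he (sq_nonneg S)
          _ = 5.2 * (S ^ 2 * Real.exp (-2 * S)) := by ring
          _ ≤ 5.2 * Real.exp (-S) := by linarith
          _ ≤ 5.2 * (Real.exp (-5) * (1 / R ^ 4)) := by linarith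
          _ ≤ 5.2 * (1 / 140 * (1 / R ^ 4)) := by
            apply mul_le_mul_of_nonneg_left _ (by norm_num)
            exact mul_le_mul_of_nonneg_right p4 (by positivity)
      calc 4 * R ^ 2 * S * (10 / 3 * s.e * R ^ 2 * S) = 40 / 3 * R ^ 4 * (s.e * S ^ 2) := by ring
        _ ≤ 40 / 3 * R ^ 4 * (5.2 * (1 / 140 * (1 / R ^ 4))) := mul_le_mul_of_nonneg_left h5 (by positivity)
        _ = 40 / 3 * 5.2 / 140 := by field_simp
        _ ≤ 0.5 := by norm_num
    have e6 : 4 * R ^ 2 * S * (Real.exp (-(1 / 8) * R) + 10 / 3 * s.e * R ^ 2 * S)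
      = 4 * R ^ 2 * S * Real.exp (-(1 / 8) * R) + 4 * R ^ 2 * S * (10 / 3 * s.e * R ^ 2 * S) := by ring
    rw [e6]
    norm_num at p1 p5 ⊢
    linarith
  · rw [hQinv]
    have e1 : Real.exp (-2 * (R / 16 - 1)) = Real.exp 1 ^ 2 * Real.exp (-(1 / 8) * R) := by
      rw [← Real.exp_nat_mul, ← Real.exp_add]; congr 1; push_cast; ring
    rw [e1]
    have h6 := Real.exp_one_gt_d9
    have h7 : (7 : ℝ) ≤ Real.exp 1 ^ 2 := by nlinarith
    have h8 := Real.exp_pos (-(1 / 8) * R)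
    have h9 : 7 * Real.exp (-(1 / 8) * R) ≤ Real.exp 1 ^ 2 * Real.exp (-(1 / 8) * R) :=
      mul_le_mul_of_nonneg_right h7 h8.le
    norm_num at h8 h9 ⊢
    linarith

/-- `(★)`: the main asymptotic. -/
theorem star : ∃ R0 : ℝ, 2 ≤ R0 ∧ ∀ r : ℝ, 0 < r → R0 ≤ Real.log r → ∀ M : ℕ, 2 * r ≤ M →
    |(NN M Node.root r : ℝ) - (Ar / 2 * r ^ 2 - c1 * r)| ≤ r * (Real.log r) ^ (-(5 / 4 : ℝ)) := by
  -- final numeric estimate
  have g1 : ∀ᶠ R : ℝ in atTop, R ^ 2 * Real.exp (-(1 / 5) * R) < 1 / 24 :=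
    (tend_pow_exp 2 (1 / 5) (by norm_num)).eventually (gt_mem_nhds (by norm_num))
  have g2 : ∀ᶠ R : ℝ in atTop, R ^ 2 * Real.exp (-(7 / 50) * R) < 1 / 200 :=
    (tend_pow_exp 2 (7 / 50) (by norm_num)).eventually (gt_mem_nhds (by norm_num))
  have g3 : ∀ᶠ R : ℝ in atTop, 4 * Real.log R + 5 ≤ R ^ (1 / 16 : ℝ) := by
    have h := (isLittleO_log_rpow_atTop (show (0 : ℝ) < 1 / 16 by norm_num)).def
      (show (0 : ℝ) < 1 / 8 by norm_num)
    have h2 : ∀ᶠ R : ℝ in atTop, (10 : ℝ) ≤ R ^ (1 / 16 : ℝ) :=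
      (tendsto_rpow_atTop (by norm_num : (0 : ℝ) < 1 / 16)).eventually_ge_atTop 10
    filter_upwards [h, h2, eventually_ge_atTop (1 : ℝ)] with R h1 h2 h3
    rw [Real.norm_eq_abs, Real.norm_eq_abs, abs_of_nonneg (Real.rpow_nonneg (by linarith) _)] at h1
    have := le_abs_self (Real.log R)
    linarith
  have g4 : ∀ᶠ R : ℝ in atTop, (100000 : ℝ) ≤ R ^ (1 / 8 : ℝ) :=
    (tendsto_rpow_atTop (by norm_num : (0 : ℝ) < 1 / 8)).eventually_ge_atTop _
  have g5 : ∀ᶠ R : ℝ in atTop, (20 : ℝ) ≤ R ^ (3 / 4 : ℝ) :=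
    (tendsto_rpow_atTop (by norm_num : (0 : ℝ) < 3 / 4)).eventually_ge_atTop _
  obtain ⟨R0, hR0⟩ := (params_eventually.and (g1.and (g2.and (g3.and (g4.and g5))))).exists_forall_of_atTop
  refine ⟨max R0 64, le_max_of_le_right (by norm_num), ?_⟩
  intro r hr hlog M hM
  set R := Real.log r with hRdef
  obtain ⟨hp, h1, h2, h3, h4, h5⟩ := hR0 R ((le_max_left _ _).trans hlog)
  have hR64 : 64 ≤ R := (le_max_right _ _).trans hlog
  have hRpos : 0 < R := by linarith
  have hrexp : r = Real.exp R := (Real.exp_log hr).symm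
  have hrR : R + 1 ≤ r := by rw [hrexp]; exact Real.add_one_le_exp R
  set K := ⌈2 / 3 * R⌉₊ with hK
  have hK1 : 2 / 3 * R ≤ K := Nat.le_ceil _
  have hK2 : (K : ℝ) < 2 / 3 * R + 1 := Nat.ceil_lt_add_one (by positivity)
  have hKM : K ≤ M := by
    have : (K : ℝ) ≤ M := by linarith
    exact_mod_cast this
  obtain ⟨m, rfl⟩ := Nat.exists_eq_add_of_le hKM
  have hm : r < 0.9 * m := by
    push_cast at hM
    have : (m : ℝ) ≥ 2 * r - K := by linarith
    norm_num
    linarith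
  have hest := main_est hp (by have := Real.log_nonneg (show (1 : ℝ) ≤ R by linarith); linarith) K m (by
    have := Node.root.ab_ge
    norm_num at this ⊢
    linarith) r hr.le hm
  refine hest.trans ?_
  -- rpow facts
  set P := R ^ (-(5 / 4 : ℝ)) with hP
  have hPpos : 0 < P := Real.rpow_pos_of_pos hRpos _
  have hP2 : 1 / R ^ 2 ≤ P := by
    have : (1 : ℝ) / R ^ 2 = R ^ (-(2 : ℝ)) := by
      rw [Real.rpow_neg hRpos.le, one_div]; norm_cast
    rw [this]
    apply Real.rpow_le_rpow_of_exponent_le (by linarith) (by norm_num)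
  -- T1
  have T1 : 3 * r ^ 2 * Real.exp (-1.8 * K) ≤ 1 / 8 * (r * P) := by
    have e1 : Real.exp (-1.8 * K) ≤ Real.exp (-(6 / 5) * R) := by
      rw [Real.exp_le_exp]; norm_num; linarith
    have e2 : r * Real.exp (-(6 / 5) * R) = Real.exp (-(1 / 5) * R) := by
      rw [hrexp, ← Real.exp_add]; congr 1; ring
    have e3 : R ^ 2 * Real.exp (-(1 / 5) * R) ≤ 1 / 24 := h1.le
    have e4 : Real.exp (-(1 / 5) * R) ≤ 1 / 24 * (1 / R ^ 2) := by
      rw [mul_one_div, le_div_iff₀ (by positivity)]; linarith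
    calc 3 * r ^ 2 * Real.exp (-1.8 * K) ≤ 3 * r ^ 2 * Real.exp (-(6 / 5) * R) :=
          mul_le_mul_of_nonneg_left e1 (by positivity)
      _ = 3 * r * (r * Real.exp (-(6 / 5) * R)) := by ring
      _ = 3 * r * Real.exp (-(1 / 5) * R) := by rw [e2]
      _ ≤ 3 * r * (1 / 24 * (1 / R ^ 2)) := mul_le_mul_of_nonneg_left e4 (by positivity)
      _ ≤ 3 * r * (1 / 24 * P) := by
        apply mul_le_mul_of_nonneg_left _ (by positivity)
        apply mul_le_mul_of_nonneg_left hP2 (by norm_num)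
      _ = 1 / 8 * (r * P) := by ring
  -- T2
  have T2 : 4 * Real.exp (R / 8) * 3 ^ K ≤ 1 / 8 * (r * P) := by
    have hlog3 : Real.log 3 ≤ 1.1 := by
      rw [Real.log_le_iff_le_exp (by norm_num)]
      have h6 := Real.exp_one_gt_d9
      have h7 : Real.exp 1.1 = Real.exp 1 * Real.exp 0.1 := by rw [← Real.exp_add]; norm_num
      have h8 := Real.quadratic_le_exp_of_nonneg (show (0 : ℝ) ≤ 0.1 by norm_num)
      rw [h7]
      have h9 : (1.105 : ℝ) ≤ Real.exp 0.1 := by norm_num at h8 ⊢; linarith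
      calc (3 : ℝ) ≤ 2.7182818283 * 1.105 := by norm_num
        _ ≤ Real.exp 1 * Real.exp 0.1 := mul_le_mul h6.le h9 (by norm_num) (by positivity)
    have e1 : (3 : ℝ) ^ K ≤ Real.exp (1.1 + 11 / 15 * R) := by
      have : (3 : ℝ) ^ K = Real.exp (K * Real.log 3) := by
        rw [Real.exp_nat_mul, Real.exp_log (by norm_num)]
      rw [this, Real.exp_le_exp]
      have h0 : 0 ≤ Real.log 3 := Real.log_nonneg (by norm_num)
      calc (K : ℝ) * Real.log 3 ≤ K * 1.1 := mul_le_mul_of_nonneg_left hlog3 (by positivity)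
        _ ≤ (2 / 3 * R + 1) * 1.1 := mul_le_mul_of_nonneg_right hK2.le (by norm_num)
        _ = 1.1 + 11 / 15 * R := by ring
    have e2 : Real.exp (1.1 : ℝ) ≤ 4 := by
      have h6 := Real.exp_one_lt_d9
      have h7 : Real.exp 1.1 = Real.exp 1 * Real.exp 0.1 := by rw [← Real.exp_add]; norm_num
      have h8 : Real.exp 0.1 ≤ 1.2 := by
        have := Real.abs_exp_sub_one_le (x := 0.1) (by norm_num)
        have := abs_le.1 this
        norm_num at this ⊢; linarith [this.2]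
      rw [h7]
      calc Real.exp 1 * Real.exp 0.1 ≤ 2.7182818286 * 1.2 :=
            mul_le_mul h6.le h8 (Real.exp_pos _).le (by norm_num)
        _ ≤ 4 := by norm_num
    have e3 : Real.exp (R / 8) * Real.exp (1.1 + 11 / 15 * R) ≤ 4 * (r * Real.exp (-(7 / 50) * R)) := by
      rw [Real.exp_add]
      have : Real.exp (R / 8) * (Real.exp 1.1 * Real.exp (11 / 15 * R))
        = Real.exp 1.1 * (Real.exp (R / 8) * Real.exp (11 / 15 * R)) := by ring
      rw [this]
      apply mul_le_mul e2 _ (by positivity) (by norm_num)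
      rw [hrexp, ← Real.exp_add, ← Real.exp_add, Real.exp_le_exp]
      linarith
    have e4 : Real.exp (-(7 / 50) * R) ≤ 1 / 200 * (1 / R ^ 2) := by
      rw [mul_one_div, le_div_iff₀ (by positivity)]; linarith
    calc 4 * Real.exp (R / 8) * 3 ^ K ≤ 4 * Real.exp (R / 8) * Real.exp (1.1 + 11 / 15 * R) :=
          mul_le_mul_of_nonneg_left e1 (by positivity)
      _ = 4 * (Real.exp (R / 8) * Real.exp (1.1 + 11 / 15 * R)) := by ring
      _ ≤ 4 * (4 * (r * Real.exp (-(7 / 50) * R))) := by linarith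
      _ ≤ 4 * (4 * (r * (1 / 200 * (1 / R ^ 2)))) := by
        apply mul_le_mul_of_nonneg_left _ (by norm_num)
        apply mul_le_mul_of_nonneg_left _ (by norm_num)
        exact mul_le_mul_of_nonneg_left e4 hr.le
      _ ≤ 4 * (4 * (r * (1 / 200 * P))) := by
        apply mul_le_mul_of_nonneg_left _ (by norm_num)
        apply mul_le_mul_of_nonneg_left _ (by norm_num)
        apply mul_le_mul_of_nonneg_left _ hr.le
        exact mul_le_mul_of_nonneg_left hP2 (by norm_num)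
      _ ≤ 1 / 8 * (r * P) := by
        have : 0 < r * P := by positivity
        linarith
  -- T3
  have T3 : 12 * r * (1 + 2 * (4 * Real.log R + 5) ^ 2) / ((R / 16 - 1) * Real.sqrt (R / 200 / 2)) ≤
      1 / 2 * (r * P) := by
    have hlogR : 0 ≤ Real.log R := Real.log_nonneg (by linarith)
    have e1 : (4 * Real.log R + 5) ^ 2 ≤ R ^ (1 / 8 : ℝ) := by
      have : R ^ (1 / 8 : ℝ) = (R ^ (1 / 16 : ℝ)) ^ 2 := by
        rw [← Real.rpow_natCast, ← Real.rpow_mul hRpos.le]; norm_num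
      rw [this]
      exact pow_le_pow_left₀ (by linarith) h3 2
    have e2 : Real.sqrt (R / 200 / 2) = R ^ (1 / 2 : ℝ) / 20 := by
      rw [← Real.sqrt_eq_rpow]
      have : R / 200 / 2 = R / 20 ^ 2 := by ring
      rw [this, Real.sqrt_div hRpos.le, Real.sqrt_sq (by norm_num)]
    have e3 : R / 32 ≤ R / 16 - 1 := by linarith
    have hR12 : 0 < R ^ (1 / 2 : ℝ) := Real.rpow_pos_of_pos hRpos _
    have hR18 : 0 < R ^ (1 / 8 : ℝ) := Real.rpow_pos_of_pos hRpos _
    rw [e2]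
    have e4 : 12 * r * (1 + 2 * (4 * Real.log R + 5) ^ 2) ≤ 12 * r * (3 * R ^ (1 / 8 : ℝ)) := by
      apply mul_le_mul_of_nonneg_left _ (by positivity)
      linarith
    have e5 : 12 * r * (1 + 2 * (4 * Real.log R + 5) ^ 2) / ((R / 16 - 1) * (R ^ (1 / 2 : ℝ) / 20)) ≤
        12 * r * (3 * R ^ (1 / 8 : ℝ)) / ((R / 32) * (R ^ (1 / 2 : ℝ) / 20)) := by
      apply div_le_div₀ (by positivity) e4 (by positivity)
      exact mul_le_mul_of_nonneg_right e3 (by positivity)
    refine e5.trans ?_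
    have e6 : 12 * r * (3 * R ^ (1 / 8 : ℝ)) / ((R / 32) * (R ^ (1 / 2 : ℝ) / 20))
      = r * (23040 * (R ^ (1 / 8 : ℝ) / (R * R ^ (1 / 2 : ℝ)))) := by
      field_simp; ring
    rw [e6]
    have e7 : R ^ (1 / 8 : ℝ) / (R * R ^ (1 / 2 : ℝ)) = P * (1 / R ^ (1 / 8 : ℝ)) := by
      have i1 : 1 / R ^ (1 / 8 : ℝ) = R ^ (-(1 / 8 : ℝ)) := by
        rw [Real.rpow_neg hRpos.le]; exact one_div _
      rw [hP, i1, ← Real.rpow_add hRpos]
      have : R * R ^ (1 / 2 : ℝ) = R ^ (3 / 2 : ℝ) := by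
        nth_rewrite 1 [← Real.rpow_one R]
        rw [← Real.rpow_add hRpos]; norm_num
      rw [this, ← Real.rpow_sub hRpos]; norm_num
    rw [e7]
    have e8 : 1 / R ^ (1 / 8 : ℝ) ≤ 1 / 100000 := one_div_le_one_div_of_le (by norm_num) h4
    have e9 : P * (1 / R ^ (1 / 8 : ℝ)) ≤ P * (1 / 100000) := mul_le_mul_of_nonneg_left e8 hPpos.le
    calc r * (23040 * (P * (1 / R ^ (1 / 8 : ℝ)))) ≤ r * (23040 * (P * (1 / 100000))) := by
          apply mul_le_mul_of_nonneg_left _ hr.le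
          linarith
      _ ≤ 1 / 2 * (r * P) := by
        have : 0 < r * P := by positivity
        linarith
  -- T4
  have T4 : 5 * r / R ^ 2 ≤ 1 / 4 * (r * P) := by
    have e1 : 1 / R ^ 2 = P * (1 / R ^ (3 / 4 : ℝ)) := by
      have i1 : 1 / R ^ (3 / 4 : ℝ) = R ^ (-(3 / 4 : ℝ)) := by
        rw [Real.rpow_neg hRpos.le]; exact one_div _
      rw [hP, i1, ← Real.rpow_add hRpos]
      have : 1 / R ^ 2 = R ^ (-(2 : ℝ)) := by
        rw [Real.rpow_neg hRpos.le, one_div]; norm_cast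
      rw [this]; norm_num
    have e2 : 5 * r / R ^ 2 = 5 * r * (1 / R ^ 2) := by ring
    rw [e2, e1]
    have e8 : 1 / R ^ (3 / 4 : ℝ) ≤ 1 / 20 := one_div_le_one_div_of_le (by norm_num) h5
    have e9 : P * (1 / R ^ (3 / 4 : ℝ)) ≤ P * (1 / 20) := mul_le_mul_of_nonneg_left e8 hPpos.le
    calc 5 * r * (P * (1 / R ^ (3 / 4 : ℝ))) ≤ 5 * r * (P * (1 / 20)) :=
          mul_le_mul_of_nonneg_left e9 (by positivity)
      _ = 1 / 4 * (r * P) := by ring
  linarith

end Pool.Agent.Hhelper88
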