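import Pool.Agent.Hhelper88.MkMoeb

set_option autoImplicit false

/-! Final asymptotics for the number of nodes. -/

namespace Pool.Agent.Hhelper88

open Finset Filter Topology

lemma NN_mono (k : ℕ) : ∀ (s : Node) (r r' : ℝ), r ≤ r' → NN k s r ≤ NN k s r' := by
  induction k with
  | zero => intro s r r' _; exact le_rfl
  | succ k ih =>
    intro s r r' h
    simp only [NN]
    have h1 := ih s.L r r' h
    have h2 := ih s.R r r' h
    have h3 : ⌊r / s.c⌋₊ ≤ ⌊r' / s.c⌋₊ := Nat.floor_le_floor (div_le_div_of_nonneg_right h s.c_pos.le)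
    omega

lemma NN_le (k : ℕ) (s : Node) (r : ℝ) (hr : 0 ≤ r) : (NN k s r : ℝ) ≤ 2 * r ^ 2 := by
  have h1 : (NN k s r : ℝ) ≤ TT s.a s.b (r / (1 - s.e)) := by
    exact_mod_cast NN_upper k s r hr
  have he := s.one_sub_e_pos
  have he2 := s.e_le
  refine h1.trans ((TT_le s.a_pos s.b_pos (div_nonneg hr he.le)).trans ?_)
  have ha := s.a_ge
  have hb := s.b_ge
  have hap := s.a_pos
  have hbp := s.b_pos
  rw [div_pow, div_div, div_le_iff₀ (by positivity)]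
  have h2 : (0.5 : ℝ) ≤ (1 - s.e) ^ 2 * (s.a * s.b) := by
    norm_num at *
    have h3 : (0.9 : ℝ) ≤ s.a * s.b := by norm_num; nlinarith
    have h4 : (0.9 : ℝ) ≤ (1 - s.e) ^ 2 := by norm_num; nlinarith
    norm_num at h3 h4
    nlinarith
  have h5 : 0 ≤ r ^ 2 := sq_nonneg r
  nlinarith

lemma phi_step (x y : ℝ) (hy : 0 < y) (hxy : y ≤ x) :
    x ^ (-(5 / 4 : ℝ)) * (x - y) ≤ 4 * (y ^ (-(1 / 4 : ℝ)) - x ^ (-(1 / 4 : ℝ))) := by
  have hx : 0 < x := lt_of_lt_of_le hy hxy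
  set p := x ^ (1 / 4 : ℝ) with hp
  set q := y ^ (1 / 4 : ℝ) with hq
  have hp0 : 0 < p := Real.rpow_pos_of_pos hx _
  have hq0 : 0 < q := Real.rpow_pos_of_pos hy _
  have hqp : q ≤ p := Real.rpow_le_rpow hy.le hxy (by norm_num)
  have e1 : x = p ^ 4 := by
    rw [hp, ← Real.rpow_natCast, ← Real.rpow_mul hx.le]; norm_num
  have e2 : y = q ^ 4 := by
    rw [hq, ← Real.rpow_natCast, ← Real.rpow_mul hy.le]; norm_num
  have e3 : x ^ (-(5 / 4 : ℝ)) = 1 / p ^ 5 := by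
    rw [hp, ← Real.rpow_natCast, ← Real.rpow_mul hx.le, Real.rpow_neg hx.le, one_div]
    norm_num
  have e4 : x ^ (-(1 / 4 : ℝ)) = 1 / p := by
    rw [hp, Real.rpow_neg hx.le]; exact (one_div _).symm
  have e5 : y ^ (-(1 / 4 : ℝ)) = 1 / q := by
    rw [hq, Real.rpow_neg hy.le]; exact (one_div _).symm
  rw [e3, e4, e5, e1, e2]
  have e6 : p ^ 4 - q ^ 4 = (p - q) * ((p + q) * (p ^ 2 + q ^ 2)) := by ring
  have e7 : (p + q) * (p ^ 2 + q ^ 2) ≤ 4 * p ^ 3 := by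
    have h1 : p + q ≤ 2 * p := by linarith
    have h2 : p ^ 2 + q ^ 2 ≤ 2 * p ^ 2 := by nlinarith
    calc (p + q) * (p ^ 2 + q ^ 2) ≤ (2 * p) * (2 * p ^ 2) :=
          mul_le_mul h1 h2 (by positivity) (by positivity)
      _ = 4 * p ^ 3 := by ring
  have e8 : p ^ 4 - q ^ 4 ≤ (p - q) * (4 * p ^ 3) := by
    rw [e6]; exact mul_le_mul_of_nonneg_left e7 (by linarith)
  have e9 : 4 * (1 / q - 1 / p) = 4 * (p - q) / (p * q) := by field_simp
  rw [e9, one_div_mul_eq_div, div_le_div_iff₀ (by positivity) (by positivity)]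
  calc (p ^ 4 - q ^ 4) * (p * q) ≤ ((p - q) * (4 * p ^ 3)) * (p * q) :=
        mul_le_mul_of_nonneg_right e8 (by positivity)
    _ = 4 * (p - q) * (p ^ 4 * q) := by ring
    _ ≤ 4 * (p - q) * (p ^ 4 * p) := by
        apply mul_le_mul_of_nonneg_left _ (by linarith)
        exact mul_le_mul_of_nonneg_left hqp (by positivity)
    _ = 4 * (p - q) * p ^ 5 := by ring

lemma log_sum_bound (T : ℝ) (a : ℕ) (hT : 0 < T) (ha : 1 < T / ((a : ℝ) + 1)) :
    ∑ d ∈ Ioc 0 a, (T / d) * (Real.log (T / d)) ^ (-(5 / 4 : ℝ)) ≤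
      8 * T * (Real.log (T / ((a : ℝ) + 1))) ^ (-(1 / 4 : ℝ)) := by
  have hstep : ∀ d ∈ Ioc 0 a, (T / d) * (Real.log (T / d)) ^ (-(5 / 4 : ℝ)) ≤
      8 * T * ((Real.log (T / ((d : ℝ) + 1))) ^ (-(1 / 4 : ℝ)) - (Real.log (T / d)) ^ (-(1 / 4 : ℝ))) := by
    intro d hd
    rw [mem_Ioc] at hd
    have hdR : (1 : ℝ) ≤ d := by exact_mod_cast hd.1
    have hda : (d : ℝ) ≤ a := by exact_mod_cast hd.2
    have hy : 0 < Real.log (T / ((d : ℝ) + 1)) := by
      apply Real.log_pos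
      refine lt_of_lt_of_le ha ?_
      apply div_le_div_of_nonneg_left hT.le (by positivity)
      linarith
    have hdiff : 1 / (2 * d) ≤ Real.log (T / d) - Real.log (T / ((d : ℝ) + 1)) := by
      have e1 : Real.log (T / d) - Real.log (T / ((d : ℝ) + 1)) = Real.log (((d : ℝ) + 1) / d) := by
        rw [← Real.log_div (by positivity) (by positivity)]
        congr 1
        field_simp
      rw [e1]
      have h2 := Real.one_sub_inv_le_log_of_pos (show 0 < ((d : ℝ) + 1) / d by positivity)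
      refine le_trans ?_ h2
      have e2 : 1 - (((d : ℝ) + 1) / d)⁻¹ = 1 / ((d : ℝ) + 1) := by field_simp; ring
      rw [e2]
      apply one_div_le_one_div_of_le (by positivity)
      linarith
    have hxy : Real.log (T / ((d : ℝ) + 1)) ≤ Real.log (T / d) := by
      have : (0 : ℝ) < 1 / (2 * d) := by positivity
      linarith
    have h3 := phi_step _ _ hy hxy
    have hx : 0 < Real.log (T / d) := lt_of_lt_of_le hy hxy
    have hxp : 0 < (Real.log (T / d)) ^ (-(5 / 4 : ℝ)) := Real.rpow_pos_of_pos hx _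
    have h4 := mul_le_mul_of_nonneg_left hdiff hxp.le
    have e5 : (T / d) * (Real.log (T / d)) ^ (-(5 / 4 : ℝ))
      = 2 * T * ((Real.log (T / d)) ^ (-(5 / 4 : ℝ)) * (1 / (2 * d))) := by field_simp
    rw [e5]
    have h5 : (Real.log (T / d)) ^ (-(5 / 4 : ℝ)) * (1 / (2 * d)) ≤
      4 * ((Real.log (T / ((d : ℝ) + 1))) ^ (-(1 / 4 : ℝ)) - (Real.log (T / d)) ^ (-(1 / 4 : ℝ))) := h4.trans h3
    have h6 := mul_le_mul_of_nonneg_left h5 (show 0 ≤ 2 * T by positivity)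
    linarith
  refine (sum_le_sum hstep).trans ?_
  rw [← mul_sum]
  apply mul_le_mul_of_nonneg_left _ (by positivity)
  have htel : ∀ b : ℕ, ∑ d ∈ Ioc 0 b, ((Real.log (T / ((d : ℝ) + 1))) ^ (-(1 / 4 : ℝ)) - (Real.log (T / d)) ^ (-(1 / 4 : ℝ)))
      = (Real.log (T / ((b : ℝ) + 1))) ^ (-(1 / 4 : ℝ)) - (Real.log (T / 1)) ^ (-(1 / 4 : ℝ)) := by
    intro b
    induction b with
    | zero => simp
    | succ b ih =>
      rw [Finset.sum_Ioc_succ_top (by omega), ih]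
      push_cast
      ring
  rw [htel]
  have h1 : 0 ≤ (Real.log (T / 1)) ^ (-(1 / 4 : ℝ)) := by
    apply Real.rpow_nonneg
    rw [div_one]
    apply Real.log_nonneg
    have : T / ((a : ℝ) + 1) ≤ T := div_le_self hT.le (by linarith [show (0 : ℝ) ≤ a by positivity])
    linarith
  linarith

lemma c1_pos : 0 < c1 := by
  have := Node.root.a_pos; have := Node.root.b_pos
  unfold c1; positivity

/-- the number of nodes with `γ ≤ T` is `c T² + o(T)`. -/
theorem prim_asymp (ε : ℝ) (hε : 0 < ε) : ∃ T0 : ℝ, 1 ≤ T0 ∧ ∀ T : ℝ, T0 ≤ T → ∀ M : ℕ, 2 * T ≤ M →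
    |(CC M Node.root T : ℝ) - (Ar / 2 * Cmu) * T ^ 2| ≤ ε * T := by
  obtain ⟨R0, hR0, hstar⟩ := star
  -- choose R1
  have hR1 : ∃ R1 : ℝ, max R0 3 ≤ R1 ∧ 8 * (R1 - 1) ^ (-(1 / 4 : ℝ)) ≤ ε / 4 := by
    have h1 : Tendsto (fun R : ℝ => 8 * (R - 1) ^ (-(1 / 4 : ℝ))) atTop (𝓝 0) := by
      have h2 := (tendsto_rpow_neg_atTop (show (0 : ℝ) < 1 / 4 by norm_num)).comp
        (tendsto_atTop_add_const_right atTop (-1 : ℝ) tendsto_id)
      have h3 := h2.const_mul 8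
      rw [mul_zero] at h3
      exact h3
    have h2 := (h1.eventually (ge_mem_nhds (show (0 : ℝ) < ε / 4 by positivity))).and
      (eventually_ge_atTop (max R0 3))
    obtain ⟨R1, h3, h4⟩ := h2.exists
    exact ⟨R1, h4, h3⟩
  obtain ⟨R1, hR1a, hR1b⟩ := hR1
  have hR1R0 : R0 ≤ R1 := (le_max_left _ _).trans hR1a
  have hR13 : 3 ≤ R1 := (le_max_right _ _).trans hR1a
  set ρ := Real.exp R1 with hρ
  have hρ0 : 0 < ρ := Real.exp_pos _
  have hρ1 : 2 < ρ := by have := Real.add_one_le_exp R1; linarith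
  have hArp := Ar_pos
  set δ := ε / (4 * (6 * (Ar / 2) * ρ + 4 * ρ ^ 2 + 1)) with hδ
  have hden : 0 < 6 * (Ar / 2) * ρ + 4 * ρ ^ 2 + 1 := by positivity
  have hδ0 : 0 < δ := by positivity
  have hδ1 : δ * (6 * (Ar / 2) * ρ + 4 * ρ ^ 2) ≤ ε / 4 := by
    rw [hδ, div_mul_eq_mul_div, div_le_div_iff₀ (by positivity) (by norm_num)]
    nlinarith
  obtain ⟨a1, ha1⟩ := Me_small δ hδ0
  obtain ⟨a2, ha2, ha2'⟩ := Cmu_tail δ hδ0
  obtain ⟨a3, ha3⟩ := mm_small (ε / (4 * c1)) (by have := c1_pos; positivity)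
  refine ⟨ρ * (a1 + a2 + a3 + 2), ?_, ?_⟩
  · have : (0 : ℝ) ≤ a1 + a2 + a3 := by positivity
    nlinarith
  intro T hT M hM
  have hTpos : 0 < T := by
    have : 0 < ρ * ((a1 : ℝ) + a2 + a3 + 2) := by positivity
    linarith
  set a := ⌊T / ρ⌋₊ with ha
  set n := ⌊T⌋₊ with hn
  have haR : (a : ℝ) ≤ T / ρ := Nat.floor_le (by positivity)
  have haR2 : T / ρ < a + 1 := Nat.lt_floor_add_one _
  have hnR : (n : ℝ) ≤ T := Nat.floor_le hTpos.le
  have hTρ : (a1 : ℝ) + a2 + a3 + 2 ≤ T / ρ := by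
    rw [le_div_iff₀ hρ0]; linarith
  have haa : a1 + a2 + a3 + 2 ≤ a := by
    rw [ha]; apply Nat.le_floor; push_cast; exact hTρ
  have han : a ≤ n := by
    apply Nat.floor_le_floor
    exact div_le_self hTpos.le (by linarith)
  have ha1R : (1 : ℝ) ≤ a := by exact_mod_cast (by omega : 1 ≤ a)
  have ha2T : T / (2 * ρ) ≤ a := by
    have : T / (2 * ρ) = (T / ρ) / 2 := by rw [div_div]; congr 1; ring
    rw [this]
    have : (2 : ℝ) ≤ T / ρ := by
      have : (0 : ℝ) ≤ a1 + a2 + a3 := by positivity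
      linarith
    linarith
  rw [CC_inversion M Node.root T n hTpos.le le_rfl,
    ← Finset.sum_Ioc_consecutive _ (Nat.zero_le _) han]
  -- second part
  have hsecond : |∑ d ∈ Ioc a n, mu d * (NN M Node.root (T / d) : ℝ)| ≤ 2 * δ * n * (2 * ρ ^ 2) := by
    apply abel_bound' (fun d => (NN M Node.root (T / d) : ℝ)) a n han _ _ δ hδ0.le
      (fun d hd => ha1 d (by omega))
    · have h1 : T / ((a + 1 : ℕ) : ℝ) ≤ ρ := by
        push_cast
        rw [div_le_iff₀ (by positivity)]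
        rw [div_lt_iff₀ hρ0] at haR2
        linarith
      have h2 : (NN M Node.root (T / ((a + 1 : ℕ) : ℝ)) : ℝ) ≤ NN M Node.root ρ := by
        exact_mod_cast NN_mono M _ _ _ h1
      exact h2.trans (NN_le M _ ρ hρ0.le)
    · intro d _; positivity
    · intro d hd
      have hdR : (0 : ℝ) < d := by exact_mod_cast (by omega : 0 < d)
      have : T / ((d + 1 : ℕ) : ℝ) ≤ T / d := by
        apply div_le_div_of_nonneg_left hTpos.le hdR
        push_cast; linarith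
      exact_mod_cast NN_mono M _ _ _ this
  -- first part
  have hfirst : ∑ d ∈ Ioc 0 a, mu d * (NN M Node.root (T / d) : ℝ)
      = (Ar / 2) * T ^ 2 * (∑ d ∈ Ioc 0 a, mu d / (d : ℝ) ^ 2) - c1 * T * mm a
        + ∑ d ∈ Ioc 0 a, mu d * ((NN M Node.root (T / d) : ℝ) - (Ar / 2 * (T / d) ^ 2 - c1 * (T / d))) := by
    unfold mm
    rw [mul_sum, mul_sum, ← sum_sub_distrib, ← sum_add_distrib]
    apply sum_congr rfl
    intro d _
    ring
  have hG : |∑ d ∈ Ioc 0 a, mu d * ((NN M Node.root (T / d) : ℝ) - (Ar / 2 * (T / d) ^ 2 - c1 * (T / d)))|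
      ≤ ε / 4 * T := by
    refine (abs_sum_le_sum_abs _ _).trans ?_
    have h1 : ∀ d ∈ Ioc 0 a, |mu d * ((NN M Node.root (T / d) : ℝ) - (Ar / 2 * (T / d) ^ 2 - c1 * (T / d)))|
        ≤ (T / d) * (Real.log (T / d)) ^ (-(5 / 4 : ℝ)) := by
      intro d hd
      rw [mem_Ioc] at hd
      have hdR : (1 : ℝ) ≤ d := by exact_mod_cast hd.1
      have hda : (d : ℝ) ≤ a := by exact_mod_cast hd.2
      have hTd : ρ ≤ T / d := by
        rw [le_div_iff₀ (by linarith)]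
        have : (d : ℝ) ≤ T / ρ := hda.trans haR
        rw [le_div_iff₀ hρ0] at this
        linarith
      have hTd0 : 0 < T / d := by positivity
      have hlog : R0 ≤ Real.log (T / d) := by
        refine hR1R0.trans ?_
        rw [Real.le_log_iff_exp_le hTd0]; exact hTd
      have h2 := hstar (T / d) hTd0 hlog M (by
        have : T / d ≤ T := div_le_self hTpos.le hdR
        linarith)
      rw [abs_mul]
      calc |mu d| * |(NN M Node.root (T / d) : ℝ) - (Ar / 2 * (T / d) ^ 2 - c1 * (T / d))|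
          ≤ 1 * ((T / d) * (Real.log (T / d)) ^ (-(5 / 4 : ℝ))) :=
            mul_le_mul (abs_mu_le d) h2 (abs_nonneg _) (by norm_num)
        _ = _ := one_mul _
    refine (sum_le_sum h1).trans ?_
    have h2ρ : ρ / 2 ≤ T / ((a : ℝ) + 1) := by
      rw [le_div_iff₀ (by positivity)]
      have : (a : ℝ) * ρ ≤ T := by rw [le_div_iff₀ hρ0] at haR; exact haR
      nlinarith
    have h3 := log_sum_bound T a hTpos (by linarith)
    refine h3.trans ?_
    have hlog2 : Real.log 2 ≤ 1 := by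
      rw [Real.log_le_iff_le_exp (by norm_num)]
      have := Real.exp_one_gt_d9
      linarith
    have h4 : R1 - 1 ≤ Real.log (T / ((a : ℝ) + 1)) := by
      have h5 : Real.log (ρ / 2) ≤ Real.log (T / ((a : ℝ) + 1)) := Real.log_le_log (by positivity) h2ρ
      rw [Real.log_div hρ0.ne' (by norm_num), hρ, Real.log_exp] at h5
      linarith
    have h6 : (Real.log (T / ((a : ℝ) + 1))) ^ (-(1 / 4 : ℝ)) ≤ (R1 - 1) ^ (-(1 / 4 : ℝ)) := by
      apply Real.rpow_le_rpow_of_nonpos (by linarith) h4 (by norm_num)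
    have h7 := mul_le_mul_of_nonneg_left h6 (show 0 ≤ 8 * T by positivity)
    have h8 := mul_le_mul_of_nonneg_left hR1b hTpos.le
    linarith
  have hCmu := ha2' a (by omega)
  have hmm := ha3 a (by omega)
  have hc1 := c1_pos
  -- combine
  rw [hfirst]
  have e1 : (Ar / 2) * T ^ 2 * (∑ d ∈ Ioc 0 a, mu d / (d : ℝ) ^ 2) - c1 * T * mm a
        + ∑ d ∈ Ioc 0 a, mu d * ((NN M Node.root (T / d) : ℝ) - (Ar / 2 * (T / d) ^ 2 - c1 * (T / d)))
        + ∑ d ∈ Ioc a n, mu d * (NN M Node.root (T / d) : ℝ) - (Ar / 2 * Cmu) * T ^ 2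
      = (Ar / 2) * T ^ 2 * (∑ d ∈ Ioc 0 a, mu d / (d : ℝ) ^ 2 - Cmu) - c1 * T * mm a
        + ∑ d ∈ Ioc 0 a, mu d * ((NN M Node.root (T / d) : ℝ) - (Ar / 2 * (T / d) ^ 2 - c1 * (T / d)))
        + ∑ d ∈ Ioc a n, mu d * (NN M Node.root (T / d) : ℝ) := by ring
  rw [e1]
  have b1 : |(Ar / 2) * T ^ 2 * (∑ d ∈ Ioc 0 a, mu d / (d : ℝ) ^ 2 - Cmu)| ≤ 6 * (Ar / 2) * ρ * δ * T := by
    rw [abs_mul, abs_of_nonneg (by positivity : 0 ≤ Ar / 2 * T ^ 2)]
    calc Ar / 2 * T ^ 2 * |∑ d ∈ Ioc 0 a, mu d / (d : ℝ) ^ 2 - Cmu| ≤ Ar / 2 * T ^ 2 * (3 * δ / a) :=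
          mul_le_mul_of_nonneg_left hCmu (by positivity)
      _ ≤ Ar / 2 * T ^ 2 * (3 * δ / (T / (2 * ρ))) := by
          apply mul_le_mul_of_nonneg_left _ (by positivity)
          exact div_le_div_of_nonneg_left (by positivity) (by positivity) ha2T
      _ = 6 * (Ar / 2) * ρ * δ * T := by field_simp; ring
  have b2 : |c1 * T * mm a| ≤ ε / 4 * T := by
    rw [abs_mul, abs_of_pos (mul_pos hc1 hTpos)]
    calc c1 * T * |mm a| ≤ c1 * T * (ε / (4 * c1)) := mul_le_mul_of_nonneg_left hmm (by positivity)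
      _ = ε / 4 * T := by field_simp
  have b3 : 2 * δ * n * (2 * ρ ^ 2) ≤ 4 * ρ ^ 2 * δ * T := by
    have h0 : 0 ≤ 4 * ρ ^ 2 * δ := by positivity
    calc 2 * δ * n * (2 * ρ ^ 2) = 4 * ρ ^ 2 * δ * n := by ring
      _ ≤ 4 * ρ ^ 2 * δ * T := mul_le_mul_of_nonneg_left hnR h0
  have b4 : 6 * (Ar / 2) * ρ * δ * T + 4 * ρ ^ 2 * δ * T ≤ ε / 4 * T := by
    have h0 := mul_le_mul_of_nonneg_right hδ1 hTpos.le
    calc 6 * (Ar / 2) * ρ * δ * T + 4 * ρ ^ 2 * δ * T = δ * (6 * (Ar / 2) * ρ + 4 * ρ ^ 2) * T := by ring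
      _ ≤ ε / 4 * T := h0
  have fin : ∀ X Y Z W u v w t : ℝ, |X| ≤ u → |Y| ≤ v → |Z| ≤ w → |W| ≤ t → |X - Y + Z + W| ≤ u + v + w + t := by
    intro X Y Z W u v w t h1 h2 h3 h4
    calc |X - Y + Z + W| ≤ |X - Y + Z| + |W| := abs_add_le _ _
      _ ≤ |X - Y| + |Z| + |W| := by linarith [abs_add_le (X - Y) Z]
      _ ≤ |X| + |Y| + |Z| + |W| := by linarith [abs_sub X Y]
      _ ≤ _ := by linarith
  refine (fin _ _ _ _ _ _ _ _ b1 b2 hG hsecond).trans ?_
  have hεT : 0 ≤ ε * T := by positivity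
  linarith

end Pool.Agent.Hhelper88
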