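import Pool.Agent.Hhelper88.MkTree
import Pool.Agent.Hhelper88.MkLiou

set_option autoImplicit false

/-! Resonant leaves. -/

namespace Pool.Agent.Hhelper88

open Finset

lemma exists_rt (Q : ℝ) (t : Node) : ∃ x : ℚ, 0 < Q →
    |t.a / t.b - x| ≤ 1 / (((⌈t.b * Q⌉₊ : ℝ) + 1) * x.den) ∧ x.den ≤ ⌈t.b * Q⌉₊ := by
  by_cases hQ : 0 < Q
  · have hn : 0 < ⌈t.b * Q⌉₊ := Nat.ceil_pos.2 (mul_pos t.b_pos hQ)
    obtain ⟨x, h1, h2⟩ := Real.exists_rat_abs_sub_le_and_den_le (t.a / t.b) hn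
    exact ⟨x, fun _ => ⟨h1, h2⟩⟩
  · exact ⟨0, fun h => absurd h hQ⟩

/-- chosen rational approximation of `a/b` with denominator at most `⌈bQ⌉`. -/
noncomputable def rt (Q : ℝ) (t : Node) : ℚ := (exists_rt Q t).choose

lemma rt_spec {Q : ℝ} (hQ : 0 < Q) (t : Node) :
    |t.a / t.b - rt Q t| ≤ 1 / (((⌈t.b * Q⌉₊ : ℝ) + 1) * (rt Q t).den) ∧
    (rt Q t).den ≤ ⌈t.b * Q⌉₊ := (exists_rt Q t).choose_spec hQ

/-- the integer vector of the approximation -/
noncomputable def zt (Q : ℝ) (t : Node) : ℤ × ℤ := (((rt Q t).den : ℤ), (rt Q t).num)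

lemma zt_coprime (Q : ℝ) (t : Node) : IsCoprime (zt Q t).1 (zt Q t).2 :=
  (Rat.isCoprime_num_den _).symm

lemma zt_fst_pos (Q : ℝ) (t : Node) : 1 ≤ (zt Q t).1 := by
  have := (rt Q t).den_pos
  unfold zt; simp; omega

lemma rt_theta {Q : ℝ} (hQ : 0 < Q) (t : Node) :
    |t.a / t.b - ((rt Q t).num : ℝ) / ((rt Q t).den : ℝ)| ≤ 1 / ((rt Q t).den : ℝ) ^ 2 := by
  obtain ⟨h1, h2⟩ := rt_spec hQ t
  have h3 : ((rt Q t : ℚ) : ℝ) = ((rt Q t).num : ℝ) / ((rt Q t).den : ℝ) := Rat.cast_def _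
  rw [h3] at h1
  refine h1.trans ?_
  have hd : (0 : ℝ) < (rt Q t).den := by exact_mod_cast (rt Q t).den_pos
  have h2' : ((rt Q t).den : ℝ) ≤ (⌈t.b * Q⌉₊ : ℝ) := by exact_mod_cast h2
  apply one_div_le_one_div_of_le (by positivity)
  nlinarith

lemma zt_g {Q : ℝ} (hQ : 0 < Q) (t : Node) : |t.g (zt Q t)| ≤ 1 / Q := by
  obtain ⟨h1, h2⟩ := rt_spec hQ t
  have h3 : ((rt Q t : ℚ) : ℝ) = ((rt Q t).num : ℝ) / ((rt Q t).den : ℝ) := Rat.cast_def _
  rw [h3] at h1
  have hd : (0 : ℝ) < (rt Q t).den := by exact_mod_cast (rt Q t).den_pos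
  have hb := t.b_pos
  have hn : t.b * Q ≤ (⌈t.b * Q⌉₊ : ℝ) := Nat.le_ceil _
  have e1 : t.g (zt Q t) = (t.a / t.b - ((rt Q t).num : ℝ) / ((rt Q t).den : ℝ)) * ((rt Q t).den * t.b) := by
    unfold Node.g zt
    push_cast
    field_simp
  rw [e1, abs_mul, abs_of_pos (mul_pos hd hb)]
  calc _ ≤ 1 / (((⌈t.b * Q⌉₊ : ℝ) + 1) * (rt Q t).den) * ((rt Q t).den * t.b) :=
        mul_le_mul_of_nonneg_right h1 (by positivity)
    _ = t.b / ((⌈t.b * Q⌉₊ : ℝ) + 1) := by field_simp
    _ ≤ t.b / (t.b * Q) := by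
        apply div_le_div_of_nonneg_left hb.le (by positivity)
        linarith
    _ = 1 / Q := by field_simp

lemma zt_snd_pos {Q : ℝ} (hQ : 8 ≤ Q) (t : Node) : 1 ≤ (zt Q t).2 := by
  have hQ0 : 0 < Q := by linarith
  have h1 := zt_g hQ0 t
  have h2 : 1 / Q ≤ 1 / 8 := one_div_le_one_div_of_le (by norm_num) hQ
  by_contra hneg
  push Not at hneg
  have h3 : (zt Q t).2 ≤ 0 := by omega
  have h3' : ((zt Q t).2 : ℝ) ≤ 0 := by exact_mod_cast h3
  have h4 : (1 : ℝ) ≤ (zt Q t).1 := by exact_mod_cast zt_fst_pos Q t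
  have ha := t.a_ge
  have hb := t.b_pos
  have h5 : 0.96 ≤ t.g (zt Q t) := by
    unfold Node.g
    have : ((zt Q t).2 : ℝ) * t.b ≤ 0 := mul_nonpos_of_nonpos_of_nonneg h3' hb.le
    have : t.a ≤ (zt Q t).1 * t.a := le_mul_of_one_le_left t.a_pos.le h4
    linarith
  have h6 := le_abs_self (t.g (zt Q t))
  norm_num at h5
  linarith

lemma coprime_pair_eq {a b c d : ℤ} (ha : 1 ≤ a) (hc : 1 ≤ c) (hb : 1 ≤ b)
    (h1 : IsCoprime a b) (h2 : IsCoprime c d) (h : a * d = c * b) : a = c ∧ b = d := by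
  have h3 : a ∣ c := h1.dvd_of_dvd_mul_right ⟨d, h.symm⟩
  have h4 : c ∣ a := h2.dvd_of_dvd_mul_right ⟨b, h⟩
  have h5 : a = c := Int.dvd_antisymm (by omega) (by omega) h3 h4
  refine ⟨h5, ?_⟩
  subst h5
  exact (mul_left_cancel₀ (by omega) h).symm

/-- ratio control -/
lemma ratio_ctl (s : Node) (P Qc η : ℝ) (hP : 1 ≤ P) (hQ : 1 ≤ Qc) (hη : η ≤ 1 / 8)
    (h : |Qc * s.a - P * s.b| ≤ η + 5 / 3 * s.e * (Qc + P)) :
    |Qc * s.a - P * s.b| ≤ P * s.b / 4 ∧ |Qc * s.a - P * s.b| ≤ Qc * s.a / 4 := by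
  have ha := s.a_ge
  have hb := s.b_ge
  have he := s.e_le
  have hep := s.e_pos
  set u := P * s.b with hu
  set v := Qc * s.a with hv
  have hu1 : 0.96 * P ≤ u := by rw [hu]; nlinarith
  have hv1 : 0.96 * Qc ≤ v := by rw [hv]; nlinarith
  have h2 : 5 / 3 * s.e * (Qc + P) ≤ 0.0375 * (Qc + P) := by
    apply mul_le_mul_of_nonneg_right _ (by linarith)
    norm_num at he ⊢; linarith
  have habs := abs_le.1 h
  have hG : 0.0375 * (Qc + P) ≤ 0.0391 * (u + v) := by
    norm_num at hu1 hv1 ⊢; linarith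
  have h3 : |v - u| ≤ 1 / 8 + 0.0391 * (u + v) := by linarith
  have h4 := abs_le.1 h3
  have hu2 : 0.96 ≤ u := by norm_num at hu1 ⊢; linarith
  have hv2 : 0.96 ≤ v := by norm_num at hv1 ⊢; linarith
  norm_num at h3 h4 hu2 hv2
  constructor
  · refine h3.trans ?_
    linarith [h4.2]
  · refine h3.trans ?_
    linarith [h4.1]

open Classical in
/-- the resonant weight -/
noncomputable def ww (Q B : ℝ) (t : Node) : ℝ :=
  if ((rt Q t).den : ℝ) ≤ B * t.b then 1 / (t.a * (rt Q t).den) else 0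

lemma ww_nonneg (Q B : ℝ) (t : Node) : 0 ≤ ww Q B t := by
  unfold ww
  have := t.a_pos
  split_ifs
  · positivity
  · exact le_rfl

/-- everything about a resonant leaf `t = s.desc w`, where `s = root.desc v`. -/
lemma res_data {Q B : ℝ} (hQ : 8 ≤ Q) (hB : 1 ≤ B) (v w : List Bool)
    (hres : ((rt Q (Node.root.desc (v ++ w))).den : ℝ) ≤ B * (Node.root.desc (v ++ w)).b) :
    ∃ z : ℤ × ℤ, 1 ≤ z.1 ∧ 1 ≤ z.2 ∧ push z w = zt Q (Node.root.desc (v ++ w)) ∧
      IsCoprime z.1 z.2 ∧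
      (Node.root.desc v).a / 2 ≤ z.2 ∧ (Node.root.desc v).b / 2 ≤ z.1 ∧
      |(Node.root.desc v).g z| ≤ 1 / Q + 5 / 3 * (Node.root.desc v).e * (z.1 + z.2) ∧
      |(Node.root.desc v).g z| ≤ z.2 * (Node.root.desc v).b / 4 ∧
      |(Node.root.desc v).g z| ≤ z.1 * (Node.root.desc v).a / 4 ∧
      (z.1 + z.2 : ℝ) ≤ 2 * B * ((Node.root.desc v).a + (Node.root.desc v).b) ∧
      3 / 4 * (z.2 / (Node.root.desc v).a) * (Node.root.desc (v ++ w)).b
        ≤ (rt Q (Node.root.desc (v ++ w))).den ∧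
      3 / 4 * (z.1 / (Node.root.desc v).b) * (Node.root.desc (v ++ w)).b
        ≤ (rt Q (Node.root.desc (v ++ w))).den := by
  have hQ0 : 0 < Q := by linarith
  have hη : 1 / Q ≤ 1 / 8 := one_div_le_one_div_of_le (by norm_num) hQ
  set t := Node.root.desc (v ++ w) with ht
  set s := Node.root.desc v with hs
  have hst : s.desc w = t := by rw [ht, Node.desc_append]
  have hgt := zt_g hQ0 t
  obtain ⟨z0, hz01, hz02, hz0⟩ := Node.pull_up (v ++ w) Node.root (zt Q t) (zt_fst_pos Q t)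
    (zt_snd_pos hQ t) (by rw [← ht]; linarith)
  rw [push_append] at hz0
  set z := push z0 v with hz
  obtain ⟨hz1, hz2⟩ := push_pos v z0 hz01 hz02
  rw [← hz] at hz1 hz2
  have hcop : IsCoprime z.1 z.2 := by
    apply coprime_of_push w
    rw [hz0]; exact zt_coprime Q t
  have hz1' : (1 : ℝ) ≤ z.1 := by exact_mod_cast hz1
  have hz2' : (1 : ℝ) ≤ z.2 := by exact_mod_cast hz2
  have hsize := Node.size_desc v Node.root z0 (1 / 2) (by norm_num)
    (by have : (1 : ℝ) ≤ z0.2 := by exact_mod_cast hz02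
        have := Node.root_a_le; linarith)
    (by have : (1 : ℝ) ≤ z0.1 := by exact_mod_cast hz01
        have := Node.root_b_le; linarith)
  rw [← hs, ← hz] at hsize
  have hvar := Node.var_bound w s z (by omega) (by omega)
  rw [hz0, hst] at hvar
  have hg1 : |s.g z| ≤ 1 / Q + 5 / 3 * s.e * (z.1 + z.2) := by
    have : s.g z = t.g (zt Q t) - (t.g (zt Q t) - s.g z) := by ring
    rw [this]
    refine (abs_sub _ _).trans ?_
    linarith
  have hrat := ratio_ctl s z.2 z.1 (1 / Q) hz2' hz1' hη (by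
    have := hg1
    unfold Node.g at this
    exact this)
  have hgdef : s.g z = z.1 * s.a - z.2 * s.b := rfl
  rw [← hgdef] at hrat
  have ha := s.a_ge
  have hb := s.b_ge
  have hap := s.a_pos
  have hbp := s.b_pos
  have hab := s.ab_ge
  -- c0 = min
  have habs := abs_le.1 hrat.1
  have habs2 := abs_le.1 hrat.2
  have habs0 := abs_le.1 hg1
  set c0 := min ((z.2 : ℝ) / s.a) ((z.1 : ℝ) / s.b) with hc0
  have hc0nn : 0 ≤ c0 := le_min (by positivity) (by positivity)
  have hsz := Node.size_desc w s z c0 hc0nn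
    (by have : c0 ≤ (z.2 : ℝ) / s.a := min_le_left _ _
        calc c0 * s.a ≤ (z.2 : ℝ) / s.a * s.a := mul_le_mul_of_nonneg_right this hap.le
          _ = z.2 := by field_simp)
    (by have : c0 ≤ (z.1 : ℝ) / s.b := min_le_right _ _
        calc c0 * s.b ≤ (z.1 : ℝ) / s.b * s.b := mul_le_mul_of_nonneg_right this hbp.le
          _ = z.1 := by field_simp)
  rw [hz0, hst] at hsz
  have hden : ((zt Q t).1 : ℝ) = ((rt Q t).den : ℝ) := by unfold zt; simp
  rw [hden] at hsz
  have htb := t.b_pos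
  have hc34 : 3 / 4 * ((z.2 : ℝ) / s.a) ≤ c0 := by
    apply le_min
    · have : 0 ≤ (z.2 : ℝ) / s.a := by positivity
      linarith
    · rw [mul_div_assoc', div_le_div_iff₀ hap hbp]
      rw [hgdef] at habs
      linarith [habs.1]
  have hc34' : 3 / 4 * ((z.1 : ℝ) / s.b) ≤ c0 := by
    apply le_min
    · rw [mul_div_assoc', div_le_div_iff₀ hbp hap]
      rw [hgdef] at habs2
      linarith [habs2.2]
    · have : 0 ≤ (z.1 : ℝ) / s.b := by positivity
      linarith
  have hc0B : c0 ≤ B := by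
    have : c0 * t.b ≤ B * t.b := hsz.2.trans hres
    exact le_of_mul_le_mul_right this htb
  have hPa : (z.2 : ℝ) ≤ 4 / 3 * B * s.a := by
    have : 3 / 4 * ((z.2 : ℝ) / s.a) ≤ B := hc34.trans hc0B
    rw [mul_div_assoc', div_le_iff₀ hap] at this
    linarith
  have hQb : (z.1 : ℝ) ≤ 4 / 3 * B * s.b := by
    have : 3 / 4 * ((z.1 : ℝ) / s.b) ≤ B := hc34'.trans hc0B
    rw [mul_div_assoc', div_le_iff₀ hbp] at this
    linarith
  refine ⟨z, hz1, hz2, hz0, hcop, by linarith [hsize.1], by linarith [hsize.2], hg1, hrat.1, hrat.2, ?_, ?_, ?_⟩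
  · have : 0 ≤ B * (s.a + s.b) := by positivity
    nlinarith
  · exact (mul_le_mul_of_nonneg_right hc34 htb.le).trans hsz.2
  · exact (mul_le_mul_of_nonneg_right hc34' htb.le).trans hsz.2

/-- the numerical conditions on the parameters -/
structure Params (Q B n1 n2 ℓ : ℝ) : Prop where
  hQ : 8 ≤ Q
  hB : 1 ≤ B
  hn1 : 1 ≤ n1
  hℓ : 0 < ℓ
  h12 : n2 ≤ n1
  /-- `(H1)` -/
  H1 : ∀ s : Node, n1 ≤ s.a + s.b →
    1 / Q + 20 / 3 * s.e * B * (s.a + s.b) ≤ 1 / 8 * Real.exp (-6 * ℓ)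
  /-- `(H2)` -/
  H2 : ∀ s : Node, n2 ≤ s.a + s.b → s.a + s.b < n1 →
    4 * B * (s.a + s.b) * (1 / Q + 10 / 3 * s.e * B * (s.a + s.b)) < 0.96
  /-- `(H3)` -/
  H3 : 36 / 7 * (1 / Q) < 3.98 * Real.exp (-2 * n1)

/-- Claim A, pointwise -/
lemma claimA_point {Q B n1 n2 ℓ : ℝ} (hp : Params Q B n1 n2 ℓ) (v w : List Bool)
    (hn : n1 ≤ (Node.root.desc v).a + (Node.root.desc v).b) :
    ww Q B (Node.root.desc (v ++ w)) ≤
      (4 / 3 * (min (Node.root.desc v).a (Node.root.desc v).b / Real.sqrt (ℓ / 2))) *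
        AD (Node.root.desc (v ++ w)) := by
  have hℓ := hp.hℓ
  have hsq : 0 < Real.sqrt (ℓ / 2) := Real.sqrt_pos.2 (by linarith)
  set t := Node.root.desc (v ++ w) with ht
  set s := Node.root.desc v with hs
  have hta := t.a_pos
  have htb := t.b_pos
  have hap := s.a_pos
  have hbp := s.b_pos
  have hADt := AD_pos t
  by_cases hres : ((rt Q t).den : ℝ) ≤ B * t.b
  swap
  · unfold ww
    rw [if_neg hres]
    have : 0 < min s.a s.b := lt_min hap hbp
    positivity
  obtain ⟨z, hz1, hz2, hzt, hcop, hPa, hQb, hg, hgP, hgQ, hsum, hd1, hd2⟩ := res_data hp.hQ hp.hB v w hres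
  rw [← hs] at hPa hQb hg hgP hgQ hsum hd1 hd2
  rw [← ht] at hd1 hd2
  unfold ww
  rw [if_pos hres]
  have hz1' : (1 : ℝ) ≤ z.1 := by exact_mod_cast hz1
  have hz2' : (1 : ℝ) ≤ z.2 := by exact_mod_cast hz2
  have hepos := s.e_pos
  have hB0 : 0 < B := by linarith [hp.hB]
  have hdpos : (0 : ℝ) < (rt Q t).den := by exact_mod_cast (rt Q t).den_pos
  -- δ bound
  have hδ : |s.g z| + 5 / 3 * s.e * (z.1 + z.2) ≤ 1 / 8 * Real.exp (-6 * ℓ) := by
    refine le_trans ?_ (hp.H1 s hn)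
    have : s.e * (z.1 + z.2 : ℝ) ≤ s.e * (2 * B * (s.a + s.b)) := mul_le_mul_of_nonneg_left hsum hepos.le
    linarith
  have hexp1 : Real.exp (-6 * ℓ) ≤ 1 := by
    rw [Real.exp_le_one_iff]; linarith
  rcases le_total s.a s.b with hab | hab
  · rw [min_eq_left hab]
    have hl := s.liouville z hz1 hz2 (by linarith)
    have h3 : Real.exp (-6 * (z.2 * s.a)) ≤ Real.exp (-6 * ℓ) := by linarith
    rw [Real.exp_le_exp] at h3
    have h4 : ℓ ≤ z.2 * s.a := by linarith
    have h5 : Real.sqrt (ℓ / 2) ≤ z.2 := by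
      rw [Real.sqrt_le_left (by linarith)]
      nlinarith
    -- 1/(ta den) ≤ (4/3) (a/P) /(ta tb)
    have h6 : 1 / (t.a * (rt Q t).den) ≤ 4 / 3 * (s.a / z.2) * AD t := by
      unfold AD
      rw [mul_one_div, div_le_div_iff₀ (by positivity) (by positivity)]
      have h7 : t.b ≤ 4 / 3 * (s.a / z.2) * (rt Q t).den := by
        have := mul_le_mul_of_nonneg_left hd1 (show (0 : ℝ) ≤ 4 / 3 * (s.a / z.2) by positivity)
        have e : 4 / 3 * (s.a / z.2) * (3 / 4 * (z.2 / s.a) * t.b) = t.b := by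
          field_simp
        linarith
      calc 1 * (t.a * t.b) = t.a * t.b := one_mul _
        _ ≤ t.a * (4 / 3 * (s.a / z.2) * (rt Q t).den) := mul_le_mul_of_nonneg_left h7 hta.le
        _ = 4 / 3 * (s.a / z.2) * (t.a * (rt Q t).den) := by ring
    refine h6.trans ?_
    apply mul_le_mul_of_nonneg_right _ hADt.le
    apply mul_le_mul_of_nonneg_left _ (by norm_num)
    exact div_le_div_of_nonneg_left hap.le hsq h5
  · rw [min_eq_right hab]
    have hg' : s.mir.g (z.2, z.1) = -s.g z := by unfold Node.g; simp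
    have hl := s.mir.liouville (z.2, z.1) hz2 hz1 (by
      rw [hg', abs_neg, s.e_mir]; simp only; linarith)
    rw [hg', abs_neg, s.e_mir] at hl
    simp only [Node.a_mir] at hl
    have h3 : Real.exp (-6 * (z.1 * s.b)) ≤ Real.exp (-6 * ℓ) := by linarith
    rw [Real.exp_le_exp] at h3
    have h4 : ℓ ≤ z.1 * s.b := by linarith
    have h5 : Real.sqrt (ℓ / 2) ≤ z.1 := by
      rw [Real.sqrt_le_left (by linarith)]
      nlinarith
    have h6 : 1 / (t.a * (rt Q t).den) ≤ 4 / 3 * (s.b / z.1) * AD t := by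
      unfold AD
      rw [mul_one_div, div_le_div_iff₀ (by positivity) (by positivity)]
      have h7 : t.b ≤ 4 / 3 * (s.b / z.1) * (rt Q t).den := by
        have := mul_le_mul_of_nonneg_left hd2 (show (0 : ℝ) ≤ 4 / 3 * (s.b / z.1) by positivity)
        have e : 4 / 3 * (s.b / z.1) * (3 / 4 * (z.1 / s.b) * t.b) = t.b := by
          field_simp
        linarith
      calc 1 * (t.a * t.b) = t.a * t.b := one_mul _
        _ ≤ t.a * (4 / 3 * (s.b / z.1) * (rt Q t).den) := mul_le_mul_of_nonneg_left h7 hta.le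
        _ = 4 / 3 * (s.b / z.1) * (t.a * (rt Q t).den) := by ring
    refine h6.trans ?_
    apply mul_le_mul_of_nonneg_right _ hADt.le
    apply mul_le_mul_of_nonneg_left _ (by norm_num)
    exact div_le_div_of_nonneg_left hbp.le hsq h5

/-- Claim A -/
lemma claimA {Q B n1 n2 ℓ : ℝ} (hp : Params Q B n1 n2 ℓ) (v : List Bool) (k : ℕ)
    (hn : n1 ≤ (Node.root.desc v).a + (Node.root.desc v).b) :
    ls k (Node.root.desc v) (ww Q B) ≤ 3 / (n1 * Real.sqrt (ℓ / 2)) := by
  have hℓ := hp.hℓ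
  have hsq : 0 < Real.sqrt (ℓ / 2) := Real.sqrt_pos.2 (by linarith)
  set s := Node.root.desc v with hs
  have hap := s.a_pos
  have hbp := s.b_pos
  have hn1 := hp.hn1
  have h1 : ls k s (ww Q B) ≤ ls k s (fun t => (4 / 3 * (min s.a s.b / Real.sqrt (ℓ / 2))) * AD t) := by
    apply ls_mono
    intro w _
    have := claimA_point hp v w hn
    rw [Node.desc_append] at this
    exact this
  refine h1.trans ?_
  rw [ls_mul]
  have h2 := ls_AD_le k s
  have he := s.e_le
  have hmin : 0 < min s.a s.b := lt_min hap hbp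
  have h3 : ls k s AD ≤ 1.045 * AD s := by
    refine h2.trans ?_
    apply mul_le_mul_of_nonneg_right _ (AD_pos s).le
    norm_num at he ⊢; linarith
  calc 4 / 3 * (min s.a s.b / Real.sqrt (ℓ / 2)) * ls k s AD
      ≤ 4 / 3 * (min s.a s.b / Real.sqrt (ℓ / 2)) * (1.045 * AD s) :=
        mul_le_mul_of_nonneg_left h3 (by positivity)
    _ ≤ 3 / (n1 * Real.sqrt (ℓ / 2)) := by
      unfold AD
      -- min/(ab) = 1/max ≤ 2/n1
      have h4 : min s.a s.b * (1 / (s.a * s.b)) ≤ 2 / n1 := by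
        rcases le_total s.a s.b with hab | hab
        · rw [min_eq_left hab, mul_one_div, div_le_div_iff₀ (by positivity) (by linarith)]
          nlinarith
        · rw [min_eq_right hab, mul_one_div, div_le_div_iff₀ (by positivity) (by linarith)]
          nlinarith
      have e1 : 4 / 3 * (min s.a s.b / Real.sqrt (ℓ / 2)) * (1.045 * (1 / (s.a * s.b)))
        = (4 / 3 * 1.045 / Real.sqrt (ℓ / 2)) * (min s.a s.b * (1 / (s.a * s.b))) := by ring
      rw [e1]
      have h5 : (4 / 3 * 1.045 / Real.sqrt (ℓ / 2)) * (min s.a s.b * (1 / (s.a * s.b)))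
        ≤ (4 / 3 * 1.045 / Real.sqrt (ℓ / 2)) * (2 / n1) := mul_le_mul_of_nonneg_left h4 (by positivity)
      refine h5.trans ?_
      have e2 : (4 / 3 * 1.045 / Real.sqrt (ℓ / 2)) * (2 / n1) = (4 / 3 * 1.045 * 2) / (n1 * Real.sqrt (ℓ / 2)) := by
        field_simp
      rw [e2]
      apply div_le_div_of_nonneg_right _ (by positivity)
      norm_num

/-- uniqueness of the resonant side -/
lemma claimB_unique {Q B n1 n2 ℓ : ℝ} (hp : Params Q B n1 n2 ℓ) (v w1 w2 : List Bool)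
    (h1 : n2 ≤ (Node.root.desc v).a + (Node.root.desc v).b)
    (h2 : (Node.root.desc v).a + (Node.root.desc v).b < n1)
    (hr1 : ((rt Q (Node.root.desc (v ++ (false :: w1)))).den : ℝ) ≤ B * (Node.root.desc (v ++ (false :: w1))).b)
    (hr2 : ((rt Q (Node.root.desc (v ++ (true :: w2)))).den : ℝ) ≤ B * (Node.root.desc (v ++ (true :: w2))).b) :
    False := by
  have hQ0 : 0 < Q := by linarith [hp.hQ]
  obtain ⟨z, hz1, hz2, hzt, hcop, hPa, hQb, hg, hgP, hgQ, hsum, _, _⟩ := res_data hp.hQ hp.hB v _ hr1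
  obtain ⟨y, hy1, hy2, hyt, hcop', hPa', hQb', hg', hgP', hgQ', hsum', _, _⟩ := res_data hp.hQ hp.hB v _ hr2
  set t1 := Node.root.desc (v ++ (false :: w1)) with ht1
  set t2 := Node.root.desc (v ++ (true :: w2)) with ht2
  set s := Node.root.desc v with hs
  have hst1 : s.L.desc w1 = t1 := by rw [ht1, Node.desc_append]; rfl
  have hst2 : s.R.desc w2 = t2 := by rw [ht2, Node.desc_append]; rfl
  have hz1' : (1 : ℝ) ≤ z.1 := by exact_mod_cast hz1
  have hz2' : (1 : ℝ) ≤ z.2 := by exact_mod_cast hz2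
  have hy1' : (1 : ℝ) ≤ y.1 := by exact_mod_cast hy1
  have hy2' : (1 : ℝ) ≤ y.2 := by exact_mod_cast hy2
  have hepos := s.e_pos
  have ha := s.a_ge
  have hap := s.a_pos
  have hbp := s.b_pos
  have hB0 : 0 < B := by linarith [hp.hB]
  have hQi : 0 < 1 / Q := by positivity
  by_cases hzy : z = y
  · subst hzy
    have hv1 := Node.var_bound w1 s.L (z.1 + z.2, z.2) (by simp; omega) (by simp; omega)
    have hv2 := Node.var_bound w2 s.R (z.1, z.1 + z.2) (by simp; omega) (by simp; omega)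
    rw [push_false] at hzt
    rw [push_true] at hyt
    rw [hzt, hst1, s.g_L] at hv1
    rw [hyt, hst2, s.g_R] at hv2
    have hg1 := zt_g hQ0 t1
    have hg2 := zt_g hQ0 t2
    have hL := s.L.e_pos
    have hR := s.R.e_pos
    have hsum' := s.e_sum_le
    simp only [Int.cast_add] at hv1 hv2
    have a1 := abs_le.1 hv1
    have a2 := abs_le.1 hv2
    have a3 := abs_le.1 hg1
    have a4 := abs_le.1 hg2
    have k1 : 5 / 3 * s.L.e * ((z.1 : ℝ) + z.2 + z.2) ≤ 10 / 3 * s.L.e * (z.1 + z.2) := by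
      have : 0 ≤ s.L.e * (z.1 : ℝ) := by positivity
      linarith
    have k2 : 5 / 3 * s.R.e * ((z.1 : ℝ) + (z.1 + z.2)) ≤ 10 / 3 * s.R.e * (z.1 + z.2) := by
      have : 0 ≤ s.R.e * (z.2 : ℝ) := by positivity
      linarith
    have k3 : 10 / 3 * s.L.e * ((z.1 : ℝ) + z.2) + 10 / 3 * s.R.e * (z.1 + z.2)
        ≤ 29 / 36 * s.e * (z.1 + z.2) := by
      have : (s.L.e + s.R.e) * ((z.1 : ℝ) + z.2) ≤ 29 / 120 * s.e * (z.1 + z.2) :=
        mul_le_mul_of_nonneg_right hsum' (by linarith)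
      linarith
    have k4 : 7 / 36 * s.e * ((z.1 : ℝ) + z.2) ≤ 2 * (1 / Q) := by
      have b1 := a1.1
      have b2 := a2.2
      have b3 := a3.2
      have b4 := a4.1
      clear a1 a2 a3 a4 hv1 hv2 hg1 hg2 hg hg' hgP hgP' hgQ hgQ' hsum
      linarith
    have k5 : 7 / 36 * s.e * 2 ≤ 7 / 36 * s.e * ((z.1 : ℝ) + z.2) :=
      mul_le_mul_of_nonneg_left (by linarith) (by positivity)
    have k6 : s.e ≤ 36 / 7 * (1 / Q) := by linarith
    have k7 := s.e_ge_exp
    have k8 : Real.exp (-2 * n1) ≤ Real.exp (-2 * (s.a + s.b)) := by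
      rw [Real.exp_le_exp]; linarith
    have := hp.H3
    linarith
  · -- non proportional
    have hdet : z.1 * y.2 - y.1 * z.2 ≠ 0 := by
      intro h0
      apply hzy
      have := coprime_pair_eq hz1 hy1 hz2 hcop hcop' (by linarith)
      exact Prod.ext this.1 this.2
    have hdet1 : (1 : ℝ) ≤ |(z.1 : ℝ) * y.2 - y.1 * z.2| := by
      have := Int.one_le_abs hdet
      exact_mod_cast this
    have e1 : s.a * ((z.1 : ℝ) * y.2 - y.1 * z.2) = y.2 * s.g z - z.2 * s.g y := by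
      unfold Node.g; ring
    have e2 : s.a ≤ y.2 * |s.g z| + z.2 * |s.g y| := by
      calc s.a ≤ s.a * |(z.1 : ℝ) * y.2 - y.1 * z.2| := le_mul_of_one_le_right hap.le hdet1
        _ = |y.2 * s.g z - z.2 * s.g y| := by rw [← e1, abs_mul, abs_of_pos hap]
        _ ≤ |y.2 * s.g z| + |z.2 * s.g y| := abs_sub _ _
        _ = y.2 * |s.g z| + z.2 * |s.g y| := by
          rw [abs_mul, abs_mul, abs_of_pos (by linarith : (0 : ℝ) < y.2),
            abs_of_pos (by linarith : (0 : ℝ) < z.2)]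
    set S := s.a + s.b with hS
    have hSpos : 0 < S := by positivity
    have hGz : |s.g z| ≤ 1 / Q + 10 / 3 * s.e * B * S := by
      refine hg.trans ?_
      have h7 : s.e * (z.1 + z.2 : ℝ) ≤ s.e * (2 * B * S) := mul_le_mul_of_nonneg_left hsum hepos.le
      clear hg hg' hgP hgP' hgQ hgQ' e1 e2
      linarith
    have hGy : |s.g y| ≤ 1 / Q + 10 / 3 * s.e * B * S := by
      refine hg'.trans ?_
      have h7 : s.e * (y.1 + y.2 : ℝ) ≤ s.e * (2 * B * S) := mul_le_mul_of_nonneg_left hsum' hepos.le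
      clear hg hg' hgP hgP' hgQ hgQ' e1 e2
      linarith
    have hE0 : 0 < 1 / Q + 10 / 3 * s.e * B * S := by positivity
    have h3 : (y.2 : ℝ) * |s.g z| ≤ 2 * B * S * (1 / Q + 10 / 3 * s.e * B * S) :=
      mul_le_mul (by linarith) hGz (abs_nonneg _) (by positivity)
    have h4 : (z.2 : ℝ) * |s.g y| ≤ 2 * B * S * (1 / Q + 10 / 3 * s.e * B * S) :=
      mul_le_mul (by linarith) hGy (abs_nonneg _) (by positivity)
    have h5 := hp.H2 s h1 h2
    rw [← hS] at h5
    linarith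

lemma exists_res_of_ls_ne {Q B : ℝ} (k : ℕ) (s : Node) (h : ls k s (ww Q B) ≠ 0) :
    ∃ w : List Bool, w.length = k ∧ ((rt Q (s.desc w)).den : ℝ) ≤ B * (s.desc w).b := by
  by_contra hno
  push Not at hno
  apply h
  have : ls k s (ww Q B) = ls k s (fun _ => 0) := by
    apply ls_congr
    intro w hw
    unfold ww
    rw [if_neg (not_le.2 (hno w hw))]
  rw [this, ls_const]; simp

/-- Claim B -/
lemma claimB {Q B n1 n2 ℓ : ℝ} (hp : Params Q B n1 n2 ℓ) (k : ℕ) : ∀ (v : List Bool),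
    n2 ≤ (Node.root.desc v).a + (Node.root.desc v).b →
    n1 ≤ (Node.root.desc v).a + (Node.root.desc v).b + 0.9 * k →
    ls k (Node.root.desc v) (ww Q B) ≤ 3 / (n1 * Real.sqrt (ℓ / 2)) := by
  have hA := claimA hp
  generalize 3 / (n1 * Real.sqrt (ℓ / 2)) = E at hA ⊢
  induction k with
  | zero =>
    intro v _ h2
    apply hA v 0
    simpa using h2
  | succ k ih =>
    intro v h1 h2
    by_cases hn : n1 ≤ (Node.root.desc v).a + (Node.root.desc v).b
    · exact hA v (k + 1) hn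
    · push Not at hn
      have hL : Node.root.desc (v ++ [false]) = (Node.root.desc v).L := by
        rw [Node.desc_append]; rfl
      have hR : Node.root.desc (v ++ [true]) = (Node.root.desc v).R := by
        rw [Node.desc_append]; rfl
      have ihL := ih (v ++ [false])
      have ihR := ih (v ++ [true])
      rw [hL] at ihL
      rw [hR] at ihR
      simp only [Node.a_L, Node.b_L, Node.a_R, Node.b_R] at ihL ihR
      have c1 := (Node.root.desc v).c_ge_a
      have c2 := (Node.root.desc v).c_ge_b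
      push_cast at h2
      norm_num at c1 c2 h2 ihL ihR
      have ihL' := ihL (by linarith) (by linarith)
      have ihR' := ihR (by linarith) (by linarith)
      simp only [ls]
      by_cases hzL : ls k (Node.root.desc v).L (ww Q B) = 0
      · rw [hzL, zero_add]; exact ihR'
      · by_cases hzR : ls k (Node.root.desc v).R (ww Q B) = 0
        · rw [hzR, add_zero]; exact ihL'
        · exfalso
          obtain ⟨w1, _, hw1⟩ := exists_res_of_ls_ne k _ hzL
          obtain ⟨w2, _, hw2⟩ := exists_res_of_ls_ne k _ hzR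
          apply claimB_unique hp v w1 w2 h1 hn
          · rw [Node.desc_append]; exact hw1
          · rw [Node.desc_append]; exact hw2

/-- Claim C -/
lemma claimC {Q B n1 n2 ℓ : ℝ} (hp : Params Q B n1 n2 ℓ) (k : ℕ) : ∀ (v : List Bool),
    n1 ≤ (Node.root.desc v).a + (Node.root.desc v).b + 0.9 * k →
    ls k (Node.root.desc v) (ww Q B) ≤ (1 + CC k (Node.root.desc v) n2) * (3 / (n1 * Real.sqrt (ℓ / 2))) := by
  have hℓ := hp.hℓ
  have hn1 := hp.hn1
  have hsq : 0 < Real.sqrt (ℓ / 2) := Real.sqrt_pos.2 (by linarith)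
  have hE : 0 < 3 / (n1 * Real.sqrt (ℓ / 2)) := by positivity
  have hA := claimA hp
  have hB' := claimB hp
  generalize 3 / (n1 * Real.sqrt (ℓ / 2)) = E at hA hB' hE ⊢
  induction k with
  | zero =>
    intro v h2
    have := hA v 0 (by simpa using h2)
    simp only [CC]
    push_cast
    linarith
  | succ k ih =>
    intro v h2
    by_cases hn : n2 ≤ (Node.root.desc v).a + (Node.root.desc v).b
    · have := hB' (k + 1) v hn h2
      refine this.trans ?_
      apply le_mul_of_one_le_left hE.le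
      have : (0 : ℝ) ≤ CC (k + 1) (Node.root.desc v) n2 := by positivity
      linarith
    · push Not at hn
      have hL : Node.root.desc (v ++ [false]) = (Node.root.desc v).L := by
        rw [Node.desc_append]; rfl
      have hR : Node.root.desc (v ++ [true]) = (Node.root.desc v).R := by
        rw [Node.desc_append]; rfl
      have ihL := ih (v ++ [false])
      have ihR := ih (v ++ [true])
      rw [hL] at ihL
      rw [hR] at ihR
      simp only [Node.a_L, Node.b_L, Node.a_R, Node.b_R] at ihL ihR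
      have c1 := (Node.root.desc v).c_ge_a
      have c2 := (Node.root.desc v).c_ge_b
      have c3 := (Node.root.desc v).c_le
      push_cast at h2
      norm_num at c1 c2 h2 ihL ihR
      have ihL' := ihL (by linarith)
      have ihR' := ihR (by linarith)
      simp only [ls, CC]
      rw [if_pos (by linarith)]
      push_cast
      have e1 : (1 + (1 + (CC k (Node.root.desc v).L n2 : ℝ) + CC k (Node.root.desc v).R n2)) * E
        = (1 + (CC k (Node.root.desc v).L n2 : ℝ)) * E + (1 + (CC k (Node.root.desc v).R n2 : ℝ)) * E := by ring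
      rw [e1]
      exact add_le_add ihL' ihR'

end Pool.Agent.Hhelper88
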