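import Pool.Agent.Hhelper88.MkTri

set_option autoImplicit false

/-! The triangle counting function `TT α β r = #{(i,j) : i,j ≥ 1, iα + jβ ≤ r}`. -/

namespace Pool.Agent.Hhelper88

open Finset

/-- the set of lattice points -/
def TS (α β r : ℝ) : Set (ℕ × ℕ) := {p | 1 ≤ p.1 ∧ 1 ≤ p.2 ∧ p.1 * α + p.2 * β ≤ r}

/-- number of positive lattice points with `iα + jβ ≤ r` -/
noncomputable def TT (α β r : ℝ) : ℕ := (TS α β r).ncard

lemma TS_subset {α β r : ℝ} (hα : 0 < α) (hβ : 0 < β) :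
    TS α β r ⊆ ((Icc 1 ⌊r / α⌋₊ ×ˢ Icc 1 ⌊r / β⌋₊ : Finset (ℕ × ℕ)) : Set (ℕ × ℕ)) := by
  rintro ⟨i, j⟩ ⟨h1, h2, h3⟩
  simp only at h1 h2 h3
  simp only [coe_product, coe_Icc, Set.mem_prod, Set.mem_Icc]
  have hi : (0 : ℝ) ≤ i := by positivity
  have hj : (0 : ℝ) ≤ j := by positivity
  have hr : 0 ≤ r := by nlinarith
  refine ⟨⟨h1, ?_⟩, h2, ?_⟩
  · apply Nat.le_floor
    rw [le_div_iff₀ hα]
    nlinarith
  · apply Nat.le_floor
    rw [le_div_iff₀ hβ]
    nlinarith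

lemma TS_finite {α β r : ℝ} (hα : 0 < α) (hβ : 0 < β) : (TS α β r).Finite :=
  Set.Finite.subset (Finset.finite_toSet _) (TS_subset hα hβ)

lemma TT_le {α β r : ℝ} (hα : 0 < α) (hβ : 0 < β) (hr : 0 ≤ r) : (TT α β r : ℝ) ≤ r ^ 2 / (α * β) := by
  have h1 : TT α β r ≤ ⌊r / α⌋₊ * ⌊r / β⌋₊ := by
    unfold TT
    refine (Set.ncard_le_ncard (TS_subset hα hβ) (Finset.finite_toSet _)).trans ?_
    rw [Set.ncard_coe_finset]
    simp
  have h2 : ((TT α β r : ℕ) : ℝ) ≤ (⌊r / α⌋₊ : ℝ) * ⌊r / β⌋₊ := by exact_mod_cast h1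
  refine h2.trans ?_
  have h3 := Nat.floor_le (div_nonneg hr hα.le)
  have h4 := Nat.floor_le (div_nonneg hr hβ.le)
  calc (⌊r / α⌋₊ : ℝ) * ⌊r / β⌋₊ ≤ (r / α) * (r / β) :=
        mul_le_mul h3 h4 (by positivity) (by positivity)
    _ = r ^ 2 / (α * β) := by field_simp

lemma TT_zero {α β r : ℝ} (hα : 0 < α) (hβ : 0 < β) (h : r < α + β) : TT α β r = 0 := by
  have : TS α β r = ∅ := by
    ext ⟨i, j⟩
    simp only [TS, Set.mem_setOf_eq, Set.mem_empty_iff_false, iff_false, not_and, not_le]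
    intro h1 h2
    have h1' : (1 : ℝ) ≤ i := by exact_mod_cast h1
    have h2' : (1 : ℝ) ≤ j := by exact_mod_cast h2
    nlinarith
  unfold TT
  rw [this, Set.ncard_empty]

lemma TT_anti {α β α' β' r : ℝ} (hα : 0 < α) (hβ : 0 < β) (h1 : α ≤ α') (h2 : β ≤ β') :
    TT α' β' r ≤ TT α β r := by
  unfold TT
  apply Set.ncard_le_ncard _ (TS_finite hα hβ)
  rintro ⟨i, j⟩ ⟨h3, h4, h5⟩
  refine ⟨h3, h4, ?_⟩
  simp only at h3 h4 h5 ⊢
  have hi : (0 : ℝ) ≤ i := by positivity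
  have hj : (0 : ℝ) ≤ j := by positivity
  have := mul_le_mul_of_nonneg_left h1 hi
  have := mul_le_mul_of_nonneg_left h2 hj
  linarith

lemma TT_scale {α β r t : ℝ} (ht : 0 < t) : TT (α * t) (β * t) r = TT α β (r / t) := by
  unfold TT
  congr 1
  ext ⟨i, j⟩
  simp only [TS, Set.mem_setOf_eq]
  rw [le_div_iff₀ ht]
  have : ((i : ℝ) * α + j * β) * t = i * (α * t) + j * (β * t) := by ring
  rw [this]

lemma TT_rec {α β r : ℝ} (hα : 0 < α) (hβ : 0 < β) :
    TT α β r = TT α (α + β) r + TT (α + β) β r + ⌊r / (α + β)⌋₊ := by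
  have hαβ : 0 < α + β := by linarith
  set A : Set (ℕ × ℕ) := (fun p : ℕ × ℕ => (p.1 + p.2, p.2)) '' TS α (α + β) r with hA
  set B : Set (ℕ × ℕ) := (fun p : ℕ × ℕ => (p.1, p.1 + p.2)) '' TS (α + β) β r with hB
  set D : Set (ℕ × ℕ) := (fun i : ℕ => (i, i)) '' (Icc 1 ⌊r / (α + β)⌋₊ : Finset ℕ) with hD
  have hAf : A.Finite := (TS_finite hα hαβ).image _
  have hBf : B.Finite := (TS_finite hαβ hβ).image _
  have hDf : D.Finite := (Finset.finite_toSet _).image _
  have hunion : TS α β r = (A ∪ B) ∪ D := by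
    ext ⟨i, j⟩
    simp only [Set.mem_union, hA, hB, hD, Set.mem_image, Prod.mk.injEq]
    constructor
    · rintro ⟨h1, h2, h3⟩
      simp only at h1 h2 h3
      rcases lt_trichotomy i j with h | h | h
      · left; right
        refine ⟨(i, j - i), ⟨h1, by simp; omega, ?_⟩, rfl, by simp; omega⟩
        simp only
        rw [Nat.cast_sub h.le]
        linarith
      · right
        refine ⟨i, ?_, rfl, h⟩
        rw [coe_Icc]
        refine ⟨h1, ?_⟩
        apply Nat.le_floor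
        rw [le_div_iff₀ hαβ]
        subst h
        linarith
      · left; left
        refine ⟨(i - j, j), ⟨by simp; omega, h2, ?_⟩, by simp; omega, rfl⟩
        simp only
        rw [Nat.cast_sub h.le]
        linarith
    · rintro ((⟨⟨i', j'⟩, ⟨h1, h2, h3⟩, h4, h5⟩ | ⟨⟨i', j'⟩, ⟨h1, h2, h3⟩, h4, h5⟩) | ⟨k, hk, h4, h5⟩)
      · simp only at h1 h2 h3 h4 h5
        subst h4 h5
        refine ⟨by simp; omega, h2, ?_⟩
        push_cast
        linarith
      · simp only at h1 h2 h3 h4 h5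
        subst h4 h5
        refine ⟨h1, by simp; omega, ?_⟩
        push_cast
        linarith
      · subst h4 h5
        rw [coe_Icc] at hk
        have hk1 := hk.1
        have hk2 := hk.2
        have hr : (k : ℝ) ≤ r / (α + β) := by
          apply (Nat.le_floor_iff' (by omega)).1 hk2
        rw [le_div_iff₀ hαβ] at hr
        refine ⟨hk1, hk1, ?_⟩
        simp only
        linarith
  have hdis1 : Disjoint A B := by
    rw [Set.disjoint_left]
    rintro ⟨i, j⟩ h1 h2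
    simp only [hA, hB, Set.mem_image, Prod.mk.injEq] at h1 h2
    obtain ⟨⟨i', j'⟩, ⟨h11, h12, _⟩, h13, h14⟩ := h1
    obtain ⟨⟨i'', j''⟩, ⟨h21, h22, _⟩, h23, h24⟩ := h2
    simp only at *
    omega
  have hdis2 : Disjoint (A ∪ B) D := by
    rw [Set.disjoint_left]
    rintro ⟨i, j⟩ h1 h2
    simp only [hA, hB, hD, Set.mem_union, Set.mem_image, Prod.mk.injEq] at h1 h2
    obtain ⟨k, hk, h23, h24⟩ := h2
    rcases h1 with ⟨⟨i', j'⟩, ⟨h11, h12, _⟩, h13, h14⟩ | ⟨⟨i', j'⟩, ⟨h11, h12, _⟩, h13, h14⟩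
    · simp only at *
      omega
    · simp only at *
      omega
  unfold TT
  rw [hunion, Set.ncard_union_eq hdis2 (hAf.union hBf) hDf, Set.ncard_union_eq hdis1 hAf hBf]
  rw [hA, hB, hD, Set.ncard_image_of_injective, Set.ncard_image_of_injective,
    Set.ncard_image_of_injective, Set.ncard_coe_finset]
  · simp
  · intro i j h; simpa using h
  · rintro ⟨i, j⟩ ⟨i', j'⟩ h
    simp only [Prod.mk.injEq] at h ⊢
    omega
  · rintro ⟨i, j⟩ ⟨i', j'⟩ h
    simp only [Prod.mk.injEq] at h ⊢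
    omega

lemma TT_eq_sum {α β r : ℝ} (hα : 0 < α) (hβ : 0 < β) :
    TT α β r = ∑ i ∈ range ⌊r / α⌋₊, ⌊(r - ((i : ℝ) + 1) * α) / β⌋₊ := by
  have h1 : TS α β r = (((range ⌊r / α⌋₊).sigma (fun i => range ⌊(r - ((i : ℝ) + 1) * α) / β⌋₊) :
      Finset (Σ _ : ℕ, ℕ)) : Set (Σ _ : ℕ, ℕ)).image (fun p => (p.1 + 1, p.2 + 1)) := by
    ext ⟨i, j⟩
    simp only [Set.mem_image, coe_sigma, Set.mem_sigma_iff, coe_range, Set.mem_Iio, Prod.mk.injEq, TS,
      Set.mem_setOf_eq]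
    constructor
    · rintro ⟨h1, h2, h3⟩
      have hj : (1 : ℝ) ≤ j := by exact_mod_cast h2
      refine ⟨⟨i - 1, j - 1⟩, ⟨?_, ?_⟩, by simp; omega, by simp; omega⟩
      · simp only
        have : i ≤ ⌊r / α⌋₊ := by
          apply Nat.le_floor
          rw [le_div_iff₀ hα]
          nlinarith
        omega
      · simp only
        have : j ≤ ⌊(r - (((i - 1 : ℕ) : ℝ) + 1) * α) / β⌋₊ := by
          apply Nat.le_floor
          rw [le_div_iff₀ hβ, Nat.cast_sub h1]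
          push_cast
          linarith
        omega
    · rintro ⟨⟨i', j'⟩, ⟨h1, h2⟩, h3, h4⟩
      simp only at h1 h2 h3 h4
      subst h3 h4
      refine ⟨by omega, by omega, ?_⟩
      have : ((j' + 1 : ℕ) : ℝ) ≤ (r - ((i' : ℝ) + 1) * α) / β := by
        apply (Nat.le_floor_iff' (by omega)).1
        omega
      rw [le_div_iff₀ hβ] at this
      push_cast at this ⊢
      linarith
  unfold TT
  rw [h1, Set.ncard_image_of_injective, Set.ncard_coe_finset, Finset.card_sigma]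
  · simp
  · rintro ⟨i, j⟩ ⟨i', j'⟩ h
    simp only [Prod.mk.injEq] at h
    obtain ⟨h1, h2⟩ := h
    have : i = i' := by omega
    subst this
    have : j = j' := by omega
    subst this
    rfl

/-- The main term of `TT`. -/
noncomputable def mainT (α β r : ℝ) : ℝ := r ^ 2 / (2 * (α * β)) - r / 2 * (1 / α + 1 / β)

/-- Error bound for `TT` from a rational approximation to `α/β`. -/
lemma TT_approx {α β r : ℝ} (hα : 0 < α) (hβ : 0 < β) (hr : 0 ≤ r) (p : ℤ) (q : ℕ) (hq : 0 < q)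
    (hpq : IsCoprime p (q : ℤ)) (hθ : |α / β - p / q| ≤ 1 / (q : ℝ) ^ 2) :
    |(TT α β r : ℝ) - mainT α β r| ≤ 2 * (r / (α * q)) + q / 2 + α / β + 1 := by
  have hqR : (0 : ℝ) < q := by exact_mod_cast hq
  set K := ⌊r / α⌋₊ with hK
  have hK1 : (K : ℝ) ≤ r / α := Nat.floor_le (div_nonneg hr hα.le)
  have hK2 : r / α < K + 1 := Nat.lt_floor_add_one _
  have hnn : ∀ i ∈ range K, 0 ≤ (r - ((i : ℝ) + 1) * α) / β := by
    intro i hi
    rw [mem_range] at hi
    apply div_nonneg _ hβ.le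
    have h1 : ((i : ℝ) + 1) ≤ K := by exact_mod_cast hi
    have h2 : (K : ℝ) * α ≤ r := by
      rw [le_div_iff₀ hα] at hK1; exact hK1
    nlinarith
  have h1 : (TT α β r : ℝ) = ∑ i ∈ range K, (r - ((i : ℝ) + 1) * α) / β - (K : ℝ) / 2
      - ∑ i ∈ range K, (Int.fract ((r / β - α / β) - i * (α / β)) - 1 / 2) := by
    rw [TT_eq_sum hα hβ]
    push_cast
    have : ∀ i ∈ range K, ((⌊(r - ((i : ℝ) + 1) * α) / β⌋₊ : ℕ) : ℝ)
        = (r - ((i : ℝ) + 1) * α) / β - 1 / 2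
          - (Int.fract ((r / β - α / β) - i * (α / β)) - 1 / 2) := by
      intro i hi
      have e1 : (r / β - α / β) - i * (α / β) = (r - ((i : ℝ) + 1) * α) / β := by
        field_simp; ring
      rw [e1]
      have h2 := Int.floor_add_fract ((r - ((i : ℝ) + 1) * α) / β)
      have h3 : ((⌊(r - ((i : ℝ) + 1) * α) / β⌋₊ : ℕ) : ℝ) = ((⌊(r - ((i : ℝ) + 1) * α) / β⌋ : ℤ) : ℝ) := by
        rw [← natCast_floor_eq_intCast_floor (hnn i hi)]
      rw [h3]
      linarith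
    rw [sum_congr rfl this, sum_sub_distrib, sum_sub_distrib]
    simp
    ring
  have h2 := sawtooth_bound p q hq hpq (α / β) hθ K (r / β - α / β)
  have h3 : ∑ i ∈ range K, (r - ((i : ℝ) + 1) * α) / β = (K * r - α * (K * (K + 1) / 2)) / β := by
    rw [← sum_div]
    congr 1
    have h3 := Finset.sum_range_id_mul_two K
    have h4 : (∑ i ∈ range K, (i : ℝ)) * 2 = K * (K - 1) := by
      rcases Nat.eq_zero_or_pos K with hK0 | hK0
      · rw [hK0]; simp
      · have h3 : ((∑ i ∈ range K, i : ℕ) : ℝ) * 2 = K * ((K - 1 : ℕ) : ℝ) := by exact_mod_cast h3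
        rw [Nat.cast_sub hK0] at h3
        push_cast at h3
        exact h3
    have h5 : ∀ i ∈ range K, (r - ((i : ℝ) + 1) * α) = (r - α) - α * i := by intro i _; ring
    rw [sum_congr rfl h5, sum_sub_distrib, ← mul_sum]
    simp
    have h6 : (∑ i ∈ range K, (i : ℝ)) = K * (K - 1) / 2 := by linarith
    rw [h6]
    ring
  -- κ = r/α - K ∈ [0,1)
  set κ := r / α - K with hκ
  have hκ0 : 0 ≤ κ := by linarith
  have hκ1 : κ < 1 := by linarith
  have hr' : r = (K + κ) * α := by rw [hκ]; field_simp; ring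
  have h4 : ∑ i ∈ range K, (r - ((i : ℝ) + 1) * α) / β - (K : ℝ) / 2 - mainT α β r
      = α / β * (κ - κ ^ 2) / 2 + κ / 2 := by
    rw [h3]
    unfold mainT
    have : (K : ℝ) = r / α - κ := by rw [hκ]; ring
    rw [this]
    field_simp
    ring
  have h5 : (TT α β r : ℝ) - mainT α β r = α / β * (κ - κ ^ 2) / 2 + κ / 2
      - ∑ i ∈ range K, (Int.fract ((r / β - α / β) - i * (α / β)) - 1 / 2) := by
    rw [h1]; linarith
  rw [h5]
  refine (abs_sub _ _).trans ?_
  have hθp : 0 < α / β := div_pos hα hβ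
  have h6 : |α / β * (κ - κ ^ 2) / 2 + κ / 2| ≤ α / β + 1 := by
    have h7 : 0 ≤ κ - κ ^ 2 := by nlinarith
    have h8 : κ - κ ^ 2 ≤ 1 := by nlinarith
    rw [abs_of_nonneg (by positivity)]
    have h9 : α / β * (κ - κ ^ 2) ≤ α / β * 1 := mul_le_mul_of_nonneg_left h8 hθp.le
    linarith
  have h7 : (K : ℝ) / q ≤ r / (α * q) := by
    rw [← div_div]
    exact div_le_div_of_nonneg_right hK1 hqR.le
  linarith

end Pool.Agent.Hhelper88
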