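import Pool.Agent.Hhelper88.MkDesc
import Pool.Agent.Hhelper88.MkTT

set_option autoImplicit false

/-! Truncated tree sums. -/

namespace Pool.Agent.Hhelper88

open Finset

/-- `∑ ⌊r/γ⌋` over the nodes of depth `< k` below `s`. -/
noncomputable def NN : ℕ → Node → ℝ → ℕ
  | 0, _, _ => 0
  | k + 1, s, r => ⌊r / s.c⌋₊ + NN k s.L r + NN k s.R r

open Classical in
/-- number of nodes of depth `< k` below `s` with `γ ≤ r` -/
noncomputable def CC : ℕ → Node → ℝ → ℕ
  | 0, _, _ => 0
  | k + 1, s, r => (if s.c ≤ r then 1 else 0) + CC k s.L r + CC k s.R r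

/-- sum of `F` over the descendants at depth exactly `k` -/
noncomputable def ls : ℕ → Node → (Node → ℝ) → ℝ
  | 0, s, F => F s
  | k + 1, s, F => ls k s.L F + ls k s.R F

/-- sum of `1/γ` over nodes of depth `< k` -/
noncomputable def IS : ℕ → Node → ℝ
  | 0, _ => 0
  | k + 1, s => 1 / s.c + IS k s.L + IS k s.R

lemma ls_mono (k : ℕ) : ∀ (s : Node) (F G : Node → ℝ),
    (∀ w : List Bool, w.length = k → F (s.desc w) ≤ G (s.desc w)) → ls k s F ≤ ls k s G := by
  induction k with
  | zero => intro s F G h; exact h [] rfl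
  | succ k ih =>
    intro s F G h
    simp only [ls]
    apply add_le_add
    · exact ih _ _ _ (fun w hw => h (false :: w) (by simp [hw]))
    · exact ih _ _ _ (fun w hw => h (true :: w) (by simp [hw]))

lemma ls_congr (k : ℕ) (s : Node) (F G : Node → ℝ)
    (h : ∀ w : List Bool, w.length = k → F (s.desc w) = G (s.desc w)) : ls k s F = ls k s G :=
  le_antisymm (ls_mono k s F G (fun w hw => (h w hw).le)) (ls_mono k s G F (fun w hw => (h w hw).ge))

lemma ls_add (k : ℕ) : ∀ (s : Node) (F G : Node → ℝ),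
    ls k s (fun t => F t + G t) = ls k s F + ls k s G := by
  induction k with
  | zero => intro s F G; rfl
  | succ k ih => intro s F G; simp only [ls]; rw [ih, ih]; ring

lemma ls_mul (k : ℕ) : ∀ (s : Node) (c : ℝ) (F : Node → ℝ),
    ls k s (fun t => c * F t) = c * ls k s F := by
  induction k with
  | zero => intro s c F; rfl
  | succ k ih => intro s c F; simp only [ls]; rw [ih, ih]; ring

lemma ls_sub (k : ℕ) (s : Node) (F G : Node → ℝ) :
    ls k s (fun t => F t - G t) = ls k s F - ls k s G := by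
  have h1 : ls k s (fun t => F t - G t) = ls k s (fun t => F t + (-1) * G t) :=
    ls_congr k s _ _ (fun w _ => by ring)
  rw [h1, ls_add, ls_mul]; ring

lemma ls_const (k : ℕ) : ∀ (s : Node) (c : ℝ), ls k s (fun _ => c) = 2 ^ k * c := by
  induction k with
  | zero => intro s c; simp [ls]
  | succ k ih => intro s c; simp only [ls]; rw [ih, ih]; ring

lemma ls_nonneg (k : ℕ) (s : Node) (F : Node → ℝ)
    (h : ∀ w : List Bool, w.length = k → 0 ≤ F (s.desc w)) : 0 ≤ ls k s F := by
  have := ls_mono k s (fun _ => 0) F h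
  rw [ls_const] at this
  simpa using this

lemma abs_ls_le (k : ℕ) (s : Node) (F : Node → ℝ) : |ls k s F| ≤ ls k s (fun t => |F t|) := by
  rw [abs_le]
  constructor
  · have := ls_mono k s (fun t => (-1) * |F t|) F (fun w _ => by have := neg_abs_le (F (s.desc w)); linarith)
    rw [ls_mul] at this; linarith
  · exact ls_mono k s _ _ (fun w _ => le_abs_self _)

lemma ls_comp (k : ℕ) : ∀ (m : ℕ) (s : Node) (F : Node → ℝ),
    ls (k + m) s F = ls k s (fun t => ls m t F) := by
  induction k with
  | zero => intro m s F; rw [Nat.zero_add]; rfl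
  | succ k ih => intro m s F; rw [show k + 1 + m = (k + m) + 1 by ring]; simp only [ls]; rw [ih, ih]

lemma NN_add (k : ℕ) : ∀ (m : ℕ) (s : Node) (r : ℝ),
    (NN (k + m) s r : ℝ) = NN k s r + ls k s (fun t => (NN m t r : ℝ)) := by
  induction k with
  | zero => intro m s r; rw [Nat.zero_add]; simp [NN, ls]
  | succ k ih =>
    intro m s r
    rw [show k + 1 + m = (k + m) + 1 by ring]
    simp only [NN, ls]
    push_cast
    rw [ih, ih]; ring

namespace Node

lemma one_sub_e_pos (s : Node) : 0 < 1 - s.e := by have := s.e_le; norm_num at this; linarith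

end Node

lemma NN_upper (m : ℕ) : ∀ (s : Node) (r : ℝ), 0 ≤ r → NN m s r ≤ TT s.a s.b (r / (1 - s.e)) := by
  induction m with
  | zero => intro s r _; simp [NN]
  | succ m ih =>
    intro s r hr
    have ha := s.a_pos
    have hb := s.b_pos
    have hc := s.c_pos
    have hab := s.ab_ge
    have he := s.one_sub_e_pos
    have hep := s.e_pos
    simp only [NN]
    rw [← TT_scale he, TT_rec (mul_pos ha he) (mul_pos hb he)]
    have hL := ih s.L r hr
    have hR := ih s.R r hr
    rw [← TT_scale s.L.one_sub_e_pos] at hL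
    rw [← TT_scale s.R.one_sub_e_pos] at hR
    have h1 : s.a * (1 - s.e) + s.b * (1 - s.e) ≤ s.c := by
      rw [s.c_eq]; nlinarith
    have h2 : ⌊r / s.c⌋₊ ≤ ⌊r / (s.a * (1 - s.e) + s.b * (1 - s.e))⌋₊ := by
      apply Nat.floor_le_floor
      apply div_le_div_of_nonneg_left hr _ h1
      exact add_pos (mul_pos ha he) (mul_pos hb he)
    have h3 : s.a * (1 - s.e) ≤ s.L.a * (1 - s.L.e) := by
      rw [Node.a_L]
      have := s.e_L_le
      have := s.L.e_pos
      apply mul_le_mul_of_nonneg_left _ ha.le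
      linarith
    have h4 : s.a * (1 - s.e) + s.b * (1 - s.e) ≤ s.L.b * (1 - s.L.e) := by
      rw [Node.b_L, s.c_eq]
      have h5 := s.e_L_le
      have h6 := s.L.e_pos
      have h7 : (s.a + s.b - s.e) * s.L.e ≤ (s.a + s.b) * (s.e / 5) := by
        apply mul_le_mul (by linarith) (by linarith) h6.le (by linarith)
      nlinarith
    have h3' : s.b * (1 - s.e) ≤ s.R.b * (1 - s.R.e) := by
      rw [Node.b_R]
      have := s.e_R_le
      have := s.R.e_pos
      apply mul_le_mul_of_nonneg_left _ hb.le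
      linarith
    have h4' : s.a * (1 - s.e) + s.b * (1 - s.e) ≤ s.R.a * (1 - s.R.e) := by
      rw [Node.a_R, s.c_eq]
      have h5 := s.e_R_le
      have h6 := s.R.e_pos
      have h7 : (s.a + s.b - s.e) * s.R.e ≤ (s.a + s.b) * (s.e / 5) := by
        apply mul_le_mul (by linarith) (by linarith) h6.le (by linarith)
      nlinarith
    have hLL := TT_anti (r := r) (mul_pos ha he) (add_pos (mul_pos ha he) (mul_pos hb he)) h3 h4
    have hRR := TT_anti (r := r) (add_pos (mul_pos ha he) (mul_pos hb he)) (mul_pos hb he) h4' h3'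
    omega

lemma NN_lower (m : ℕ) : ∀ (s : Node) (r : ℝ), 0 ≤ r → r < s.a + s.b + 0.9 * m →
    TT s.a s.b r ≤ NN m s r := by
  induction m with
  | zero =>
    intro s r _ h
    rw [TT_zero s.a_pos s.b_pos (by simpa using h)]
    simp
  | succ m ih =>
    intro s r hr h
    have ha := s.a_pos
    have hb := s.b_pos
    have hc := s.c_pos
    have h1 := s.c_ge_a
    have h2 := s.c_ge_b
    push_cast at h
    have hL := ih s.L r hr (by rw [Node.a_L, Node.b_L]; norm_num at *; linarith)
    have hR := ih s.R r hr (by rw [Node.a_R, Node.b_R]; norm_num at *; linarith)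
    rw [Node.a_L, Node.b_L] at hL
    rw [Node.a_R, Node.b_R] at hR
    rw [TT_rec ha hb]
    simp only [NN]
    have h3 := TT_anti (r := r) ha hc le_rfl s.c_le
    have h4 := TT_anti (r := r) hc hb s.c_le le_rfl
    have h5 : ⌊r / (s.a + s.b)⌋₊ ≤ ⌊r / s.c⌋₊ := by
      apply Nat.floor_le_floor
      exact div_le_div_of_nonneg_left hr hc s.c_le
    omega

/-- area density -/
noncomputable def AD (s : Node) : ℝ := 1 / (s.a * s.b)

lemma AD_pos (s : Node) : 0 < AD s := by
  have := s.a_pos; have := s.b_pos; unfold AD; positivity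

lemma AD_children (s : Node) : AD s.L + AD s.R = AD s * (1 + s.e / s.c) := by
  have ha := s.a_pos
  have hb := s.b_pos
  have hc := s.c_pos
  unfold AD
  simp only [Node.a_L, Node.b_L, Node.a_R, Node.b_R]
  have : s.e = s.a + s.b - s.c := rfl
  rw [this]
  field_simp
  ring

lemma ls_AD_le (k : ℕ) : ∀ s : Node, ls k s AD ≤ (1 + 2 * s.e) * AD s := by
  induction k with
  | zero => intro s; have := s.e_pos; have := AD_pos s; simp only [ls]; nlinarith
  | succ k ih =>
    intro s
    simp only [ls]
    have h1 := ih s.L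
    have h2 := ih s.R
    have h3 := AD_children s
    have h4 := s.e_L_le
    have h5 := s.e_R_le
    have pL := AD_pos s.L
    have pR := AD_pos s.R
    have p := AD_pos s
    have he := s.e_pos
    have he2 := s.e_le
    have hc : s.e / s.c ≤ s.e := by
      apply div_le_self he.le
      have := s.c_ge_a; have := s.a_ge; norm_num at *; linarith
    have hc0 : 0 ≤ s.e / s.c := div_nonneg he.le s.c_pos.le
    have h6 : (1 + 2 * s.L.e) * AD s.L ≤ (1 + 2 / 5 * s.e) * AD s.L := by
      apply mul_le_mul_of_nonneg_right _ pL.le; linarith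
    have h7 : (1 + 2 * s.R.e) * AD s.R ≤ (1 + 2 / 5 * s.e) * AD s.R := by
      apply mul_le_mul_of_nonneg_right _ pR.le; linarith
    calc ls k s.L AD + ls k s.R AD ≤ (1 + 2 / 5 * s.e) * (AD s.L + AD s.R) := by linarith
      _ = (1 + 2 / 5 * s.e) * (1 + s.e / s.c) * AD s := by rw [h3]; ring
      _ ≤ (1 + 2 / 5 * s.e) * (1 + s.e) * AD s := by
        apply mul_le_mul_of_nonneg_right _ p.le
        apply mul_le_mul_of_nonneg_left _ (by linarith)
        linarith
      _ ≤ (1 + 2 * s.e) * AD s := by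
        apply mul_le_mul_of_nonneg_right _ p.le
        norm_num at he2
        nlinarith

lemma ls_AD_ge (k : ℕ) : ∀ s : Node, AD s ≤ ls k s AD := by
  induction k with
  | zero => intro s; exact le_rfl
  | succ k ih =>
    intro s
    simp only [ls]
    have h1 := ih s.L
    have h2 := ih s.R
    have h3 := AD_children s
    have p := AD_pos s
    have hc0 : 0 ≤ s.e / s.c := div_nonneg s.e_pos.le s.c_pos.le
    have : AD s ≤ AD s.L + AD s.R := by rw [h3]; nlinarith
    linarith

lemma IS_identity (k : ℕ) : ∀ s : Node,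
    IS k s - 1 / 2 * ls k s (fun t => 1 / t.a + 1 / t.b) = -(1 / 2 * (1 / s.a + 1 / s.b)) := by
  induction k with
  | zero => intro s; simp only [IS, ls]; ring
  | succ k ih =>
    intro s
    have h1 := ih s.L
    have h2 := ih s.R
    simp only [IS, ls]
    simp only [Node.a_L, Node.b_L, Node.a_R, Node.b_R] at h1 h2
    linarith

lemma NN_IS (k : ℕ) : ∀ (s : Node) (r : ℝ), 0 ≤ r →
    (NN k s r : ℝ) ≤ r * IS k s ∧ r * IS k s ≤ NN k s r + (2 ^ k - 1) := by
  induction k with
  | zero => intro s r _; simp [NN, IS]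
  | succ k ih =>
    intro s r hr
    obtain ⟨l1, l2⟩ := ih s.L r hr
    obtain ⟨r1, r2⟩ := ih s.R r hr
    simp only [NN, IS]
    push_cast
    have h1 : (⌊r / s.c⌋₊ : ℝ) ≤ r / s.c := Nat.floor_le (div_nonneg hr s.c_pos.le)
    have h2 : r / s.c < ⌊r / s.c⌋₊ + 1 := Nat.lt_floor_add_one _
    have h3 : r * (1 / s.c + IS k s.L + IS k s.R) = r / s.c + r * IS k s.L + r * IS k s.R := by ring
    rw [h3, pow_succ]
    constructor <;> linarith

namespace Node

lemma ab_desc (w : List Bool) : ∀ s : Node, s.a + s.b + 0.9 * w.length ≤ (s.desc w).a + (s.desc w).b := by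
  induction w with
  | nil => intro s; simp
  | cons b w ih =>
    intro s
    have h1 := s.c_ge_a
    have h2 := s.c_ge_b
    cases b
    · have := ih s.L
      simp only [a_L, b_L] at this
      simp only [desc_false, List.length_cons]
      push_cast
      norm_num at *
      linarith
    · have := ih s.R
      simp only [a_R, b_R] at this
      simp only [desc_true, List.length_cons]
      push_cast
      norm_num at *
      linarith

lemma e_le_exp (s : Node) : s.e ≤ 5.2 * Real.exp (-2 * (s.a + s.b)) := by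
  have h := s.e_upper
  have h1 : Real.exp (-2 * (s.a + s.b)) = 1 / s.Lm ^ 2 := by
    rw [← s.exp_ab, ← Real.exp_nat_mul, one_div, ← Real.exp_neg]
    congr 1; push_cast; ring
  rw [h1]; rw [mul_one_div]; exact h

lemma e_ge_exp (s : Node) : 3.98 * Real.exp (-2 * (s.a + s.b)) ≤ s.e := by
  have h := s.e_lower
  have h1 : Real.exp (-2 * (s.a + s.b)) = 1 / s.Lm ^ 2 := by
    rw [← s.exp_ab, ← Real.exp_nat_mul, one_div, ← Real.exp_neg]
    congr 1; push_cast; ring
  rw [h1]; rw [mul_one_div]; exact h

end Node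

lemma ls_ab_le (k : ℕ) : ∀ s : Node, ls k s (fun t => t.a + t.b) ≤ 3 ^ k * (s.a + s.b) := by
  induction k with
  | zero => intro s; simp [ls]
  | succ k ih =>
    intro s
    simp only [ls]
    have h1 := ih s.L
    have h2 := ih s.R
    simp only [Node.a_L, Node.b_L, Node.a_R, Node.b_R] at h1 h2
    have h3 := s.c_le
    have h4 : (3 : ℝ) ^ k * (s.a + s.c) + 3 ^ k * (s.c + s.b) ≤ 3 ^ (k + 1) * (s.a + s.b) := by
      have : (0 : ℝ) < 3 ^ k := by positivity
      rw [pow_succ]; nlinarith
    linarith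

lemma CC_le_NN (k : ℕ) : ∀ (s : Node) (r : ℝ), CC k s r ≤ NN k s r := by
  induction k with
  | zero => intro s r; simp [CC, NN]
  | succ k ih =>
    intro s r
    simp only [CC, NN]
    have h1 := ih s.L r
    have h2 := ih s.R r
    have h3 : (if s.c ≤ r then 1 else 0) ≤ ⌊r / s.c⌋₊ := by
      split_ifs with h
      · rw [Nat.one_le_floor_iff, one_le_div s.c_pos]; exact h
      · simp
    omega

lemma CC_le (k : ℕ) (s : Node) (r : ℝ) (hr : 0 ≤ r) : (CC k s r : ℝ) ≤ 2 * r ^ 2 := by
  have h1 : (CC k s r : ℝ) ≤ TT s.a s.b (r / (1 - s.e)) := by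
    exact_mod_cast (CC_le_NN k s r).trans (NN_upper k s r hr)
  have he := s.one_sub_e_pos
  have he2 := s.e_le
  refine h1.trans ((TT_le s.a_pos s.b_pos (div_nonneg hr he.le)).trans ?_)
  have ha := s.a_ge
  have hb := s.b_ge
  have hap := s.a_pos
  have hbp := s.b_pos
  rw [div_pow, div_div, div_le_iff₀ (by positivity)]
  have h2 : (0.5 : ℝ) ≤ (1 - s.e) ^ 2 * (s.a * s.b) := by
    norm_num at *
    have h3 : (0.9 : ℝ) ≤ s.a * s.b := by norm_num; nlinarith
    have h4 : (0.9 : ℝ) ≤ (1 - s.e) ^ 2 := by norm_num; nlinarith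
    norm_num at h3 h4
    nlinarith
  have h5 : 0 ≤ r ^ 2 := sq_nonneg r
  nlinarith

end Pool.Agent.Hhelper88
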