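import Mathlib

set_option autoImplicit false

/-! Lattice points in right triangles and sawtooth sums. -/

namespace Pool.Agent.Hhelper88

open Finset

/-- permutation sum: `∑_{i<q} ((n - i p) mod q) = q(q-1)/2` for coprime `p,q`. -/
lemma sum_emod_perm (p n : ℤ) (q : ℕ) (hq : 0 < q) (hpq : IsCoprime p (q : ℤ)) :
    ∑ i ∈ range q, (((n - i * p) % (q : ℤ) : ℤ) : ℝ) = (q : ℝ) * (q - 1) / 2 := by
  have hq' : (0 : ℤ) < q := by exact_mod_cast hq
  have hmaps : ∀ i ∈ range q, ((n - i * p) % (q : ℤ)).toNat ∈ range q := by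
    intro i _
    rw [mem_range]
    have h1 := Int.emod_lt_of_pos (n - i * p) hq'
    have h2 := Int.emod_nonneg (n - i * p) hq'.ne'
    omega
  have hinj : Set.InjOn (fun i : ℕ => ((n - i * p) % (q : ℤ)).toNat) (range q : Set ℕ) := by
    intro i hi j hj hij
    simp only [coe_range, Set.mem_Iio] at hi hj
    simp only at hij
    have h2 := Int.emod_nonneg (n - i * p) hq'.ne'
    have h3 := Int.emod_nonneg (n - j * p) hq'.ne'
    have h4 : (n - i * p) % (q : ℤ) = (n - j * p) % (q : ℤ) := by omega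
    have h5 : (q : ℤ) ∣ (n - i * p) - (n - j * p) := Int.ModEq.dvd (by exact h4.symm)
    have h6 : (q : ℤ) ∣ (j - i : ℤ) * p := by
      have : (n - i * p) - (n - j * p) = (j - i : ℤ) * p := by ring
      rwa [this] at h5
    have h7 : (q : ℤ) ∣ (j - i : ℤ) := hpq.symm.dvd_of_dvd_mul_right h6
    by_contra hne
    have h8 : (j - i : ℤ) ≠ 0 := by omega
    have h9 := Int.le_of_dvd (abs_pos.2 h8) ((dvd_abs _ _).2 h7)
    have h10 : |(j - i : ℤ)| < q := by rw [abs_lt]; omega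
    omega
  have hsurj := Finset.surjOn_of_injOn_of_card_le (fun i : ℕ => ((n - i * p) % (q : ℤ)).toNat)
    (s := range q) (t := range q) (by intro i hi; exact hmaps i hi) hinj le_rfl
  have himg : (range q).image (fun i : ℕ => ((n - i * p) % (q : ℤ)).toNat) = range q := by
    apply Finset.eq_of_subset_of_card_le
    · intro x hx
      rw [mem_image] at hx
      obtain ⟨i, hi, rfl⟩ := hx
      exact hmaps i hi
    · rw [Finset.card_image_of_injOn hinj]
  have h1 : ∑ i ∈ range q, (((n - i * p) % (q : ℤ) : ℤ) : ℝ)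
      = ∑ i ∈ range q, ((((n - i * p) % (q : ℤ)).toNat : ℕ) : ℝ) := by
    apply sum_congr rfl
    intro i _
    have h2 := Int.emod_nonneg (n - i * p) hq'.ne'
    have : ((((n - i * p) % (q : ℤ)).toNat : ℕ) : ℤ) = (n - i * p) % (q : ℤ) := Int.toNat_of_nonneg h2
    exact_mod_cast this.symm
  rw [h1, ← Finset.sum_image (f := fun m : ℕ => (m : ℝ)) hinj, himg]
  have := Finset.sum_range_id_mul_two q
  have h2 : (∑ i ∈ range q, (i : ℝ)) * 2 = q * (q - 1) := by
    have h3 : ((∑ i ∈ range q, i : ℕ) : ℝ) * 2 = q * ((q - 1 : ℕ) : ℝ) := by exact_mod_cast this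
    rw [Nat.cast_sub hq] at h3
    push_cast at h3
    exact h3
  linarith

lemma fract_div (m : ℤ) (φ : ℝ) (q : ℕ) (hq : 0 < q) (h0 : 0 ≤ φ) (h1 : φ < 1) :
    Int.fract (((m : ℝ) + φ) / q) = (((m % (q : ℤ) : ℤ) : ℝ) + φ) / q := by
  have hq' : (0 : ℤ) < q := by exact_mod_cast hq
  have hqR : (0 : ℝ) < q := by exact_mod_cast hq
  rw [Int.fract_eq_iff]
  have hm0 : (0 : ℝ) ≤ ((m % (q : ℤ) : ℤ) : ℝ) := by exact_mod_cast Int.emod_nonneg m hq'.ne'
  have hm1 : ((m % (q : ℤ) : ℤ) : ℝ) ≤ (q : ℝ) - 1 := by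
    have : m % (q : ℤ) ≤ (q : ℤ) - 1 := by have := Int.emod_lt_of_pos m hq'; omega
    exact_mod_cast this
  refine ⟨by positivity, ?_, m / (q : ℤ), ?_⟩
  · rw [div_lt_one hqR]; linarith
  · have h := Int.emod_add_mul_ediv m (q : ℤ)
    have h' : (m : ℝ) = ((m % (q : ℤ) : ℤ) : ℝ) + (q : ℝ) * ((m / (q : ℤ) : ℤ) : ℝ) := by
      exact_mod_cast h.symm
    field_simp
    rw [h']
    ring

lemma sum_fract_rational (p : ℤ) (q : ℕ) (hq : 0 < q) (hpq : IsCoprime p (q : ℤ)) (y : ℝ) :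
    ∑ i ∈ range q, Int.fract (y - i * (p / q)) = Int.fract (q * y) + ((q : ℝ) - 1) / 2 := by
  have hqR : (0 : ℝ) < q := by exact_mod_cast hq
  have h1 : ∀ i ∈ range q, Int.fract (y - i * ((p : ℝ) / q))
      = ((((⌊q * y⌋ - i * p) % (q : ℤ) : ℤ) : ℝ) + Int.fract (q * y)) / q := by
    intro i _
    rw [← fract_div _ _ q hq (Int.fract_nonneg _) (Int.fract_lt_one _)]
    congr 1
    have h := Int.floor_add_fract ((q : ℝ) * y)
    rw [eq_div_iff hqR.ne']
    push_cast
    have e1 : (y - i * ((p : ℝ) / q)) * q = q * y - i * p := by field_simp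
    rw [e1]
    linarith
  rw [sum_congr rfl h1, ← sum_div, sum_add_distrib, sum_emod_perm p _ q hq hpq]
  simp
  field_simp
  ring

/-- one full block of the sawtooth sum -/
lemma block_bound (p : ℤ) (q : ℕ) (hq : 0 < q) (hpq : IsCoprime p (q : ℤ)) (θ x : ℝ)
    (hθ : |θ - p / q| ≤ 1 / (q : ℝ) ^ 2) :
    |∑ i ∈ range q, (Int.fract (x - i * θ) - 1 / 2)| ≤ 2 := by
  have hqR : (0 : ℝ) < q := by exact_mod_cast hq
  have hq1 : (1 : ℝ) ≤ q := by exact_mod_cast hq
  have hiδ : ∀ i ∈ range q, |(i : ℝ) * (θ - p / q)| ≤ 1 / q := by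
    intro i hi
    rw [mem_range] at hi
    have hi' : (i : ℝ) ≤ q := by exact_mod_cast hi.le
    rw [abs_mul, abs_of_nonneg (by positivity : (0 : ℝ) ≤ i)]
    calc (i : ℝ) * |θ - p / q| ≤ q * (1 / (q : ℝ) ^ 2) :=
          mul_le_mul hi' hθ (abs_nonneg _) (by positivity)
      _ = 1 / q := by field_simp
  have hup : ∀ i ∈ range q, ((⌊x - i * θ⌋ : ℤ) : ℝ) ≤ ((⌊(x + 1 / q) - i * ((p : ℝ) / q)⌋ : ℤ) : ℝ) := by
    intro i hi
    have h := abs_le.1 (hiδ i hi)
    have : x - i * θ ≤ (x + 1 / q) - i * ((p : ℝ) / q) := by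
      have : (i : ℝ) * (θ - p / q) = i * θ - i * (p / q) := by ring
      linarith [h.1]
    exact_mod_cast Int.floor_le_floor this
  have hlo : ∀ i ∈ range q, ((⌊(x - 1 / q) - i * ((p : ℝ) / q)⌋ : ℤ) : ℝ) ≤ ((⌊x - i * θ⌋ : ℤ) : ℝ) := by
    intro i hi
    have h := abs_le.1 (hiδ i hi)
    have : (x - 1 / q) - i * ((p : ℝ) / q) ≤ x - i * θ := by
      have : (i : ℝ) * (θ - p / q) = i * θ - i * (p / q) := by ring
      linarith [h.2]
    exact_mod_cast Int.floor_le_floor this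
  have hup' := sum_le_sum hup
  have hlo' := sum_le_sum hlo
  have e : ∀ y : ℝ, ∑ i ∈ range q, ((⌊y - i * ((p : ℝ) / q)⌋ : ℤ) : ℝ)
      = ∑ i ∈ range q, (y - i * ((p : ℝ) / q)) - (Int.fract (q * y) + ((q : ℝ) - 1) / 2) := by
    intro y
    rw [← sum_fract_rational p q hq hpq y, ← sum_sub_distrib]
    apply sum_congr rfl
    intro i _
    have := Int.floor_add_fract (y - i * ((p : ℝ) / q))
    linarith
  rw [e] at hup' hlo'
  have f1 : Int.fract ((q : ℝ) * (x + 1 / q)) = Int.fract (q * x) := by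
    have : (q : ℝ) * (x + 1 / q) = q * x + 1 := by field_simp
    rw [this, Int.fract_add_one]
  have f2 : Int.fract ((q : ℝ) * (x - 1 / q)) = Int.fract (q * x) := by
    have : (q : ℝ) * (x - 1 / q) = q * x - 1 := by field_simp
    rw [this, Int.fract_sub_one]
  rw [f1] at hup'
  rw [f2] at hlo'
  have s1 : ∑ i ∈ range q, ((x + 1 / q) - i * ((p : ℝ) / q)) = ∑ i ∈ range q, (x - i * ((p : ℝ) / q)) + 1 := by
    have : ∀ i ∈ range q, ((x + 1 / q) - i * ((p : ℝ) / q)) = (x - i * ((p : ℝ) / q)) + 1 / q := by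
      intro i _; ring
    rw [sum_congr rfl this, sum_add_distrib]
    simp
    field_simp
  have s2 : ∑ i ∈ range q, ((x - 1 / q) - i * ((p : ℝ) / q)) = ∑ i ∈ range q, (x - i * ((p : ℝ) / q)) - 1 := by
    have : ∀ i ∈ range q, ((x - 1 / q) - i * ((p : ℝ) / q)) = (x - i * ((p : ℝ) / q)) - 1 / q := by
      intro i _; ring
    rw [sum_congr rfl this, sum_sub_distrib]
    simp
    field_simp
  rw [s1] at hup'
  rw [s2] at hlo'
  have hS : ∑ i ∈ range q, (Int.fract (x - i * θ) - 1 / 2)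
      = ∑ i ∈ range q, (x - i * θ) - ∑ i ∈ range q, ((⌊x - i * θ⌋ : ℤ) : ℝ) - q / 2 := by
    have : ∀ i ∈ range q, (Int.fract (x - i * θ) - 1 / 2) = (x - i * θ) - ((⌊x - i * θ⌋ : ℤ) : ℝ) - 1 / 2 := by
      intro i _
      have := Int.floor_add_fract (x - i * θ)
      linarith
    rw [sum_congr rfl this, sum_sub_distrib, sum_sub_distrib]
    simp
    ring
  have hd : |∑ i ∈ range q, (x - i * θ) - ∑ i ∈ range q, (x - i * ((p : ℝ) / q))| ≤ 1 / 2 := by
    rw [← sum_sub_distrib]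
    have : ∀ i ∈ range q, (x - i * θ) - (x - i * ((p : ℝ) / q)) = -(θ - p / q) * i := by
      intro i _; ring
    rw [sum_congr rfl this, ← mul_sum, abs_mul, abs_neg]
    have h3 := Finset.sum_range_id_mul_two q
    have h2 : (∑ i ∈ range q, (i : ℝ)) * 2 = q * (q - 1) := by
      have h3 : ((∑ i ∈ range q, i : ℕ) : ℝ) * 2 = q * ((q - 1 : ℕ) : ℝ) := by exact_mod_cast h3
      rw [Nat.cast_sub hq] at h3
      push_cast at h3
      exact h3
    have h4 : (0 : ℝ) ≤ ∑ i ∈ range q, (i : ℝ) := sum_nonneg (fun _ _ => by positivity)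
    rw [abs_of_nonneg h4]
    have h5 : ∑ i ∈ range q, (i : ℝ) ≤ (q : ℝ) ^ 2 / 2 := by nlinarith
    calc |θ - p / q| * ∑ i ∈ range q, (i : ℝ) ≤ 1 / (q : ℝ) ^ 2 * ((q : ℝ) ^ 2 / 2) :=
          mul_le_mul hθ h5 h4 (by positivity)
      _ = 1 / 2 := by field_simp
  rw [hS]
  have hf0 := Int.fract_nonneg ((q : ℝ) * x)
  have hf1 := Int.fract_lt_one ((q : ℝ) * x)
  have hd' := abs_le.1 hd
  rw [abs_le]
  constructor <;> linarith

/-- general sawtooth sum -/
lemma sawtooth_bound (p : ℤ) (q : ℕ) (hq : 0 < q) (hpq : IsCoprime p (q : ℤ)) (θ : ℝ)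
    (hθ : |θ - p / q| ≤ 1 / (q : ℝ) ^ 2) (K : ℕ) : ∀ x : ℝ,
    |∑ i ∈ range K, (Int.fract (x - i * θ) - 1 / 2)| ≤ 2 * (K / q) + q / 2 := by
  have hqR : (0 : ℝ) < q := by exact_mod_cast hq
  induction K using Nat.strong_induction_on with
  | _ K ih =>
    intro x
    rcases Nat.lt_or_ge K q with hK | hK
    · have hK' : (K : ℝ) ≤ q := by exact_mod_cast hK.le
      refine (abs_sum_le_sum_abs _ _).trans ?_
      have h1 : ∀ i ∈ range K, |Int.fract (x - i * θ) - 1 / 2| ≤ 1 / 2 := by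
        intro i _
        have hf0 := Int.fract_nonneg (x - i * θ)
        have hf1 := Int.fract_lt_one (x - i * θ)
        rw [abs_le]; constructor <;> linarith
      refine (sum_le_sum h1).trans ?_
      simp
      have : (0 : ℝ) ≤ 2 * (K / q) := by positivity
      linarith
    · obtain ⟨m, rfl⟩ := Nat.exists_eq_add_of_le hK
      rw [sum_range_add]
      refine (abs_add_le _ _).trans ?_
      have h1 := block_bound p q hq hpq θ x hθ
      have h2 := ih m (by omega) (x - q * θ)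
      have h3 : ∑ i ∈ range m, (Int.fract (x - ((q + i : ℕ) : ℝ) * θ) - 1 / 2)
          = ∑ i ∈ range m, (Int.fract ((x - q * θ) - i * θ) - 1 / 2) := by
        apply sum_congr rfl
        intro i _
        push_cast
        congr 2
        ring
      rw [h3]
      have h4 : ((q + m : ℕ) : ℝ) / q = 1 + m / q := by
        push_cast; field_simp
      rw [h4]
      linarith

end Pool.Agent.Hhelper88
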